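import Pool.Agent.W847.Frog.Real

/-!
# Recurrence of the frog model
-/

set_option autoImplicit false

open Finset MeasureTheory ProbabilityTheory

namespace Pool.Agent.W847.Frog

/-- The constants. -/
theorem consts : ∃ K N : ℕ, 2 ≤ K ∧ ((1 : ℝ) / 2) ^ K ≤ eta1 ∧
    (∀ r < N, (r : ℝ) * eps1 ≤ Lam0) ∧ Lam0 ≤ N * eps1 := by
  obtain ⟨K, hK⟩ := exists_pow_lt_of_lt_one eta1_pos (by norm_num : (1 / 2 : ℝ) < 1)
  refine ⟨K + 2, ⌈Lam0 / eps1⌉₊, by omega, ?_, ?_, ?_⟩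
  · rw [pow_add]
    have : (0 : ℝ) < (1 / 2) ^ K := by positivity
    nlinarith
  · intro r hr
    rw [Nat.lt_ceil, lt_div_iff₀ eps1_pos] at hr
    exact hr.le
  · rw [← div_le_iff₀ eps1_pos]
    exact Nat.le_ceil _

section prob

variable {Ω : Type} [mΩ : MeasurableSpace Ω] {P : Measure Ω} [IsProbabilityMeasure P]
  {V : List ℕ × ℕ → Ω → ℝ} (hI : iIndepFun V P) (hm : ∀ i, Measurable (V i))
  (hV0 : ∀ i ω, 0 ≤ V i ω) (hV1 : ∀ i ω, V i ω < 1)
  (hU : ∀ i a b, 0 ≤ a → a ≤ b → b ≤ 1 → P.real (V i ⁻¹' Set.Ico a b) = b - a)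
  {K N : ℕ} (hK : 2 ≤ K) (hKe : ((1 : ℝ) / 2) ^ K ≤ eta1)
  (hN1 : ∀ r < N, (r : ℝ) * eps1 ≤ Lam0) (hN2 : Lam0 ≤ N * eps1)
  {p : ℝ} (hp0 : 0 ≤ p) (hp1 : p ≤ 1) (hp : (10 : ℝ) ^ (N + 2 * K) * (1 - p) ≤ 1 / 2)

include hI hm hV0 hV1 hU hK hKe hN1 hN2 hp0 hp1 hp

theorem few_visits (m0 j I : ℕ)
    (hδ : 0 ≤ 1 - 1 / (1 - 1 / 1690) ^ m0 * Real.exp (-((Lam0 + (j : ℝ) * (1 / 10)) / 6760))) :
    (1 - 1 / (1 - 1 / 1690) ^ m0 * Real.exp (-((Lam0 + (j : ℝ) * (1 / 10)) / 6760))) *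
      (1 - 5 ^ (j + 1) * (1 / 2) ^ I) ≤ 1 - P.real (RR p V m0)ᶜ := by
  classical
  obtain ⟨n, hn⟩ : ∃ n, n = j + 1 + (N + 2 * K) * I + K + (N + 2 * K) + 2 := ⟨_, rfl⟩
  have h1 := RR_prob hI hm hV0 hV1 hU (p := p) (n := n) (by omega) m0
    (δ := 1 - 1 / (1 - 1 / 1690) ^ m0 * Real.exp (-((Lam0 + (j : ℝ) * (1 / 10)) / 6760)))
    ((Finset.powerset (frogs n)).filter
      (fun κ => GoodEnv (kk κ) (N + 2 * K) (j + 1) ((N + 2 * K) * I)))
    (fun κ hκ => Finset.mem_powerset.1 (Finset.mem_filter.1 hκ).1)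
    (fun κ hκ => by
      have hG := (Finset.mem_filter.1 hκ).2
      apply J_final (kk_or κ) (by omega)
      · intro i hi
        have := env_root (kk_or κ) hK hKe hN1 hN2 (j0 := j + 1) (by omega)
          (n := n) (by omega) hG hi
        simpa using this
      · have := Lam0_pos
        positivity)
  refine le_trans (mul_le_mul_of_nonneg_left ?_ hδ) h1
  -- probability of good environments
  have h2 := bad_prob hI hm hV1 hU hp0 hp1 (L := N + 2 * K) (j0 := j + 1) (I := I) (n := n) hp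
  have h3 : (Set.univ : Set Ω) ⊆ (⋃ κ ∈ ((Finset.powerset (frogs n)).filter
      (fun κ => GoodEnv (kk κ) (N + 2 * K) (j + 1) ((N + 2 * K) * I))), EE p V n κ) ∪
      {ω | ¬ GoodEnv (kk (kap p V n ω)) (N + 2 * K) (j + 1) ((N + 2 * K) * I)} := by
    intro ω _
    by_cases h : GoodEnv (kk (kap p V n ω)) (N + 2 * K) (j + 1) ((N + 2 * K) * I)
    · left
      simp only [Set.mem_iUnion, exists_prop]
      refine ⟨kap p V n ω, Finset.mem_filter.2 ⟨Finset.mem_powerset.2 ?_, h⟩, rfl⟩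
      intro x hx
      exact (mem_kap.1 hx).1
    · right; exact h
  have h4 := measureReal_mono h3 (measure_ne_top P _)
  have h5 := measureReal_union_le (μ := P) (⋃ κ ∈ ((Finset.powerset (frogs n)).filter
      (fun κ => GoodEnv (kk κ) (N + 2 * K) (j + 1) ((N + 2 * K) * I))), EE p V n κ)
      {ω | ¬ GoodEnv (kk (kap p V n ω)) (N + 2 * K) (j + 1) ((N + 2 * K) * I)}
  rw [probReal_univ] at h4
  linarith

theorem visits_ae (m0 : ℕ) : P (RR p V m0)ᶜ = 0 := by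
  have key : ∀ ε : ℝ, 0 < ε → ε < 1 → P.real (RR p V m0)ᶜ ≤ 2 * ε := by
    intro ε hε hε1
    -- choose `j`
    obtain ⟨j, hj⟩ : ∃ j : ℕ, 1 / (1 - 1 / 1690) ^ m0 *
        Real.exp (-((Lam0 + (j : ℝ) * (1 / 10)) / 6760)) ≤ ε := by
      have hc : (0 : ℝ) < 1 / (1 - 1 / 1690) ^ m0 := by
        apply div_pos one_pos (pow_pos (by norm_num) _)
      obtain ⟨j, hj⟩ := exists_nat_gt (67600 * ((1 / (1 - 1 / 1690) ^ m0) / ε))
      refine ⟨j, ?_⟩
      have h1 : Real.exp (-((Lam0 + (j : ℝ) * (1 / 10)) / 6760)) ≤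
          1 / (1 + (j : ℝ) / 67600) := by
        refine le_trans (Real.exp_le_exp.2 ?_) (exp_neg_le (x := (j : ℝ) / 67600) (by positivity))
        have := Lam0_pos
        linarith
      have h2 : 1 / (1 + (j : ℝ) / 67600) ≤ ε / (1 / (1 - 1 / 1690) ^ m0) := by
        rw [div_le_div_iff₀ (by positivity) hc]
        have h3 : (1 / (1 - 1 / 1690) ^ m0) / ε < (j : ℝ) / 67600 := by
          rw [lt_div_iff₀ (by norm_num)]; linarith
        rw [div_lt_iff₀ hε] at h3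
        linarith
      calc 1 / (1 - 1 / 1690) ^ m0 * Real.exp (-((Lam0 + (j : ℝ) * (1 / 10)) / 6760))
          ≤ 1 / (1 - 1 / 1690) ^ m0 * (ε / (1 / (1 - 1 / 1690) ^ m0)) :=
            mul_le_mul_of_nonneg_left (h1.trans h2) hc.le
        _ = ε := by field_simp
    obtain ⟨I, hI'⟩ := exists_pow_lt_of_lt_one (x := ε / 5 ^ (j + 1)) (by positivity)
      (by norm_num : (1 / 2 : ℝ) < 1)
    have h5 : (5 : ℝ) ^ (j + 1) * (1 / 2) ^ I ≤ ε := by
      rw [lt_div_iff₀ (by positivity)] at hI'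
      linarith
    have h6 := few_visits hI hm hV0 hV1 hU hK hKe hN1 hN2 hp0 hp1 hp m0 j I (by linarith)
    have h7 : (1 - ε) * (1 - ε) ≤ (1 - 1 / (1 - 1 / 1690) ^ m0 *
        Real.exp (-((Lam0 + (j : ℝ) * (1 / 10)) / 6760))) *
        (1 - 5 ^ (j + 1) * (1 / 2) ^ I) :=
      mul_le_mul (by linarith) (by linarith) (by linarith) (by linarith)
    nlinarith
  have h0 : P.real (RR p V m0)ᶜ = 0 := by
    apply le_antisymm _ measureReal_nonneg
    by_contra hcon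
    push Not at hcon
    have h1 := key (min (1 / 2) (P.real (RR p V m0)ᶜ / 4)) (by positivity)
      (lt_of_le_of_lt (min_le_left _ _) (by norm_num))
    have h2 := min_le_right (1 / 2 : ℝ) (P.real (RR p V m0)ᶜ / 4)
    linarith
  rw [measureReal_def, ENNReal.toReal_eq_zero_iff] at h0
  rcases h0 with h0 | h0
  · exact h0
  · exact absurd h0 (measure_ne_top _ _)

theorem infinite_visits : ∀ᵐ ω ∂P, Set.Infinite {q : List ℕ × ℕ |
    q.1 ∈ Act p V ω ∧ XX p V q.1 q.2 ω = []} := by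
  have h1 : ∀ m0, ∀ᵐ ω ∂P, ω ∈ RR p V m0 := fun m0 =>
    (visits_ae hI hm hV0 hV1 hU hK hKe hN1 hN2 hp0 hp1 hp m0)
  rw [← ae_all_iff] at h1
  filter_upwards [h1] with ω hω
  intro hfin
  obtain ⟨T, hT1, hT2⟩ := hω (hfin.toFinset.card + 1)
  have : T ⊆ hfin.toFinset := by
    intro q hq
    rw [Set.Finite.mem_toFinset]
    exact hT2 q hq
  have := Finset.card_le_card this
  omega

end prob

/-- The parameter. -/
theorem main : ∃ p : ℝ, 0 ≤ p ∧ p < 1 ∧
    ∀ (Ω : Type) [MeasurableSpace Ω] (P : Measure Ω) [IsProbabilityMeasure P]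
      (V : List ℕ × ℕ → Ω → ℝ) (X : List ℕ → ℕ → Ω → List ℕ),
      iIndepFun V P →
      (∀ i, Measure.map (V i) P = (volume : Measure ℝ).restrict (Set.Icc (0:ℝ) 1)) →
      (∀ v ω, X v 0 ω = v) →
      (∀ v n ω, X v (n+1) ω =
        if X v n ω = [] then
          [⌊V (v, n+1) ω * (if V (X v n ω, 0) ω < p then (2:ℝ) else 5)⌋₊]
        else if ⌊V (v, n+1) ω * (if V (X v n ω, 0) ω < p then (3:ℝ) else 6)⌋₊ = 0 then
          (X v n ω).tail
        else
          (⌊V (v, n+1) ω * (if V (X v n ω, 0) ω < p then (3:ℝ) else 6)⌋₊ - 1) :: X v n ω) →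
      ∀ᵐ ω ∂P, Set.Infinite {q : List ℕ × ℕ |
        Relation.ReflTransGen (fun u w => ∃ m, X u m ω = w) [] q.1 ∧ X q.1 q.2 ω = []} := by
  obtain ⟨K, N, hK, hKe, hN1, hN2⟩ := consts
  have h10 : (1 : ℝ) ≤ 10 ^ (N + 2 * K) := one_le_pow₀ (by norm_num)
  refine ⟨1 - 1 / (2 * 10 ^ (N + 2 * K)), ?_, ?_, ?_⟩
  · rw [sub_nonneg, div_le_one (by positivity)]; linarith
  · have : (0 : ℝ) < 1 / (2 * 10 ^ (N + 2 * K)) := by positivity
    linarith
  obtain ⟨p, hp⟩ : ∃ p : ℝ, p = 1 - 1 / (2 * 10 ^ (N + 2 * K)) := ⟨_, rfl⟩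
  rw [← hp]
  have hp0 : 0 ≤ p := by
    rw [hp, sub_nonneg, div_le_one (by positivity)]; linarith
  have hp1 : p ≤ 1 := by
    rw [hp]
    have : (0 : ℝ) < 1 / (2 * 10 ^ (N + 2 * K)) := by positivity
    linarith
  have hp2 : (10 : ℝ) ^ (N + 2 * K) * (1 - p) ≤ 1 / 2 := by
    rw [hp]
    apply le_of_eq
    field_simp
    ring
  intro Ω _ P _ V X hI hlaw hX0 hX
  -- measurable versions with values in `[0, 1)`
  have hae : ∀ i, AEMeasurable (V i) P := by
    intro i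
    apply AEMeasurable.of_map_ne_zero
    rw [hlaw i]
    intro h
    have := congrArg (fun μ : Measure ℝ => μ Set.univ) h
    simp at this
  have h01 : ∀ i, ∀ᵐ ω ∂P, V i ω ∈ Set.Ico (0 : ℝ) 1 := by
    intro i
    have h1 : ∀ᵐ y ∂(Measure.map (V i) P), y ∈ Set.Ico (0 : ℝ) 1 := by
      rw [hlaw i]
      rw [← restrict_Ico_eq_restrict_Icc]
      exact ae_restrict_mem measurableSet_Ico
    exact ae_of_ae_map (hae i) h1
  let g : List ℕ × ℕ → Ω → ℝ := fun i => (hae i).mk (V i)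
  let V' : List ℕ × ℕ → Ω → ℝ := fun i ω => Set.indicator (Set.Ico (0 : ℝ) 1) id (g i ω)
  have hgm : ∀ i, Measurable (g i) := fun i => (hae i).measurable_mk
  have hV'm : ∀ i, Measurable (V' i) := fun i =>
    (measurable_id.indicator measurableSet_Ico).comp (hgm i)
  have hV'0 : ∀ i ω, 0 ≤ V' i ω := by
    intro i ω
    exact Set.indicator_nonneg (fun x hx => hx.1) _
  have hV'1 : ∀ i ω, V' i ω < 1 := by
    intro i ω
    simp only [V', Set.indicator_apply, id]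
    split_ifs with h
    · exact h.2
    · norm_num
  have hVV' : ∀ i, V i =ᵐ[P] V' i := by
    intro i
    filter_upwards [(hae i).ae_eq_mk, h01 i] with ω h1 h2
    simp only [V', g]
    rw [← h1, Set.indicator_of_mem h2]
    rfl
  have hI' : iIndepFun V' P := (iIndepFun_congr hVV').1 hI
  have hU' : ∀ i a b, 0 ≤ a → a ≤ b → b ≤ 1 → P.real (V' i ⁻¹' Set.Ico a b) = b - a := by
    intro i a b ha hab hb
    have h1 : P (V' i ⁻¹' Set.Ico a b) = P (V i ⁻¹' Set.Ico a b) := by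
      apply measure_congr
      filter_upwards [hVV' i] with ω hω
      apply propext
      change V' i ω ∈ Set.Ico a b ↔ V i ω ∈ Set.Ico a b
      rw [hω]
    rw [measureReal_def, h1, ← Measure.map_apply_of_aemeasurable (hae i) measurableSet_Ico,
      hlaw i, Measure.restrict_apply measurableSet_Ico,
      Set.inter_eq_left.2 (Set.Ico_subset_Icc_self.trans (Set.Icc_subset_Icc ha hb)),
      Real.volume_Ico, ENNReal.toReal_ofReal (by linarith)]
  have hmain := infinite_visits hI' hV'm hV'0 hV'1 hU' hK hKe hN1 hN2 hp0 hp1 hp2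
  have hall : ∀ᵐ ω ∂P, ∀ i, V i ω = V' i ω := ae_all_iff.2 hVV'
  filter_upwards [hmain, hall] with ω h1 h2
  have hXX : ∀ v n, X v n ω = XX p V' v n ω := by
    intro v n
    induction n with
    | zero => exact hX0 v ω
    | succ n ih =>
      have hstep : XX p V' v (n + 1) ω = stp (kr p V' ω) (XX p V' v n ω) (V' (v, n + 1) ω) := rfl
      have e2 : (kr p V' ω (XX p V' v n ω) : ℝ) =
          if V' (XX p V' v n ω, 0) ω < p then 2 else 5 := by
        unfold kr; split_ifs <;> norm_num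
      have e3 : (kr p V' ω (XX p V' v n ω) : ℝ) + 1 =
          if V' (XX p V' v n ω, 0) ω < p then 3 else 6 := by
        unfold kr; split_ifs <;> norm_num
      rw [hX, ih, hstep]
      unfold stp
      rw [e3, e2, h2, h2]
  have hset : {q : List ℕ × ℕ |
        Relation.ReflTransGen (fun u w => ∃ m, X u m ω = w) [] q.1 ∧ X q.1 q.2 ω = []} =
      {q : List ℕ × ℕ | q.1 ∈ Act p V' ω ∧ XX p V' q.1 q.2 ω = []} := by
    ext q
    simp only [hXX, Act, Set.mem_ofPred_eq]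
  rw [hset]
  exact h1

end Pool.Agent.W847.Frog
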