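import Pool.Agent.W847.Frog.Ex

/-!
# Bounds for the recursion
-/

set_option autoImplicit false

open Finset

namespace Pool.Agent.W847.Frog

section Lf

variable {u : ℝ} {θ : ℕ → ℝ} {K : ℕ} {s : ℝ} {a : ℕ → ℝ}
  (hu : 0 ≤ u) (hs0 : 0 ≤ s) (hs1 : s ≤ 1) (hθ : ∀ j, 0 ≤ θ j)
  (hsum : u + ∑ j ∈ range K, θ j = 1)

include hu hs0 hθ

theorem Lf_nonneg (ha0 : ∀ j < K, 0 ≤ a j) (l : ℕ) : ∀ A, 0 ≤ Lf u θ K s a l A := by
  induction l with
  | zero => intro A; simp [Lf]
  | succ l ih =>
    intro A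
    simp only [Lf]
    apply add_nonneg
    · exact mul_nonneg (mul_nonneg hu hs0) (ih A)
    · refine Finset.sum_nonneg fun j hj => mul_nonneg (hθ j) ?_
      split_ifs
      · exact ih A
      · exact mul_nonneg (ha0 j (Finset.mem_range.1 hj)) (ih _)

include hs1 hsum

theorem b_bounds : 0 ≤ 1 - u * (1 - s) ∧ 1 - u * (1 - s) ≤ 1 := by
  have h1 : 0 ≤ ∑ j ∈ range K, θ j := Finset.sum_nonneg fun j _ => hθ j
  have hu1 : u ≤ 1 := by linarith
  constructor
  · nlinarith
  · nlinarith

theorem Lf_le (ha0 : ∀ j < K, 0 ≤ a j) (ha1 : ∀ j < K, a j ≤ 1) (l : ℕ) :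
    ∀ A, Lf u θ K s a l A ≤ (1 - u * (1 - s)) ^ l := by
  have hb := b_bounds hu hs0 hs1 hθ hsum
  induction l with
  | zero => intro A; simp [Lf]
  | succ l ih =>
    intro A
    simp only [Lf]
    have h1 : ∑ j ∈ range K, θ j * (if j ∈ A then Lf u θ K s a l A
        else a j * Lf u θ K s a l (insert j A)) ≤
        ∑ j ∈ range K, θ j * (1 - u * (1 - s)) ^ l := by
      refine Finset.sum_le_sum fun j hj => mul_le_mul_of_nonneg_left ?_ (hθ j)
      split_ifs
      · exact ih A
      · have h2 := ha0 j (Finset.mem_range.1 hj)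
        have h3 := ha1 j (Finset.mem_range.1 hj)
        have h4 := ih (insert j A)
        have h5 := Lf_nonneg (θ := θ) hu hs0 hθ ha0 l (insert j A)
        nlinarith
    rw [← Finset.sum_mul] at h1
    have h2 : u * s * Lf u θ K s a l A ≤ u * s * (1 - u * (1 - s)) ^ l :=
      mul_le_mul_of_nonneg_left (ih A) (mul_nonneg hu hs0)
    have h3 : (1 - u * (1 - s)) ^ (l + 1) =
        u * s * (1 - u * (1 - s)) ^ l + (∑ j ∈ range K, θ j) * (1 - u * (1 - s)) ^ l := by
      rw [pow_succ, show ∑ j ∈ range K, θ j = 1 - u by linarith]; ring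
    linarith

theorem Lf_single_le (ha0 : ∀ j < K, 0 ≤ a j) (ha1 : ∀ j < K, a j ≤ 1) {c : ℕ} (hc : θ c = 0)
    {m : ℝ} (hm : ∀ j < K, j ≠ c → a j ≤ m) (hm0 : 0 ≤ m) (l : ℕ) :
    Lf u θ K s a l {c} ≤ (1 - m) * (u * s) ^ l + m * (1 - u * (1 - s)) ^ l := by
  have hb := b_bounds hu hs0 hs1 hθ hsum
  induction l with
  | zero => simp [Lf]
  | succ l ih =>
    simp only [Lf]
    have h1 : ∑ j ∈ range K, θ j * (if j ∈ ({c} : Finset ℕ) then Lf u θ K s a l {c}
        else a j * Lf u θ K s a l (insert j {c})) ≤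
        ∑ j ∈ range K, θ j * (m * (1 - u * (1 - s)) ^ l) := by
      refine Finset.sum_le_sum fun j hj => ?_
      by_cases hjc : j = c
      · subst hjc; simp [hc]
      · rw [if_neg (by simpa using hjc)]
        apply mul_le_mul_of_nonneg_left _ (hθ j)
        have h2 := ha0 j (Finset.mem_range.1 hj)
        have h3 := hm j (Finset.mem_range.1 hj) hjc
        have h4 := Lf_le hu hs0 hs1 hθ hsum ha0 ha1 l (insert j {c})
        have h5 := Lf_nonneg (θ := θ) hu hs0 hθ ha0 l (insert j {c})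
        exact mul_le_mul h3 h4 h5 hm0
    rw [← Finset.sum_mul] at h1
    have h2 : u * s * Lf u θ K s a l {c} ≤
        u * s * ((1 - m) * (u * s) ^ l + m * (1 - u * (1 - s)) ^ l) :=
      mul_le_mul_of_nonneg_left ih (mul_nonneg hu hs0)
    have h3 : (1 - m) * (u * s) ^ (l + 1) + m * (1 - u * (1 - s)) ^ (l + 1) =
        u * s * ((1 - m) * (u * s) ^ l + m * (1 - u * (1 - s)) ^ l) +
          (∑ j ∈ range K, θ j) * (m * (1 - u * (1 - s)) ^ l) := by
      rw [pow_succ, pow_succ, show ∑ j ∈ range K, θ j = 1 - u by linarith]; ring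
    linarith

end Lf

/-- Weierstrass product inequality. -/
theorem one_le_prod_add_sum (T : Finset ℕ) (m : ℕ → ℝ) (h0 : ∀ j ∈ T, 0 ≤ m j)
    (h1 : ∀ j ∈ T, m j ≤ 1) : 1 ≤ ∏ j ∈ T, m j + ∑ j ∈ T, (1 - m j) := by
  induction T using Finset.induction_on with
  | empty => simp
  | insert a T ha ih =>
    rw [Finset.prod_insert ha, Finset.sum_insert ha]
    have h2 := ih (fun j hj => h0 j (by simp [hj])) (fun j hj => h1 j (by simp [hj]))
    have h3 : ∏ j ∈ T, m j ≤ 1 := Finset.prod_le_one (fun j hj => h0 j (by simp [hj]))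
      (fun j hj => h1 j (by simp [hj]))
    have h4 := h0 a (by simp)
    have h5 := h1 a (by simp)
    nlinarith

section Lf3

variable {u : ℝ} {θ : ℕ → ℝ} {K : ℕ} {s : ℝ} {a m : ℕ → ℝ} {g : ℝ}
  (hu : 0 ≤ u) (hs0 : 0 ≤ s) (hs1 : s ≤ 1) (hθ : ∀ j, 0 ≤ θ j)
  (hsum : u + ∑ j ∈ range K, θ j = 1)
  (ha0 : ∀ j < K, 0 ≤ a j) (ham : ∀ j < K, a j ≤ m j) (hm1 : ∀ j < K, m j ≤ 1)
  (hg0 : 0 ≤ g) {c : ℕ} (hc : θ c = 0) (hg : ∀ j < K, j ≠ c → 1 - θ j ≤ g)

include hu hs0 hs1 hθ hsum ha0 ham hm1 hg0 hc hg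

theorem Lf_prod_le (l : ℕ) :
    ∀ A, c ∈ A → Lf u θ K s a l A ≤ (1 - u * (1 - s)) ^ l * ∏ j ∈ range K \ A, m j +
      g ^ l * ∑ j ∈ range K \ A, (1 - m j) := by
  have hb := b_bounds hu hs0 hs1 hθ hsum
  have hm0 : ∀ j < K, 0 ≤ m j := fun j hj => (ha0 j hj).trans (ham j hj)
  induction l with
  | zero =>
    intro A _
    simp only [Lf, pow_zero, one_mul]
    apply one_le_prod_add_sum
    · intro j hj; exact hm0 j (Finset.mem_range.1 (Finset.mem_sdiff.1 hj).1)
    · intro j hj; exact hm1 j (Finset.mem_range.1 (Finset.mem_sdiff.1 hj).1)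
  | succ l ih =>
    intro A hcA
    simp only [Lf]
    set P := ∏ j ∈ range K \ A, m j with hP
    set S := ∑ j ∈ range K \ A, (1 - m j) with hS
    set b := 1 - u * (1 - s) with hbdef
    have hS0 : 0 ≤ S := Finset.sum_nonneg fun j hj => by
      have := hm1 j (Finset.mem_range.1 (Finset.mem_sdiff.1 hj).1); linarith
    have hbl : 0 ≤ b ^ l := pow_nonneg hb.1 l
    have hgl : 0 ≤ g ^ l := pow_nonneg hg0 l
    have h1 : ∀ j ∈ range K, θ j * (if j ∈ A then Lf u θ K s a l A
        else a j * Lf u θ K s a l (insert j A)) ≤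
        θ j * (b ^ l * P + g ^ l * S) - g ^ l * (if j ∈ A then 0 else θ j * (1 - m j)) := by
      intro j hj
      have hjK := Finset.mem_range.1 hj
      split_ifs with hjA
      · have := mul_le_mul_of_nonneg_left (ih A hcA) (hθ j)
        linarith
      · have h2 := ih (insert j A) (Finset.mem_insert_of_mem hcA)
        have hjm : j ∈ range K \ A := Finset.mem_sdiff.2 ⟨hj, hjA⟩
        have hsd : range K \ insert j A = (range K \ A).erase j := by
          ext x; simp only [Finset.mem_sdiff, Finset.mem_range, Finset.mem_insert,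
            Finset.mem_erase]; tauto
        have hP' : m j * ∏ x ∈ range K \ insert j A, m x = P := by
          rw [hsd, hP]; exact Finset.mul_prod_erase _ _ hjm
        have hS' : ∑ x ∈ range K \ insert j A, (1 - m x) = S - (1 - m j) := by
          rw [hsd, hS, ← Finset.add_sum_erase _ _ hjm]; ring
        rw [hS'] at h2
        set P' := ∏ x ∈ range K \ insert j A, m x with hP'def
        have hP0 : 0 ≤ P' := Finset.prod_nonneg fun x hx =>
          hm0 x (Finset.mem_range.1 (Finset.mem_sdiff.1 hx).1)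
        have hSj : 0 ≤ S - (1 - m j) := by
          rw [← hS']
          exact Finset.sum_nonneg fun x hx => by
            have := hm1 x (Finset.mem_range.1 (Finset.mem_sdiff.1 hx).1); linarith
        have h3 : a j * Lf u θ K s a l (insert j A) ≤ b ^ l * P + g ^ l * (S - (1 - m j)) := by
          calc a j * Lf u θ K s a l (insert j A)
              ≤ m j * (b ^ l * P' + g ^ l * (S - (1 - m j))) := by
                apply mul_le_mul (ham j hjK) h2 (Lf_nonneg hu hs0 hθ ha0 l _) (hm0 j hjK)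
            _ = b ^ l * (m j * P') + m j * (g ^ l * (S - (1 - m j))) := by ring
            _ ≤ b ^ l * P + g ^ l * (S - (1 - m j)) := by
                rw [hP']
                have h4 : 0 ≤ g ^ l * (S - (1 - m j)) := mul_nonneg hgl hSj
                have h5 := hm1 j hjK
                nlinarith
        have := mul_le_mul_of_nonneg_left h3 (hθ j)
        linarith
    have h2 : u * s * Lf u θ K s a l A ≤ u * s * (b ^ l * P + g ^ l * S) :=
      mul_le_mul_of_nonneg_left (ih A hcA) (mul_nonneg hu hs0)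
    have h3 := Finset.sum_le_sum h1
    rw [Finset.sum_sub_distrib, ← Finset.sum_mul, ← Finset.mul_sum] at h3
    have h4 : ∑ j ∈ range K, (if j ∈ A then 0 else θ j * (1 - m j)) =
        ∑ j ∈ range K \ A, θ j * (1 - m j) := by
      rw [Finset.sum_ite, Finset.sum_const_zero, zero_add]
      congr 1
      ext x; simp only [Finset.mem_filter, Finset.mem_sdiff]
    rw [h4] at h3
    have h5 : S - ∑ j ∈ range K \ A, θ j * (1 - m j) ≤ g * S := by
      rw [hS, ← Finset.sum_sub_distrib, Finset.mul_sum]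
      refine Finset.sum_le_sum fun j hj => ?_
      have hj' := Finset.mem_sdiff.1 hj
      have hjc : j ≠ c := by rintro rfl; exact hj'.2 hcA
      have h6 := hg j (Finset.mem_range.1 hj'.1) hjc
      have h7 := hm1 j (Finset.mem_range.1 hj'.1)
      nlinarith
    have h6 : u * s * (b ^ l * P + g ^ l * S) + (∑ j ∈ range K, θ j) * (b ^ l * P + g ^ l * S)
        = b * (b ^ l * P + g ^ l * S) := by
      rw [show ∑ j ∈ range K, θ j = 1 - u by linarith, hbdef]; ring
    have h7 : b * (g ^ l * S) ≤ g ^ l * S := by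
      have : 0 ≤ g ^ l * S := mul_nonneg hgl hS0
      nlinarith [hb.2]
    have h8 : g ^ l * (S - ∑ j ∈ range K \ A, θ j * (1 - m j)) ≤ g ^ l * (g * S) :=
      mul_le_mul_of_nonneg_left h5 hgl
    have h9 : b ^ (l + 1) * P + g ^ (l + 1) * S = b * (b ^ l * P) + g ^ l * (g * S) := by
      rw [pow_succ, pow_succ]; ring
    rw [h9]
    nlinarith

end Lf3

section Mf

variable {uo u : ℝ} {o θ : ℕ → ℝ} {K : ℕ} {s : ℝ} {a : ℕ → ℝ}
  (huo : 0 ≤ uo) (hu : 0 ≤ u) (hs0 : 0 ≤ s) (hs1 : s ≤ 1) (ho : ∀ j, 0 ≤ o j) (hθ : ∀ j, 0 ≤ θ j)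
  (hsumo : uo + ∑ j ∈ range K, o j = 1) (hsum : u + ∑ j ∈ range K, θ j = 1)
  (ha0 : ∀ j < K, 0 ≤ a j) {c : ℕ} (hc : θ c = 0) (hcK : c < K)

include huo hu hs0 hs1 ho hθ hsumo hsum ha0 hc hcK

theorem Mf_le {m : ℝ} (ha1 : ∀ j < K, a j ≤ 1) (hm : ∀ j < K, j ≠ c → a j ≤ m) (hm0 : 0 ≤ m)
    (l : ℕ) : Mf uo o u θ K s a c l ≤ (uo * s + o c) * (1 - m) * (u * s) ^ l +
      m * (1 - uo * (1 - s)) * (1 - u * (1 - s)) ^ l := by
  have hb := b_bounds hu hs0 hs1 hθ hsum
  have hL := Lf_single_le hu hs0 hs1 hθ hsum ha0 ha1 hc hm hm0 l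
  have hcm := Finset.mem_range.2 hcK
  unfold Mf
  rw [← Finset.add_sum_erase _ _ hcm, if_pos (Finset.mem_singleton_self c)]
  have h1 : ∑ j ∈ (range K).erase c, o j * (if j ∈ ({c} : Finset ℕ) then Lf u θ K s a l {c}
      else a j * Lf u θ K s a l (insert j {c})) ≤
      ∑ j ∈ (range K).erase c, o j * (m * (1 - u * (1 - s)) ^ l) := by
    refine Finset.sum_le_sum fun j hj => ?_
    have hj' := Finset.mem_erase.1 hj
    rw [if_neg (by simpa using hj'.1)]
    apply mul_le_mul_of_nonneg_left _ (ho j)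
    exact mul_le_mul (hm j (Finset.mem_range.1 hj'.2) hj'.1)
      (Lf_le hu hs0 hs1 hθ hsum ha0 ha1 l _) (Lf_nonneg (θ := θ) hu hs0 hθ ha0 l _) hm0
  rw [← Finset.sum_mul] at h1
  have h2 : o c + ∑ j ∈ (range K).erase c, o j = 1 - uo := by
    rw [Finset.add_sum_erase _ _ hcm]; linarith
  have h3 : (uo * s + o c) * Lf u θ K s a l {c} ≤
      (uo * s + o c) * ((1 - m) * (u * s) ^ l + m * (1 - u * (1 - s)) ^ l) :=
    mul_le_mul_of_nonneg_left hL (add_nonneg (mul_nonneg huo hs0) (ho c))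
  have h4 : m * (1 - uo * (1 - s)) * (1 - u * (1 - s)) ^ l =
      (uo * s + o c) * (m * (1 - u * (1 - s)) ^ l) +
        (∑ j ∈ (range K).erase c, o j) * (m * (1 - u * (1 - s)) ^ l) := by
    rw [show ∑ j ∈ (range K).erase c, o j = 1 - uo - o c by linarith]; ring
  rw [h4]
  nlinarith

theorem Mf_prod_le {m : ℕ → ℝ} {g : ℝ} (ham : ∀ j < K, a j ≤ m j) (hm1 : ∀ j < K, m j ≤ 1)
    (hg0 : 0 ≤ g) (hg : ∀ j < K, j ≠ c → 1 - θ j ≤ g) (l : ℕ) :
    Mf uo o u θ K s a c l ≤ (1 - uo * (1 - s)) * (∏ j ∈ (range K).erase c, m j) *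
        (1 - u * (1 - s)) ^ l + (∑ j ∈ (range K).erase c, (1 - m j)) * g ^ l := by
  have hb := b_bounds hu hs0 hs1 hθ hsum
  have hbo := b_bounds huo hs0 hs1 ho hsumo
  have hL := Lf_prod_le hu hs0 hs1 hθ hsum ha0 ham hm1 hg0 hc hg l
  have hcm := Finset.mem_range.2 hcK
  have hm0 : ∀ j < K, 0 ≤ m j := fun j hj => (ha0 j hj).trans (ham j hj)
  have hgl : 0 ≤ g ^ l := pow_nonneg hg0 l
  unfold Mf
  have hsd : range K \ {c} = (range K).erase c := by
    ext x; simp only [Finset.mem_sdiff, Finset.mem_singleton, Finset.mem_erase]; tauto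
  have hLc := hL {c} (Finset.mem_singleton_self c)
  rw [hsd] at hLc
  set P := ∏ j ∈ (range K).erase c, m j with hP
  set S := ∑ j ∈ (range K).erase c, (1 - m j) with hS
  have hS0 : 0 ≤ S := Finset.sum_nonneg fun j hj => by
    have := hm1 j (Finset.mem_range.1 (Finset.mem_erase.1 hj).2); linarith
  set b := 1 - u * (1 - s) with hbdef
  have h1 : ∑ j ∈ range K, o j * (if j ∈ ({c} : Finset ℕ) then Lf u θ K s a l {c}
      else a j * Lf u θ K s a l (insert j {c})) ≤
      ∑ j ∈ range K, o j * (b ^ l * P + g ^ l * S) := by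
    refine Finset.sum_le_sum fun j hj => ?_
    apply mul_le_mul_of_nonneg_left _ (ho j)
    by_cases hjc : j = c
    · subst hjc
      rw [if_pos (Finset.mem_singleton_self j)]
      exact hLc
    · rw [if_neg (by simpa using hjc)]
      have hjm : j ∈ (range K).erase c := Finset.mem_erase.2 ⟨hjc, hj⟩
      have hjK := Finset.mem_range.1 hj
      have h2 := hL (insert j {c}) (by simp)
      have hsd2 : range K \ insert j {c} = ((range K).erase c).erase j := by
        ext x; simp only [Finset.mem_sdiff, Finset.mem_insert, Finset.mem_singleton,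
          Finset.mem_erase]; tauto
      rw [hsd2] at h2
      have hP' : m j * ∏ x ∈ ((range K).erase c).erase j, m x = P :=
        Finset.mul_prod_erase _ _ hjm
      have hS' : ∑ x ∈ ((range K).erase c).erase j, (1 - m x) = S - (1 - m j) := by
        rw [hS, ← Finset.add_sum_erase _ _ hjm]; ring
      rw [hS'] at h2
      set P' := ∏ x ∈ ((range K).erase c).erase j, m x with hP'def
      have hSj : 0 ≤ S - (1 - m j) := by
        rw [← hS']
        exact Finset.sum_nonneg fun x hx => by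
          have := hm1 x (Finset.mem_range.1 (Finset.mem_erase.1 (Finset.mem_erase.1 hx).2).2)
          linarith
      calc a j * Lf u θ K s a l (insert j {c})
          ≤ m j * (b ^ l * P' + g ^ l * (S - (1 - m j))) := by
            apply mul_le_mul (ham j hjK) h2 (Lf_nonneg hu hs0 hθ ha0 l _) (hm0 j hjK)
        _ = b ^ l * (m j * P') + m j * (g ^ l * (S - (1 - m j))) := by ring
        _ ≤ b ^ l * P + g ^ l * S := by
            rw [hP']
            have h4 : 0 ≤ g ^ l * (S - (1 - m j)) := mul_nonneg hgl hSj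
            have h5 := hm1 j hjK
            have h6 : g ^ l * (S - (1 - m j)) ≤ g ^ l * S :=
              mul_le_mul_of_nonneg_left (by linarith) hgl
            nlinarith
  rw [← Finset.sum_mul] at h1
  have h3 : uo * s * Lf u θ K s a l {c} ≤ uo * s * (b ^ l * P + g ^ l * S) :=
    mul_le_mul_of_nonneg_left hLc (mul_nonneg huo hs0)
  have h4 : uo * s * (b ^ l * P + g ^ l * S) + (∑ j ∈ range K, o j) * (b ^ l * P + g ^ l * S) =
      (1 - uo * (1 - s)) * P * b ^ l + (1 - uo * (1 - s)) * (g ^ l * S) := by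
    rw [show ∑ j ∈ range K, o j = 1 - uo by linarith]; ring
  have h5 : (1 - uo * (1 - s)) * (g ^ l * S) ≤ S * g ^ l := by
    have : 0 ≤ g ^ l * S := mul_nonneg hgl hS0
    nlinarith [hbo.2]
  linarith

end Mf

/-- Generating function at the vertex `w`. -/
noncomputable def ff (k : List ℕ → ℕ) (n : ℕ) (w : List ℕ) (s : ℝ) : ℝ :=
  fgf k n (n - w.length) w s

section ff

variable {k : List ℕ → ℕ} (hk : ∀ x, k x = 2 ∨ k x = 5) {n : ℕ}

include hk

theorem ff_nonneg {w : List ℕ} {s : ℝ} (hs : 0 ≤ s) : 0 ≤ ff k n w s := by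
  apply down_nonneg hk
  intro p
  exact Prog.E_nonneg hk n _ fun r => pow_nonneg hs _

theorem ff_mono {w : List ℕ} {s s' : ℝ} (hs : 0 ≤ s) (h : s ≤ s') : ff k n w s ≤ ff k n w s' := by
  apply down_mono hk
  intro p
  exact Prog.E_mono hk n _ fun r => pow_le_pow_left₀ hs h _

/-- Upper bounds for the generating function from upper bounds for `Mf`. -/
theorem ff_le {i : ℕ} {z : List ℕ} (hw : Val k (i :: z)) (hn : (i :: z).length < n) {s R : ℝ}
    (α β x y : ℕ → ℝ)
    (hM : ∀ c < k (i :: z), ∀ l, Mf (up k n (i :: z) none) (wt k n (i :: z) none)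
        (up k n (i :: z) (some c)) (wt k n (i :: z) (some c)) (k (i :: z)) s
        (fun j => ff k n (j :: i :: z) (1 - up k n (i :: z) (some j) * (1 - s))) c l ≤
        α c * x c ^ l + β c * y c ^ l)
    (hR : ∀ c < k (i :: z), α c * ff k n (c :: i :: z) (x c) +
      β c * ff k n (c :: i :: z) (y c) ≤ R) :
    ff k n (i :: z) s ≤ R := by
  simp only [List.length_cons] at hn
  obtain ⟨d, hd⟩ : ∃ d, n - (i :: z).length = d + 1 :=
    ⟨n - (i :: z).length - 1, by simp only [List.length_cons]; omega⟩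
  have hd' : z.length + d + 2 = n := by simp only [List.length_cons] at hd; omega
  have hff : ∀ j s, ff k n (j :: i :: z) s = fgf k n d (j :: i :: z) s := by
    intro j s; unfold ff
    rw [show n - (j :: i :: z).length = d by simp only [List.length_cons]; omega]
  simp only [hff] at hM hR
  unfold ff
  rw [hd, fgf_succ hk n hw hd']
  have hD : 0 < DD k n (i :: z) := by linarith [DD_ge hk n (i :: z)]
  have h1 : ∀ c ∈ range (k (i :: z)), cc k n (i :: z) c / DD k n (i :: z) *
        down k d (c :: i :: z) (fun p => (Ex d (c :: i :: z) p).E k n (fun A =>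
          Mf (up k n (i :: z) none) (wt k n (i :: z) none) (up k n (i :: z) (some c))
            (wt k n (i :: z) (some c)) (k (i :: z)) s
            (fun j => fgf k n d (j :: i :: z) (1 - up k n (i :: z) (some j) * (1 - s)))
            c A.length)) ≤ cc k n (i :: z) c / DD k n (i :: z) * R := by
    intro c hc
    have hc' := Finset.mem_range.1 hc
    apply mul_le_mul_of_nonneg_left _ (div_nonneg (cc_pos hk n _ _).le hD.le)
    refine le_trans ?_ (hR c hc')
    unfold fgf
    rw [← down_mul, ← down_mul, ← down_add]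
    apply down_mono hk
    intro p
    rw [← Prog.E_mul, ← Prog.E_mul, ← Prog.E_add]
    exact Prog.E_mono hk n _ fun A => hM c hc' A.length
  refine (Finset.sum_le_sum h1).trans ?_
  rw [← Finset.sum_mul, ← Finset.sum_div]
  rw [show ∑ j ∈ range (k (i :: z)), cc k n (i :: z) j = DD k n (i :: z) from rfl,
    div_self hD.ne', one_mul]

theorem wt_self {w : List ℕ} {c : ℕ} : wt k n w (some c) c = 0 := by simp [wt]

theorem ff_le_one (d : ℕ) : ∀ {i : ℕ} {z : List ℕ} (_ : Val k (i :: z))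
    (_ : (i :: z).length + d = n) {s : ℝ} (_ : 0 ≤ s) (_ : s ≤ 1), ff k n (i :: z) s ≤ 1 := by
  induction d with
  | zero =>
    intro i z _ hn s _ _
    unfold ff fgf
    rw [show n - (i :: z).length = 0 by omega]
    simp [down, Ex, Prog.E, gf]
  | succ d ih =>
    intro i z hw hn s hs0 hs1
    have hn' : (i :: z).length < n := by omega
    have hff : ∀ j < k (i :: z), ∀ s, 0 ≤ s → s ≤ 1 → ff k n (j :: i :: z) s ≤ 1 := by
      intro j hj s h0 h1
      exact ih (i := j) (z := i :: z) ⟨hj, hw⟩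
        (by simp only [List.length_cons] at hn ⊢; omega) h0 h1
    have hbj : ∀ j < k (i :: z), 0 ≤ 1 - up k n (i :: z) (some j) * (1 - s) ∧
        1 - up k n (i :: z) (some j) * (1 - s) ≤ 1 := fun j hj =>
      b_bounds (up_nonneg hk n hw (leg_some hj)) hs0 hs1 (wt_nonneg hk n hw (leg_some hj))
        (up_add_sum hk n hw (leg_some hj))
    apply ff_le hk hw hn' (fun _ => 1) (fun _ => 0) (fun _ => 1) (fun _ => 1)
    · intro c hc l
      have := Mf_le (up_nonneg hk n hw (leg_none _)) (up_nonneg hk n hw (leg_some hc)) hs0 hs1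
        (wt_nonneg hk n hw (leg_none _)) (wt_nonneg hk n hw (leg_some hc))
        (up_add_sum hk n hw (leg_none _)) (up_add_sum hk n hw (leg_some hc))
        (a := fun j => ff k n (j :: i :: z) (1 - up k n (i :: z) (some j) * (1 - s)))
        (fun j hj => ff_nonneg hk (hbj j hj).1) (wt_self hk) hc (m := 1)
        (fun j hj => hff j hj _ (hbj j hj).1 (hbj j hj).2)
        (fun j hj _ => hff j hj _ (hbj j hj).1 (hbj j hj).2) zero_le_one l
      refine this.trans ?_
      have h1 := b_bounds (up_nonneg hk n hw (leg_none _)) hs0 hs1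
        (wt_nonneg hk n hw (leg_none _)) (up_add_sum hk n hw (leg_none _))
      have h2 := hbj c hc
      have h3 : (1 - up k n (i :: z) (some c) * (1 - s)) ^ l ≤ 1 := pow_le_one₀ h2.1 h2.2
      have h4 : 0 ≤ (1 - up k n (i :: z) (some c) * (1 - s)) ^ l := pow_nonneg h2.1 l
      simp only [sub_self, mul_zero, zero_mul, one_mul, one_pow, zero_add, mul_one, add_zero]
      nlinarith [h1.1, h1.2]
    · intro c hc
      have := hff c hc 1 zero_le_one le_rfl
      linarith

end ff

end Pool.Agent.W847.Frog
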