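import Mathlib

/-!
# Conductances on a tree with 2 or 5 children at each vertex, truncated at generation `n`

Vertices are lists of naturals, the children of `x` being `j :: x` with `j < k x`.
-/

set_option autoImplicit false

open Finset

namespace Pool.Agent.W847.Frog

/-- Effective conductance of the edge above `x` in series with the tree below `x`, when the vertices
`d` generations below `x` are wired together. -/
noncomputable def C (k : List ℕ → ℕ) : ℕ → List ℕ → ℝ
  | 0, _ => 1
  | d + 1, x => (∑ j ∈ range (k x), C k d (j :: x)) / (1 + ∑ j ∈ range (k x), C k d (j :: x))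

/-- Conductance of the branch at `w` through its child number `j`, down to generation `n`. -/
noncomputable def cc (k : List ℕ → ℕ) (n : ℕ) (w : List ℕ) (j : ℕ) : ℝ :=
  C k (n - (w.length + 1)) (j :: w)

/-- Total downward conductance at `w`. -/
noncomputable def DD (k : List ℕ → ℕ) (n : ℕ) (w : List ℕ) : ℝ :=
  ∑ j ∈ range (k w), cc k n w j

/-- Upward conductance at `w`. -/
noncomputable def U (k : List ℕ → ℕ) (n : ℕ) : List ℕ → ℝ
  | [] => 0
  | i :: w => (U k n w + DD k n w - cc k n w i) / (1 + (U k n w + DD k n w - cc k n w i))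

/-- Total conductance at `w`, without the branch `fr`. -/
noncomputable def SS (k : List ℕ → ℕ) (n : ℕ) (w : List ℕ) : Option ℕ → ℝ
  | none => U k n w + DD k n w
  | some i => U k n w + DD k n w - cc k n w i

/-- Probability to go up. -/
noncomputable def up (k : List ℕ → ℕ) (n : ℕ) (w : List ℕ) (fr : Option ℕ) : ℝ :=
  U k n w / SS k n w fr

/-- Probability to go to the branch `j`. -/
noncomputable def wt (k : List ℕ → ℕ) (n : ℕ) (w : List ℕ) (fr : Option ℕ) (j : ℕ) : ℝ :=
  if fr = some j then 0 else cc k n w j / SS k n w fr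

/-- Valid vertices of the tree. -/
def Val (k : List ℕ → ℕ) : List ℕ → Prop
  | [] => True
  | i :: w => i < k w ∧ Val k w

section basic

variable {k : List ℕ → ℕ} (hk : ∀ x, k x = 2 ∨ k x = 5) (n : ℕ)

include hk

theorem k_ge (x : List ℕ) : 2 ≤ k x := by rcases hk x with h | h <;> omega

theorem k_le (x : List ℕ) : k x ≤ 5 := by rcases hk x with h | h <;> omega

theorem C_bounds (d : ℕ) : ∀ x, 1 / 2 ≤ C k d x ∧ C k d x ≤ 1 := by
  induction d with
  | zero => intro x; simp only [C]; norm_num
  | succ d ih =>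
    intro x
    have h1 : (1 : ℝ) ≤ ∑ j ∈ range (k x), C k d (j :: x) := by
      have : ∑ j ∈ range (k x), (1 / 2 : ℝ) ≤ ∑ j ∈ range (k x), C k d (j :: x) :=
        Finset.sum_le_sum fun j _ => (ih _).1
      simp only [Finset.sum_const, Finset.card_range, nsmul_eq_mul] at this
      have h2 : (2 : ℝ) ≤ k x := by exact_mod_cast k_ge hk x
      linarith
    simp only [C]
    constructor
    · rw [le_div_iff₀ (by linarith)]; linarith
    · rw [div_le_one (by linarith)]; linarith

theorem cc_ge (w : List ℕ) (j : ℕ) : 1 / 2 ≤ cc k n w j := (C_bounds hk _ _).1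

theorem cc_le (w : List ℕ) (j : ℕ) : cc k n w j ≤ 1 := (C_bounds hk _ _).2

theorem cc_pos (w : List ℕ) (j : ℕ) : 0 < cc k n w j := by linarith [cc_ge hk n w j]

theorem DD_ge (w : List ℕ) : 1 ≤ DD k n w := by
  have : ∑ j ∈ range (k w), (1 / 2 : ℝ) ≤ DD k n w :=
    Finset.sum_le_sum fun j _ => cc_ge hk n w j
  simp only [Finset.sum_const, Finset.card_range, nsmul_eq_mul] at this
  have h2 : (2 : ℝ) ≤ k w := by exact_mod_cast k_ge hk w
  linarith

theorem DD_le (w : List ℕ) : DD k n w ≤ 5 := by
  have : DD k n w ≤ ∑ j ∈ range (k w), (1 : ℝ) :=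
    Finset.sum_le_sum fun j _ => cc_le hk n w j
  simp only [Finset.sum_const, Finset.card_range, nsmul_eq_mul] at this
  have h2 : (k w : ℝ) ≤ 5 := by exact_mod_cast k_le hk w
  linarith

theorem DD_sub_eq {w : List ℕ} {i : ℕ} (hi : i < k w) :
    DD k n w - cc k n w i = ∑ j ∈ (range (k w)).erase i, cc k n w j := by
  rw [DD, ← Finset.add_sum_erase _ _ (Finset.mem_range.2 hi)]; ring

theorem DD_sub_ge {w : List ℕ} {i : ℕ} (hi : i < k w) :
    1 / 2 ≤ DD k n w - cc k n w i := by
  rw [DD_sub_eq hk n hi]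
  have : ∑ j ∈ (range (k w)).erase i, (1 / 2 : ℝ) ≤ ∑ j ∈ (range (k w)).erase i, cc k n w j :=
    Finset.sum_le_sum fun j _ => cc_ge hk n w j
  simp only [Finset.sum_const, Finset.card_erase_of_mem (Finset.mem_range.2 hi),
    Finset.card_range, nsmul_eq_mul] at this
  have h2 : (1 : ℝ) ≤ ((k w - 1 : ℕ) : ℝ) := by
    have := k_ge hk w
    exact_mod_cast (by omega : 1 ≤ k w - 1)
  linarith

theorem DD_sub_le {w : List ℕ} {i : ℕ} (hi : i < k w) :
    DD k n w - cc k n w i ≤ 4 := by
  rw [DD_sub_eq hk n hi]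
  have : ∑ j ∈ (range (k w)).erase i, cc k n w j ≤ ∑ j ∈ (range (k w)).erase i, (1 : ℝ) :=
    Finset.sum_le_sum fun j _ => cc_le hk n w j
  simp only [Finset.sum_const, Finset.card_erase_of_mem (Finset.mem_range.2 hi),
    Finset.card_range, nsmul_eq_mul] at this
  have h2 : ((k w - 1 : ℕ) : ℝ) ≤ 4 := by
    have := k_le hk w
    exact_mod_cast (by omega : k w - 1 ≤ 4)
  linarith

theorem U_bounds {w : List ℕ} (hw : Val k w) : 0 ≤ U k n w ∧ U k n w ≤ 1 := by
  induction w with
  | nil => simp [U]
  | cons i w ih =>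
    obtain ⟨h0, h1⟩ := ih hw.2
    have h2 := DD_sub_ge hk n hw.1
    simp only [U]
    constructor
    · apply div_nonneg <;> linarith
    · rw [div_le_one (by linarith)]; linarith

theorem U_ge {i : ℕ} {w : List ℕ} (hw : Val k (i :: w)) : 1 / 3 ≤ U k n (i :: w) := by
  obtain ⟨h0, h1⟩ := U_bounds hk n hw.2
  have h2 := DD_sub_ge hk n hw.1
  simp only [U]
  rw [le_div_iff₀ (by linarith)]; linarith

theorem SS_none_ge {w : List ℕ} (hw : Val k w) : 1 ≤ SS k n w none := by
  have := (U_bounds hk n hw).1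
  have := DD_ge hk n w
  simp only [SS]; linarith

theorem SS_some_ge {w : List ℕ} (hw : Val k w) {i : ℕ} (hi : i < k w) :
    1 / 2 ≤ SS k n w (some i) := by
  have := (U_bounds hk n hw).1
  have := DD_sub_ge hk n hi
  simp only [SS]; linarith

/-- A legal origin at `w`: the vertex itself or one of the children. -/
def Leg (k : List ℕ → ℕ) (w : List ℕ) (fr : Option ℕ) : Prop := ∀ i, fr = some i → i < k w

omit hk in
theorem leg_none (w : List ℕ) : Leg k w none := by intro i h; cases h

omit hk in
theorem leg_some {w : List ℕ} {i : ℕ} (hi : i < k w) : Leg k w (some i) := by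
  intro j h; cases h; exact hi

theorem SS_ge {w : List ℕ} (hw : Val k w) {fr : Option ℕ} (hf : Leg k w fr) :
    1 / 2 ≤ SS k n w fr := by
  cases fr with
  | none => linarith [SS_none_ge hk n hw]
  | some i => exact SS_some_ge hk n hw (hf i rfl)

theorem SS_pos {w : List ℕ} (hw : Val k w) {fr : Option ℕ} (hf : Leg k w fr) :
    0 < SS k n w fr := by linarith [SS_ge hk n hw hf]

theorem up_nonneg {w : List ℕ} (hw : Val k w) {fr : Option ℕ} (hf : Leg k w fr) :
    0 ≤ up k n w fr :=
  div_nonneg (U_bounds hk n hw).1 (SS_pos hk n hw hf).le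

theorem wt_nonneg {w : List ℕ} (hw : Val k w) {fr : Option ℕ} (hf : Leg k w fr) (j : ℕ) :
    0 ≤ wt k n w fr j := by
  unfold wt
  split_ifs
  · exact le_rfl
  · exact div_nonneg (cc_pos hk n w j).le (SS_pos hk n hw hf).le

theorem up_add_sum {w : List ℕ} (hw : Val k w) {fr : Option ℕ} (hf : Leg k w fr) :
    up k n w fr + ∑ j ∈ range (k w), wt k n w fr j = 1 := by
  have hS := SS_pos hk n hw hf
  cases fr with
  | none =>
    have h : ∑ j ∈ range (k w), wt k n w none j = DD k n w / SS k n w none := by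
      rw [DD, Finset.sum_div]
      exact Finset.sum_congr rfl fun j _ => by simp [wt]
    rw [h, up, ← add_div, div_eq_one_iff_eq hS.ne']; rfl
  | some i =>
    have hi := hf i rfl
    have h : ∑ j ∈ range (k w), wt k n w (some i) j
        = (DD k n w - cc k n w i) / SS k n w (some i) := by
      rw [DD_sub_eq hk n hi, Finset.sum_div, ← Finset.add_sum_erase _ _ (Finset.mem_range.2 hi)]
      have h0 : wt k n w (some i) i = 0 := by simp [wt]
      rw [h0, zero_add]
      refine Finset.sum_congr rfl fun j hj => ?_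
      have : ¬ (some i = some j) := by
        intro h; cases h; simp at hj
      simp [wt, this]
    rw [h, up, ← add_div, div_eq_one_iff_eq hS.ne']
    simp only [SS]; ring

theorem sum_wt {w : List ℕ} (hw : Val k w) {fr : Option ℕ} (hf : Leg k w fr) :
    ∑ j ∈ range (k w), wt k n w fr j = 1 - up k n w fr := by
  linarith [up_add_sum hk n hw hf]

theorem up_le {w : List ℕ} (hw : Val k w) {i : ℕ} (hi : i < k w) :
    up k n w (some i) ≤ 2 / 3 := by
  obtain ⟨h0, h1⟩ := U_bounds hk n hw
  have h2 := DD_sub_ge hk n hi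
  rw [up, div_le_iff₀ (SS_pos hk n hw (leg_some hi))]
  simp only [SS]; linarith

theorem up_ge {a : ℕ} {w : List ℕ} (hw : Val k (a :: w)) {i : ℕ} (hi : i < k (a :: w)) :
    1 / 13 ≤ up k n (a :: w) (some i) := by
  have h0 := U_ge hk n hw
  have h2 := DD_sub_le hk n hi
  rw [up, le_div_iff₀ (SS_pos hk n hw (leg_some hi))]
  simp only [SS]; linarith

theorem up_none_ge {a : ℕ} {w : List ℕ} (hw : Val k (a :: w)) :
    1 / 16 ≤ up k n (a :: w) none := by
  have h0 := U_ge hk n hw
  have h2 := DD_le hk n (a :: w)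
  rw [up, le_div_iff₀ (SS_pos hk n hw (leg_none _))]
  simp only [SS]; linarith

theorem wt_none_ge {w : List ℕ} (hw : Val k w) (j : ℕ) :
    1 / 12 ≤ wt k n w none j := by
  have h0 := (U_bounds hk n hw).2
  have h2 := DD_le hk n w
  have h3 := cc_ge hk n w j
  simp only [wt, reduceCtorEq, if_false]
  rw [le_div_iff₀ (SS_pos hk n hw (leg_none _))]
  simp only [SS]; linarith

theorem wt_some_ge {w : List ℕ} (hw : Val k w) {i j : ℕ} (hi : i < k w) (hij : i ≠ j) :
    1 / 10 ≤ wt k n w (some i) j := by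
  have h0 := (U_bounds hk n hw).2
  have h2 := DD_sub_le hk n hi
  have h3 := cc_ge hk n w j
  have : ¬ (some i = some j) := by intro h; cases h; exact hij rfl
  simp only [wt, this, if_false]
  rw [le_div_iff₀ (SS_pos hk n hw (leg_some hi))]
  simp only [SS]; linarith

end basic

/-- `C` at depth `d + 1` in terms of the downward conductance. -/
theorem cc_eq {k : List ℕ → ℕ} {n : ℕ} {w : List ℕ} {i : ℕ} (h : w.length + 1 < n) :
    cc k n w i = DD k n (i :: w) / (1 + DD k n (i :: w)) := by
  unfold cc DD cc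
  obtain ⟨d, hd⟩ : ∃ d, n - (w.length + 1) = d + 1 := ⟨n - (w.length + 1) - 1, by omega⟩
  rw [hd]
  have h2 : n - ((i :: w).length + 1) = d := by simp only [List.length_cons]; omega
  rw [h2]
  rfl

theorem cc_last {k : List ℕ → ℕ} {n : ℕ} {w : List ℕ} {i : ℕ} (h : n ≤ w.length + 1) :
    cc k n w i = 1 := by
  unfold cc
  rw [Nat.sub_eq_zero_of_le h]
  rfl

/-- The harmonic weight. -/
noncomputable def psi (k : List ℕ → ℕ) (n : ℕ) (w : List ℕ) : ℝ :=
  U k n w * DD k n w / (U k n w + DD k n w)

section psi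

variable {k : List ℕ → ℕ} (hk : ∀ x, k x = 2 ∨ k x = 5) (n : ℕ)

include hk

theorem psi_child {w : List ℕ} (hw : Val k w) {i : ℕ} (hi : i < k w) (h : w.length + 1 < n) :
    up k n w (some i) * psi k n (i :: w) = U k n w * cc k n w i / (U k n w + DD k n w) := by
  have hS := SS_pos hk n hw (leg_some hi)
  have h0 := (U_bounds hk n hw).1
  have hD := DD_ge hk n (i :: w)
  have hD' := DD_ge hk n w
  have hc := cc_eq (k := k) (i := i) h
  have hS2 : SS k n w (some i) = U k n w + DD k n w - cc k n w i := rfl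
  have hU : U k n (i :: w) = SS k n w (some i) / (1 + SS k n w (some i)) := rfl
  have hP : U k n w + DD k n w = SS k n w (some i) + cc k n w i := by rw [hS2]; ring
  rw [hP, psi, up, hU, hc]
  generalize SS k n w (some i) = S at *
  generalize DD k n (i :: w) = D at *
  have h1 : S / (1 + S) + D ≠ 0 := by positivity
  have h2 : S + D / (1 + D) ≠ 0 := by positivity
  have h3 : 1 + D ≠ 0 := by positivity
  have h4 : 1 + S ≠ 0 := by positivity
  have h5 : S + D * (1 + S) ≠ 0 := by positivity
  have h6 : S * (1 + D) + D ≠ 0 := by positivity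
  field_simp
  ring

theorem psi_sum {w : List ℕ} (hw : Val k w) (h : w.length + 1 < n) :
    ∑ i ∈ range (k w), up k n w (some i) * psi k n (i :: w) = psi k n w := by
  rw [Finset.sum_congr rfl fun i hi => psi_child hk n hw (Finset.mem_range.1 hi) h,
    ← Finset.sum_div, ← Finset.mul_sum]
  rfl

theorem psi_bounds {a : ℕ} {w : List ℕ} (hw : Val k (a :: w)) :
    1 / 4 ≤ psi k n (a :: w) ∧ psi k n (a :: w) ≤ 5 / 6 := by
  have h1 := U_ge hk n hw
  have h2 := (U_bounds hk n hw).2
  have h3 := DD_ge hk n (a :: w)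
  have h4 := DD_le hk n (a :: w)
  unfold psi
  generalize U k n (a :: w) = u at *
  generalize DD k n (a :: w) = D at *
  constructor
  · rw [le_div_iff₀ (by linarith)]; nlinarith
  · rw [div_le_iff₀ (by linarith)]; nlinarith

theorem psi_le_up {a : ℕ} {w : List ℕ} (hw : Val k (a :: w)) :
    psi k n (a :: w) ≤ 5 * up k n (a :: w) none := by
  have h1 := U_ge hk n hw
  have h3 := DD_ge hk n (a :: w)
  have h4 := DD_le hk n (a :: w)
  unfold psi up
  simp only [SS]
  rw [← mul_div_assoc, div_le_div_iff_of_pos_right (by linarith)]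
  nlinarith

end psi

end Pool.Agent.W847.Frog
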