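import Pool.Agent.W847.Frog.Ex

/-!
# Validity of the exploration and what its result means
-/

set_option autoImplicit false

open Finset

namespace Pool.Agent.W847.Frog

section post

variable {k : List ℕ → ℕ} (hk : ∀ x, k x = 2 ∨ k x = 5) {n : ℕ} {F : Finset (List ℕ)}

theorem Post_filt {i : ℕ} {z : List ℕ} {c : ℕ} (l : LL) :
    ∀ {B : List ℕ → Info}, l.Nodup → (∀ y ∈ l, y ∈ F ∧ B y = .loc (i :: z) (some c)) →
      (filt i z c l).Post k n F B (fun r B' => r.Sublist l ∧ (∀ y ∈ r, B' y = .loc z (some i)) ∧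
        ∀ y, y ∉ l → B' y = B y) := by
  induction l with
  | nil =>
    intro B _ _
    exact ⟨List.Sublist.refl _, by simp, fun _ _ => rfl⟩
  | cons x l ih =>
    intro B hl hB
    obtain ⟨hx, hl⟩ := List.nodup_cons.1 hl
    obtain ⟨hxF, hxB⟩ := hB x (by simp)
    have hupd : ∀ s : Info, ∀ y ∈ l, y ∈ F ∧ Function.update B x s y = .loc (i :: z) (some c) := by
      intro s y hy
      have : y ≠ x := by rintro rfl; exact hx hy
      rw [Function.update_of_ne this]
      exact hB y (by simp [hy])
    refine ⟨hxF, hxB, ?_, ?_⟩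
    · apply Prog.Post_bind
      refine Prog.Post_mono _ (ih hl (hupd _)) ?_
      rintro r B' ⟨h1, h2, h3⟩
      refine ⟨h1.cons_cons _, ?_, ?_⟩
      · intro y hy
        rcases List.mem_cons.1 hy with rfl | hy
        · rw [h3 _ hx, Function.update_self]
        · exact h2 y hy
      · intro y hy
        have hy1 : y ≠ x := by rintro rfl; simp at hy
        have hy2 : y ∉ l := by intro h; exact hy (by simp [h])
        rw [h3 _ hy2, Function.update_of_ne hy1]
    · intro j p _ _ _ _
      refine Prog.Post_mono _ (ih hl (hupd _)) ?_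
      rintro r B' ⟨h1, h2, h3⟩
      refine ⟨h1.cons _, h2, ?_⟩
      intro y hy
      have hy1 : y ≠ x := by rintro rfl; simp at hy
      have hy2 : y ∉ l := by intro h; exact hy (by simp [h])
      rw [h3 _ hy2, Function.update_of_ne hy1]

/-- The frogs which can be asked while treating the list `l`. -/
def Dom (i : ℕ) (z : List ℕ) (l : LL) (A : Finset ℕ) (x : List ℕ) : Prop :=
  x ∈ l ∨ ∃ j, j ∉ A ∧ (j :: i :: z) <:+ x

/-- Condition before treating the list `l`. -/
def PP (F : Finset (List ℕ)) (i : ℕ) (z : List ℕ) (c : ℕ) (l : LL) (A : Finset ℕ)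
    (B : List ℕ → Info) : Prop :=
  c ∈ A ∧ l.Nodup ∧ (∀ y ∈ l, y ∈ F ∧ (c :: i :: z) <:+ y ∧ B y = .loc (i :: z) (some c)) ∧
    ∀ j, j ∉ A → ∀ y ∈ F, (j :: i :: z) <:+ y → B y = .loc y none

/-- Condition after treating the list `l`. -/
def QQ (F : Finset (List ℕ)) (i : ℕ) (z : List ℕ) (l : LL) (A : Finset ℕ)
    (B : List ℕ → Info) (r : LL) (B' : List ℕ → Info) : Prop :=
  r.Nodup ∧ (∀ y ∈ r, Dom i z l A y ∧ y ∈ F ∧ B' y = .loc z (some i)) ∧
    ∀ y, ¬ Dom i z l A y → B' y = B y

theorem not_dom_of_mem {i : ℕ} {z : List ℕ} {c : ℕ} {l : LL} {A : Finset ℕ}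
    {x : List ℕ} (hc : c ∈ A) (hx : (c :: i :: z) <:+ x) (hxl : x ∉ l) : ¬ Dom i z l A x := by
  rintro (h | ⟨j, hj, h⟩)
  · exact hxl h
  · have := suffix_cons_inj hx h
    subst this
    exact hj hc

/-- Condition on the exploration of the branches. -/
def EPost (k : List ℕ → ℕ) (n : ℕ) (F : Finset (List ℕ)) (i : ℕ) (z : List ℕ) (p : List ℕ)
    (t : Prog LL) : Prop :=
  Val k (p.reverse ++ i :: z) → (i :: z).length + p.length = n → ∀ B : List ℕ → Info,
    (∀ x ∈ F, (i :: z) <:+ x → B x = .loc x none) →
    t.Post k n F B (fun r B' => r.Nodup ∧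
      (∀ x ∈ r, x ∈ F ∧ (i :: z) <:+ x ∧ B' x = .loc z (some i)) ∧
      ∀ x, ¬ ((i :: z) <:+ x) → B' x = B x)

theorem Post_hand {i : ℕ} {z : List ℕ} (hz : (i :: z).length < n)
    {exc : ℕ → List ℕ → Prog LL} {c : ℕ}
    (hexc : ∀ j q, EPost k n F j (i :: z) q (exc j q)) {x : List ℕ} {fr : Option ℕ}
    {A : Finset ℕ} {cont : Finset ℕ → Prog LL} {l : LL} {B : List ℕ → Info}
    (hxF : x ∈ F) (hxB : B x = .loc (i :: z) fr) (hxD : ¬ Dom i z l A x)
    (hpp : PP F i z c l A B)
    (hcont : ∀ A' B', A ⊆ A' → PP F i z c l A' B' →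
      (cont A').Post k n F B' (QQ F i z l A' B')) :
    (hand i z exc x fr A cont).Post k n F B (QQ F i z (x :: l) A B) := by
  obtain ⟨hcA, hlN, hlB, hfresh⟩ := hpp
  have hDx : ∀ A', A ⊆ A' → ¬ Dom i z l A' x := by
    intro A' hA' h
    apply hxD
    rcases h with h | ⟨j, hj, h⟩
    · exact Or.inl h
    · exact Or.inr ⟨j, fun hj' => hj (hA' hj'), h⟩
  have hxj : ∀ j, j ∉ A → ¬ ((j :: i :: z) <:+ x) := fun j hj h => hxD (Or.inr ⟨j, hj, h⟩)
  have hxl : x ∉ l := fun h => hxD (Or.inl h)
  have hPP : ∀ s : Info, PP F i z c l A (Function.update B x s) := by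
    intro s
    refine ⟨hcA, hlN, ?_, ?_⟩
    · intro y hy
      have : y ≠ x := by rintro rfl; exact hxl hy
      rw [Function.update_of_ne this]
      exact hlB y hy
    · intro j hj y hy hs
      have : y ≠ x := by rintro rfl; exact hxj j hj hs
      rw [Function.update_of_ne this]
      exact hfresh j hj y hy hs
  have hDsub : ∀ {A' y}, A ⊆ A' → Dom i z l A' y → Dom i z (x :: l) A y := by
    intro A' y hA' h
    rcases h with h | ⟨j, hj, h⟩
    · exact Or.inl (by simp [h])
    · exact Or.inr ⟨j, fun hj' => hj (hA' hj'), h⟩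
  refine ⟨hxF, hxB, ?_, ?_⟩
  · -- goes up
    apply Prog.Post_bind
    refine Prog.Post_mono _ (hcont A _ subset_rfl (hPP _)) ?_
    rintro r B' ⟨h1, h2, h3⟩
    refine ⟨List.nodup_cons.2 ⟨fun h => hxD (h2 x h).1, h1⟩, ?_, ?_⟩
    · intro y hy
      rcases List.mem_cons.1 hy with rfl | hy
      · refine ⟨Or.inl (by simp), hxF, ?_⟩
        rw [h3 _ hxD, Function.update_self]
      · obtain ⟨a, b, e⟩ := h2 y hy
        exact ⟨hDsub subset_rfl a, b, e⟩
    · intro y hy
      have h4 : ¬ Dom i z l A y := fun h => hy (hDsub subset_rfl h)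
      have h5 : y ≠ x := by rintro rfl; exact hy (Or.inl (by simp))
      rw [h3 _ h4, Function.update_of_ne h5]
  · intro j p hj hfr hp hv
    simp only
    split_ifs with hjA
    · refine Prog.Post_mono _ (hcont A _ subset_rfl (hPP _)) ?_
      rintro r B' ⟨h1, h2, h3⟩
      refine ⟨h1, fun y hy => ?_, ?_⟩
      · obtain ⟨a, b, e⟩ := h2 y hy
        exact ⟨hDsub subset_rfl a, b, e⟩
      · intro y hy
        have h4 : ¬ Dom i z l A y := fun h => hy (hDsub subset_rfl h)
        have h5 : y ≠ x := by rintro rfl; exact hy (Or.inl (by simp))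
        rw [h3 _ h4, Function.update_of_ne h5]
    · apply Prog.Post_bind
      have hlen : (j :: i :: z).length + p.length = n := by
        simp only [List.length_cons] at hz ⊢; omega
      refine Prog.Post_mono _ (hexc j p hv hlen _ ?_) ?_
      · intro y hy hs
        have : y ≠ x := by rintro rfl; exact hxj j hjA hs
        rw [Function.update_of_ne this]
        exact hfresh j hjA y hy hs
      rintro rB B3 ⟨hrN, hrB, hB3⟩
      apply Prog.Post_bind
      refine Prog.Post_mono _ (Post_filt rB hrN fun y hy => ⟨(hrB y hy).1, (hrB y hy).2.2⟩) ?_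
      rintro r1 B4 ⟨h41, h42, h43⟩
      apply Prog.Post_bind
      have hB4 : ∀ y, ¬ ((j :: i :: z) <:+ y) →
          B4 y = Function.update B x (.fin (p.reverse ++ j :: i :: z)) y := by
        intro y hy
        rw [h43 y (fun h => hy (hrB y h).2.1), hB3 y hy]
      have hsubA : A ⊆ insert j A := Finset.subset_insert _ _
      have hPP4 : PP F i z c l (insert j A) B4 := by
        refine ⟨hsubA hcA, hlN, ?_, ?_⟩
        · intro y hy
          have h0 := hlB y hy
          have h1 : ¬ ((j :: i :: z) <:+ y) := by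
            intro h
            have := suffix_cons_inj h h0.2.1
            subst this
            exact hjA hcA
          have h2 : y ≠ x := by rintro rfl; exact hxl hy
          rw [hB4 y h1, Function.update_of_ne h2]
          exact h0
        · intro j' hj' y hy hs
          have hjj : j' ≠ j := by rintro rfl; simp at hj'
          have hj'A : j' ∉ A := fun h => hj' (hsubA h)
          have h1 : ¬ ((j :: i :: z) <:+ y) := fun h => hjj (suffix_cons_inj hs h)
          have h2 : y ≠ x := by rintro rfl; exact hxj j' hj'A hs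
          rw [hB4 y h1, Function.update_of_ne h2]
          exact hfresh j' hj'A y hy hs
      refine Prog.Post_mono _ (hcont _ _ hsubA hPP4) ?_
      rintro r2 B5 ⟨h51, h52, h53⟩
      have hr1 : ∀ y ∈ r1, (j :: i :: z) <:+ y := fun y hy => (hrB y (h41.subset hy)).2.1
      have hnd : ∀ y, (j :: i :: z) <:+ y → ¬ Dom i z l (insert j A) y := by
        intro y hy h
        rcases h with h | ⟨j', hj', h⟩
        · have := suffix_cons_inj hy (hlB y h).2.1
          subst this
          exact hjA hcA
        · have := suffix_cons_inj hy h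
          subst this
          simp at hj'
      refine ⟨?_, ?_, ?_⟩
      · rw [List.nodup_append]
        refine ⟨h41.nodup hrN, h51, ?_⟩
        intro a ha b hb hab
        subst hab
        exact hnd a (hr1 a ha) (h52 a hb).1
      · intro y hy
        rcases List.mem_append.1 hy with hy | hy
        · refine ⟨Or.inr ⟨j, hjA, hr1 y hy⟩, (hrB y (h41.subset hy)).1, ?_⟩
          rw [h53 _ (hnd y (hr1 y hy)), h42 y hy]
        · obtain ⟨a, b, e⟩ := h52 y hy
          exact ⟨hDsub hsubA a, b, e⟩
      · intro y hy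
        have h4 : ¬ Dom i z l (insert j A) y := fun h => hy (hDsub hsubA h)
        have h5 : y ≠ x := by rintro rfl; exact hy (Or.inl (by simp))
        have h6 : ¬ ((j :: i :: z) <:+ y) := fun h => hy (Or.inr ⟨j, hjA, h⟩)
        rw [h53 _ h4, hB4 y h6, Function.update_of_ne h5]

theorem Post_loop {i : ℕ} {z : List ℕ} (hz : (i :: z).length < n)
    {exc : ℕ → List ℕ → Prog LL} {c : ℕ}
    (hexc : ∀ j q, EPost k n F j (i :: z) q (exc j q)) (l : LL) :
    ∀ {A : Finset ℕ} {B : List ℕ → Info}, PP F i z c l A B →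
      (loop i z exc c l A).Post k n F B (QQ F i z l A B) := by
  induction l with
  | nil =>
    intro A B _
    exact ⟨List.nodup_nil, by simp, fun _ _ => rfl⟩
  | cons x l ih =>
    intro A B hpp
    obtain ⟨hcA, hlN, hlB, hfresh⟩ := hpp
    obtain ⟨hxl, hlN⟩ := List.nodup_cons.1 hlN
    obtain ⟨hxF, hxc, hxB⟩ := hlB x (by simp)
    exact Post_hand hz hexc hxF hxB (not_dom_of_mem hcA hxc hxl)
      ⟨hcA, hlN, fun y hy => hlB y (by simp [hy]), hfresh⟩ fun A' B' _ h => ih h

end post

open Classical in
/-- The frogs of the tree below generation `n`. -/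
noncomputable def vfrogs (k : List ℕ → ℕ) (n : ℕ) : Finset (List ℕ) := (frogs n).filter (Val k)

theorem mem_vfrogs {k : List ℕ → ℕ} (hk : ∀ x, k x = 2 ∨ k x = 5) (n : ℕ) (x : List ℕ) :
    x ∈ vfrogs k n ↔ x.length < n ∧ Val k x := by
  simp only [vfrogs, Finset.mem_filter, mem_frogs]
  constructor
  · rintro ⟨⟨h1, _⟩, h2⟩; exact ⟨h1, h2⟩
  · rintro ⟨h1, h2⟩; exact ⟨⟨h1, h2.lt_five hk⟩, h2⟩

theorem Post_Ex {k : List ℕ → ℕ} (hk : ∀ x, k x = 2 ∨ k x = 5) {n : ℕ} (d : ℕ) :
    ∀ (i : ℕ) (z p : List ℕ), p.length = d → EPost k n (vfrogs k n) i z p (Ex d (i :: z) p) := by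
  induction d with
  | zero =>
    intro i z p _ _ _ B _
    exact ⟨List.nodup_nil, by simp, fun _ _ => rfl⟩
  | succ d ih =>
    intro i z p hp hv hlen B hB
    cases p with
    | nil => simp at hp
    | cons c p =>
      have hp' : p.length = d := by simpa using hp
      have hv' : Val k (p.reverse ++ c :: i :: z) := by simpa using hv
      have hlen' : (c :: i :: z).length + p.length = n := by
        simp only [List.length_cons] at hlen ⊢; omega
      have hw : Val k (i :: z) := hv.suffix (List.suffix_append _ _)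
      have hwn : (i :: z).length < n := by simp only [List.length_cons] at hlen' ⊢; omega
      have hwF : (i :: z) ∈ vfrogs k n := (mem_vfrogs hk n _).2 ⟨hwn, hw⟩
      simp only [Ex]
      apply Prog.Post_bind
      refine Prog.Post_mono _ (ih c (i :: z) p hp' hv' hlen' B ?_) ?_
      · intro x hx hs
        exact hB x hx ((List.suffix_cons c (i :: z)).trans hs)
      rintro A B1 ⟨hAN, hAB, hB1⟩
      have hnw : ∀ j : ℕ, ¬ ((j :: i :: z) <:+ (i :: z)) := by
        intro j h
        have := h.length_le
        simp at this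
      have hexc : ∀ j q, EPost k n (vfrogs k n) j (i :: z) q (Ex d (j :: i :: z) q) := by
        intro j q hvq hlq
        refine ih j (i :: z) q ?_ hvq hlq
        simp only [List.length_cons] at hlq hlen'
        omega
      have hD : ¬ Dom i z A {c} (i :: z) := by
        rintro (h | ⟨j, _, h⟩)
        · exact hnw c (hAB _ h).2.1
        · exact hnw j h
      have hBw : B1 (i :: z) = .loc (i :: z) none := by
        rw [hB1 _ (hnw c)]
        exact hB _ hwF List.suffix_rfl
      have hpp : PP (vfrogs k n) i z c A {c} B1 := by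
        refine ⟨by simp, hAN, hAB, ?_⟩
        intro j hj y hy hs
        have hjc : j ≠ c := by simpa using hj
        rw [hB1 y fun h => hjc (suffix_cons_inj hs h)]
        exact hB y hy ((List.suffix_cons j (i :: z)).trans hs)
      refine Prog.Post_mono _ (Post_hand hwn hexc hwF hBw hD hpp fun A' B' _ h =>
        Post_loop hwn hexc A h) ?_
      rintro r B' ⟨h1, h2, h3⟩
      have hDs : ∀ y, Dom i z ((i :: z) :: A) {c} y → (i :: z) <:+ y := by
        rintro y (h | ⟨j, _, h⟩)
        · rcases List.mem_cons.1 h with rfl | h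
          · exact List.suffix_rfl
          · exact (List.suffix_cons c (i :: z)).trans (hAB y h).2.1
        · exact (List.suffix_cons j (i :: z)).trans h
      refine ⟨h1, ?_, ?_⟩
      · intro y hy
        obtain ⟨a, b, e⟩ := h2 y hy
        exact ⟨b, hDs y a, e⟩
      · intro y hy
        rw [h3 y fun h => hy (hDs y h)]
        exact hB1 y fun h => hy ((List.suffix_cons c (i :: z)).trans h)

section run

variable {n : ℕ} {F : Finset (List ℕ)} {Y : Set (List ℕ)}
  (hY : ∀ y ∈ Y, y.length = n ∧ ∀ v, v <:+ y → v.length < n → v ∈ F)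
  {η : List ℕ → List ℕ} (hη : ∀ x ∈ F, η x ∈ Y) {W : Set (List ℕ)}
  (hW : ∀ x ∈ W, x ∈ F → ∀ v, v <:+ η x → ¬ (v <:+ x) → v.length < n → v ∈ W)

/-- Meaning of the frogs in the result. -/
def RP (F : Finset (List ℕ)) (η : List ℕ → List ℕ) (W : Set (List ℕ)) (v : List ℕ)
    (x : List ℕ) : Prop :=
  x ∈ W ∧ x ∈ F ∧ v <:+ x ∧ ¬ (v <:+ η x)

theorem run_filt {i : ℕ} {z : List ℕ} {c : ℕ} (l : LL)
    (hl : ∀ x ∈ l, RP F η W (c :: i :: z) x) :
    ∀ x ∈ (filt i z c l).run η, RP F η W (i :: z) x := by
  induction l with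
  | nil => intro x hx; simp [filt, Prog.run] at hx
  | cons y l ih =>
    intro x hx
    have ih' := ih fun x hx => hl x (by simp [hx])
    simp only [filt, Prog.run] at hx
    by_cases h : (i :: z) <:+ η y
    · rw [ans, if_pos h] at hx
      exact ih' x hx
    · rw [ans, if_neg h] at hx
      simp only [Prog.run_bind, Prog.run] at hx
      rcases List.mem_cons.1 hx with rfl | hx
      · obtain ⟨h1, h2, h3, h4⟩ := hl x (by simp)
        exact ⟨h1, h2, (List.suffix_cons c (i :: z)).trans h3, h⟩
      · exact ih' x hx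

/-- Correctness of the exploration of a branch. -/
def ER (n : ℕ) (F : Finset (List ℕ)) (Y : Set (List ℕ)) (η : List ℕ → List ℕ)
    (W : Set (List ℕ)) (w p : List ℕ) (t : Prog LL) : Prop :=
  p.reverse ++ w ∈ Y →
    (∀ v, w <:+ v → v <:+ (p.reverse ++ w) → v.length < n → v ∈ W) →
    ∀ x ∈ t.run η, RP F η W w x

include hη hW in
theorem run_hand {i : ℕ} {z : List ℕ} {exc : ℕ → List ℕ → Prog LL}
    (hexc : ∀ j q, ER n F Y η W (j :: i :: z) q (exc j q)) {x : List ℕ} {fr : Option ℕ}
    {A : Finset ℕ} {cont : Finset ℕ → Prog LL}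
    (hxW : x ∈ W) (hxF : x ∈ F) (hxs : (i :: z) <:+ x)
    (hxA : ∀ j, j ∉ A → ¬ ((j :: i :: z) <:+ x))
    (hcont : ∀ A', A ⊆ A' → ∀ y ∈ (cont A').run η, RP F η W (i :: z) y) :
    ∀ y ∈ (hand i z exc x fr A cont).run η, RP F η W (i :: z) y := by
  intro y hy
  simp only [hand, Prog.run] at hy
  by_cases h : (i :: z) <:+ η x
  · obtain ⟨q, hq⟩ := h
    obtain ⟨p, rfl⟩ : ∃ p, q = p.reverse := ⟨q.reverse, by simp⟩
    rw [← hq, ans_append] at hy
    cases p with
    | nil => exact hcont A subset_rfl y hy
    | cons j p =>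
      simp only at hy
      split_ifs at hy with hj
      · exact hcont A subset_rfl y hy
      · simp only [Prog.run_bind, Prog.run] at hy
        have hq' : p.reverse ++ j :: i :: z = η x := by rw [← hq]; simp
        have hB := hexc j p (by rw [hq']; exact hη x hxF) (by
          intro v hv1 hv2 hv3
          rw [hq'] at hv2
          exact hW x hxW hxF v hv2 (fun h => hxA j hj (hv1.trans h)) hv3)
        rcases List.mem_append.1 hy with hy | hy
        · exact run_filt _ hB y hy
        · exact hcont _ (Finset.subset_insert _ _) y hy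
  · rw [ans, if_neg h] at hy
    simp only [Prog.run_bind, Prog.run] at hy
    rcases List.mem_cons.1 hy with rfl | hy
    · exact ⟨hxW, hxF, hxs, h⟩
    · exact hcont A subset_rfl y hy

include hη hW in
theorem run_loop {i : ℕ} {z : List ℕ} {exc : ℕ → List ℕ → Prog LL} {c : ℕ}
    (hexc : ∀ j q, ER n F Y η W (j :: i :: z) q (exc j q)) (l : LL) :
    ∀ {A : Finset ℕ}, c ∈ A → (∀ x ∈ l, RP F η W (c :: i :: z) x) →
      ∀ y ∈ (loop i z exc c l A).run η, RP F η W (i :: z) y := by
  induction l with
  | nil => intro A _ _ y hy; simp [loop, Prog.run] at hy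
  | cons x l ih =>
    intro A hcA hl
    obtain ⟨h1, h2, h3, h4⟩ := hl x (by simp)
    apply run_hand hη hW hexc h1 h2 ((List.suffix_cons c (i :: z)).trans h3)
    · intro j hj h
      have := suffix_cons_inj h h3
      subst this
      exact hj hcA
    · intro A' hA' y hy
      exact ih (hA' hcA) (fun x hx => hl x (by simp [hx])) y hy

include hY hη hW in
theorem run_Ex (d : ℕ) : ∀ (w p : List ℕ), ER n F Y η W w p (Ex d w p) := by
  induction d with
  | zero => intro w p _ _ x hx; simp [Ex, Prog.run] at hx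
  | succ d ih =>
    intro w p hp hent
    cases w with
    | nil =>
      cases p with
      | nil => intro x hx; simp [Ex, Prog.run] at hx
      | cons c p => intro x hx; simp [Ex, Prog.run] at hx
    | cons i z =>
      cases p with
      | nil => intro x hx; simp [Ex, Prog.run] at hx
      | cons c p =>
        have hp' : p.reverse ++ c :: i :: z ∈ Y := by simpa using hp
        have hmem := hY _ hp'
        have hwn : (i :: z).length < n := by
          have := hmem.1
          simp only [List.length_append, List.length_cons] at this ⊢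
          omega
        have hwF : (i :: z) ∈ F := hmem.2 _
          ((List.suffix_cons c (i :: z)).trans (List.suffix_append _ _)) hwn
        have hwW : (i :: z) ∈ W := hent _ List.suffix_rfl (List.suffix_append _ _) hwn
        have hA := ih (c :: i :: z) p hp' (by
          intro v hv1 hv2 hv3
          apply hent v ((List.suffix_cons c (i :: z)).trans hv1) _ hv3
          simpa using hv2)
        intro y hy
        simp only [Ex, Prog.run_bind] at hy
        refine run_hand hη hW (fun j q => ih (j :: i :: z) q) hwW hwF List.suffix_rfl ?_ ?_ y hy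
        · intro j _ h
          have := h.length_le
          simp at this
        · intro A' hA' y hy
          exact run_loop hη hW (fun j q => ih (j :: i :: z) q) _ (hA' (by simp)) hA y hy

end run

end Pool.Agent.W847.Frog
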