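import Pool.Agent.W847.Frog.Phase1
import Pool.Agent.W847.Frog.ExPost

/-!
# Consequences for environments with many good vertices
-/

set_option autoImplicit false

open Finset Real

namespace Pool.Agent.W847.Frog

/-- Every vertex of generation `j0 + D0` has a good ancestor of generation at least `j0`. -/
def GoodEnv (k : List ℕ → ℕ) (L j0 D0 : ℕ) : Prop :=
  ∀ v : List ℕ, Val k v → v.length = j0 + D0 → ∃ z, z <:+ v ∧ j0 ≤ z.length ∧ Bin k L z

theorem suffix_drop {w : List ℕ} {m : ℕ} (h : m ≤ w.length) :
    ∃ v, v <:+ w ∧ v.length = m :=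
  ⟨w.drop (w.length - m), List.drop_suffix _ _, by rw [List.length_drop]; omega⟩

section main

variable {k : List ℕ → ℕ} (hk : ∀ x, k x = 2 ∨ k x = 5) {n : ℕ}
  {K N : ℕ} (hK : 2 ≤ K) (hKe : ((1 : ℝ) / 2) ^ K ≤ eta1)
  (hN1 : ∀ r < N, (r : ℝ) * eps1 ≤ Lam0) (hN2 : Lam0 ≤ N * eps1)
  {j0 D0 : ℕ} (hj0 : 1 ≤ j0) (hn : j0 + D0 + K + (N + 2 * K) + 2 ≤ n)
  (hG : GoodEnv k (N + 2 * K) j0 D0)

include hk hK hKe hN1 hN2 hj0 hn hG

theorem env_settled (m : ℕ) : ∀ (w : List ℕ), Val k w → m ≤ D0 + K →
    w.length = j0 + D0 + K - m →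
    (∀ z, z <:+ w → j0 ≤ z.length → Bin k (N + 2 * K) z → ¬ (z.length + K < w.length)) →
    HH k n Lam0 w := by
  induction m with
  | zero =>
    intro w hw _ hl hz
    obtain ⟨v, hv1, hv2⟩ := suffix_drop (w := w) (m := j0 + D0) (by omega)
    obtain ⟨z, hz1, hz2, hz3⟩ := hG v (hw.suffix hv1) hv2
    have hzw := hz1.trans hv1
    have hzl := hz1.length_le
    have h1 := hz z hzw hz2 hz3
    obtain ⟨a, rfl⟩ := hzw
    have hal : a.length = K := by simp only [List.length_append] at h1 hl; omega
    cases a with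
    | nil => simp at hal; omega
    | cons i a =>
      apply HH.of_phase1 hk hw Lam0_pos.le
      intro s hs0 hs1
      have h2 := phase1_main (n := n) hk hK hKe hN1 (hw.suffix (List.suffix_append _ _)) hz3
        (by omega) N le_rfl (i :: a) (hz3.entries (i :: a) (by omega) hw) (by omega) s hs0 hs1
      refine h2.trans (exp_le_exp.2 ?_)
      have := mul_le_mul_of_nonneg_right hN2 (by linarith : 0 ≤ 1 - s)
      linarith
  | succ m ih =>
    intro w hw hm hl hz
    by_cases hex : ∃ z, z <:+ w ∧ j0 ≤ z.length ∧ Bin k (N + 2 * K) z ∧ z.length + K = w.length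
    · obtain ⟨z, hzw, hz2, hz3, hz4⟩ := hex
      obtain ⟨a, rfl⟩ := hzw
      have hal : a.length = K := by simp only [List.length_append] at hz4; omega
      cases a with
      | nil => simp at hal; omega
      | cons i a =>
        apply HH.of_phase1 hk hw Lam0_pos.le
        intro s hs0 hs1
        have h2 := phase1_main (n := n) hk hK hKe hN1 (hw.suffix (List.suffix_append _ _)) hz3
          (by simp only [List.length_append] at hl; omega) N le_rfl (i :: a)
          (hz3.entries (i :: a) (by omega) hw) (by omega) s hs0 hs1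
        refine h2.trans (exp_le_exp.2 ?_)
        have := mul_le_mul_of_nonneg_right hN2 (by linarith : 0 ≤ 1 - s)
        linarith
    · cases w with
      | nil => simp only [List.length_nil] at hl; omega
      | cons i w =>
        have hstep : HH k n (Lam0 + 1 / 10) (i :: w) := by
          apply HH.step hk hw (by omega) le_rfl
          intro j hj
          apply ih (j :: i :: w) ⟨hj, hw⟩ (by omega)
            (by simp only [List.length_cons] at hl ⊢; omega)
          intro z hzs hz2 hz3 hlt
          rw [List.suffix_cons_iff] at hzs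
          rcases hzs with rfl | hzs
          · omega
          · have h1 := hz z hzs hz2 hz3
            apply hex
            refine ⟨z, hzs, hz2, hz3, ?_⟩
            simp only [List.length_cons] at hlt h1 ⊢
            omega
        exact hstep.mono hk hw (by linarith)

theorem env_level (w : List ℕ) (hw : Val k w) (hl : w.length = j0) : HH k n Lam0 w := by
  apply env_settled hk hK hKe hN1 hN2 hj0 hn hG (D0 + K) w hw le_rfl (by omega)
  intro z hz hzl _ hlt
  omega

theorem env_up (m : ℕ) : ∀ w : List ℕ, Val k w → m < j0 → w.length = j0 - m →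
    HH k n (Lam0 + m * (1 / 10)) w := by
  induction m with
  | zero =>
    intro w hw _ hl
    simpa using env_level hk hK hKe hN1 hN2 hj0 hn hG w hw (by omega)
  | succ m ih =>
    intro w hw hm hl
    cases w with
    | nil => simp only [List.length_nil] at hl; omega
    | cons i w =>
      have h1 := HH.step hk (n := n) (lam := Lam0 + m * (1 / 10)) hw (by omega)
        (by have : (0 : ℝ) ≤ m := Nat.cast_nonneg m
            linarith)
        (fun j hj => ih (j :: i :: w) ⟨hj, hw⟩ (by omega)
          (by simp only [List.length_cons] at hl ⊢; omega))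
      refine h1.mono hk hw (le_of_eq ?_)
      push_cast; ring

theorem env_root {j : ℕ} (hj : j < k []) : HH k n (Lam0 + ((j0 - 1 : ℕ) : ℝ) * (1 / 10)) [j] :=
  env_up hk hK hKe hN1 hN2 hj0 hn hG (j0 - 1) [j] ⟨hj, trivial⟩ (by omega) (by simp; omega)

end main

/-- Indicator of many frogs. -/
noncomputable def ev (m : ℕ) : LL → ℝ := fun l => if m ≤ l.length then 1 else 0

theorem ev_ge {m : ℕ} {s : ℝ} (hs0 : 0 < s) (hs1 : s ≤ 1) (l : LL) :
    1 + (-(1 / s ^ m)) * gf s l ≤ ev m l := by
  unfold ev gf
  have h1 : 0 < s ^ m := pow_pos hs0 m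
  have h2 : 0 < s ^ l.length := pow_pos hs0 _
  split_ifs with h
  · have : 0 ≤ 1 / s ^ m * s ^ l.length := by positivity
    linarith
  · have h3 : s ^ m ≤ s ^ l.length := pow_le_pow_of_le_one hs0.le hs1 (by omega)
    have : 1 ≤ 1 / s ^ m * s ^ l.length := by
      rw [one_div, inv_mul_eq_div, one_le_div h1]; exact h3
    linarith

/-- Initial information. -/
noncomputable def B0 : List ℕ → Info := fun x => .loc x none

/-- Result of the exploration for given endpoints. -/
def mainRun (n : ℕ) (η : List ℕ → List ℕ) : LL :=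
  match ans [] (η []) with
  | some (j :: p) => (Ex (n - 1) [j] p).run η
  | _ => []

section prob

variable {k : List ℕ → ℕ} (hk : ∀ x, k x = 2 ∨ k x = 5) {n : ℕ}

include hk

theorem VI_B0 {x : List ℕ} (hx : x ∈ vfrogs k n) : VI k n (B0 x) := by
  obtain ⟨h1, h2⟩ := (mem_vfrogs hk n x).1 hx
  exact ⟨h2, h1, leg_none _⟩

theorem E_Ex_ge {m : ℕ} {s : ℝ} (hs0 : 0 < s) (hs1 : s ≤ 1) (hn : 1 < n) {j : ℕ} {p : List ℕ}
    (hp : p.length = n - 1) (hv : Val k (p.reverse ++ [j])) :
    1 + (-(1 / s ^ m)) * (Ex (n - 1) [j] p).E k n (gf s) ≤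
      (Ex (n - 1) [j] p).E k n (ev m) := by
  have h1 : (Ex (n - 1) [j] p).E k n (fun _ => (1 : ℝ)) = 1 := by
    have hpost := Post_Ex hk (n := n) (n - 1) j [] p hp hv (by simp; omega) B0
      (fun _ _ _ => rfl)
    have h2 := Prog.J_run hk (F := vfrogs k n) (fun _ => (1 : ℝ)) (Ex (n - 1) [j] p) (B := B0)
      (fun x hx => VI_B0 hk hx) (Prog.Post_mono _ hpost fun _ _ _ => trivial)
    rw [← h2, J_const hk (fun x hx => VI_B0 hk hx)]
  calc 1 + (-(1 / s ^ m)) * (Ex (n - 1) [j] p).E k n (gf s)
      = (Ex (n - 1) [j] p).E k n (fun l => 1 + (-(1 / s ^ m)) * gf s l) := by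
        rw [Prog.E_add, Prog.E_mul, h1]
    _ ≤ _ := Prog.E_mono hk n _ fun l => ev_ge hs0 hs1 l

theorem J_main (hn : 1 < n) (g : LL → ℝ) :
    J k n (vfrogs k n) B0 (fun η => g (mainRun n η)) =
      ∑ j ∈ range (k []), wt k n [] none j *
        down k (n - 1) [j] (fun p => (Ex (n - 1) [j] p).E k n g) := by
  have hroot : ([] : List ℕ) ∈ vfrogs k n :=
    (mem_vfrogs hk n _).2 ⟨by simp only [List.length_nil]; omega, trivial⟩
  rw [J_cond hk (fun x hx => VI_B0 hk hx) hroot]
  simp only [B0, law, nuF]
  refine Finset.sum_congr rfl fun j hj => ?_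
  congr 1
  unfold dl
  have hj' := Finset.mem_range.1 hj
  rw [show n - [j].length = n - 1 by simp]
  apply down_congr _ [j] ⟨hj', trivial⟩
  intro p hp hv
  have hupd : ∀ x ∈ vfrogs k n, VI k n (Function.update (fun x => Info.loc x none) []
      (.fin (p.reverse ++ [j])) x) := by
    intro x hx
    by_cases hx0 : x = []
    · subst hx0
      rw [Function.update_self]
      exact (mem_words n _).2 ⟨by simp [hp]; omega, hv.lt_five hk⟩
    · rw [Function.update_of_ne hx0]
      exact VI_B0 hk hx
  rw [← Prog.J_run hk (F := vfrogs k n) g (Ex (n - 1) [j] p) hupd]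
  · apply J_fin hroot
    intro η hη
    unfold mainRun
    rw [hη, ans_cons]
  · refine Prog.Post_mono _ (Post_Ex hk (n := n) (n - 1) j [] p hp hv (by simp; omega) _ ?_)
      fun _ _ _ => trivial
    intro x hx hs
    have hx0 : x ≠ [] := by
      rintro rfl
      have := hs.length_le
      simp at this
    rw [Function.update_of_ne hx0]

theorem J_main_ge (hn : 1 < n) {m : ℕ} {s R : ℝ} (hs0 : 0 < s) (hs1 : s ≤ 1)
    (hR : ∀ j < k [], ff k n [j] s ≤ R) :
    1 - 1 / s ^ m * R ≤ J k n (vfrogs k n) B0 (fun η => ev m (mainRun n η)) := by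
  rw [J_main hk hn]
  have h0 : Val k [] := trivial
  have hsum : ∑ j ∈ range (k []), wt k n [] none j = 1 := by
    rw [sum_wt hk n h0 (leg_none _)]
    simp [up, U]
  calc 1 - 1 / s ^ m * R = ∑ j ∈ range (k []), wt k n [] none j * (1 - 1 / s ^ m * R) := by
        rw [← Finset.sum_mul, hsum, one_mul]
    _ ≤ _ := by
        refine Finset.sum_le_sum fun j hj => ?_
        have hj' := Finset.mem_range.1 hj
        apply mul_le_mul_of_nonneg_left _ (wt_nonneg hk n h0 (leg_none _) j)
        have h1 : down k (n - 1) [j] (fun p =>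
            1 + (-(1 / s ^ m)) * (Ex (n - 1) [j] p).E k n (gf s)) ≤
            down k (n - 1) [j] (fun p => (Ex (n - 1) [j] p).E k n (ev m)) := by
          have hc : down k (n - 1) [j] (fun p =>
              max (1 + (-(1 / s ^ m)) * (Ex (n - 1) [j] p).E k n (gf s))
                ((Ex (n - 1) [j] p).E k n (ev m))) =
              down k (n - 1) [j] (fun p => (Ex (n - 1) [j] p).E k n (ev m)) := by
            apply down_congr _ [j] ⟨hj', trivial⟩
            intro p hp hv
            exact max_eq_right (E_Ex_ge hk hs0 hs1 hn hp hv)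
          rw [← hc]
          exact down_mono hk _ _ _ _ fun p => le_max_left _ _
        refine le_trans ?_ h1
        rw [down_add, down_mul, down_const hk]
        have h2 := hR j hj'
        unfold ff fgf at h2
        rw [show n - [j].length = n - 1 by simp] at h2
        have h3 : 0 < 1 / s ^ m := by positivity
        nlinarith

/-- In a good environment many frogs return with large probability. -/
theorem J_final (hn : 1 < n) {m : ℕ} {lam : ℝ}
    (hH : ∀ j < k [], HH k n lam [j]) (hl : 0 ≤ lam) :
    1 - 1 / (1 - 1 / 1690) ^ m * exp (-(lam / 6760)) ≤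
      J k n (vfrogs k n) B0 (fun η => ev m (mainRun n η)) := by
  apply J_main_ge hk hn (by norm_num) (by norm_num)
  intro j hj
  refine ((hH j hj).a (1 / 1690) (by norm_num) le_rfl).trans (exp_le_exp.2 ?_)
  have := psi_bounds hk n (a := j) (w := []) ⟨hj, trivial⟩
  have := mul_le_mul_of_nonneg_left this.1 hl
  linarith

end prob

end Pool.Agent.W847.Frog
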