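import Pool.Agent.W847.Frog.Prog

/-!
# The exploration of a subtree entered by a frog
-/

set_option autoImplicit false

open Finset

namespace Pool.Agent.W847.Frog

/-- Lists of frogs. -/
abbrev LL : Type := List (List ℕ)

/-- Frogs of the list, all coming from the branch `c` at `i :: z`, that go up. -/
def filt (i : ℕ) (z : List ℕ) (c : ℕ) : LL → Prog LL
  | [] => .ret []
  | x :: l => .ask x i z (some c) (fun o => match o with
      | none => (filt i z c l).bind (fun r => .ret (x :: r))
      | some _ => filt i z c l)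

/-- Treatment of one frog at `i :: z`. -/
def hand (i : ℕ) (z : List ℕ) (exc : ℕ → List ℕ → Prog LL) (x : List ℕ) (fr : Option ℕ)
    (A : Finset ℕ) (cont : Finset ℕ → Prog LL) : Prog LL :=
  .ask x i z fr (fun o => match o with
    | none => (cont A).bind (fun r => .ret (x :: r))
    | some [] => cont A
    | some (j :: p) => if j ∈ A then cont A else
        (exc j p).bind (fun B => (filt i z j B).bind (fun r1 =>
          (cont (insert j A)).bind (fun r2 => .ret (r1 ++ r2)))))

/-- Treatment of a list of frogs, all coming from the branch `c` at `i :: z`. -/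
def loop (i : ℕ) (z : List ℕ) (exc : ℕ → List ℕ → Prog LL) (c : ℕ) : LL → Finset ℕ → Prog LL
  | [], _ => .ret []
  | x :: l, A => hand i z exc x (some c) A (fun A' => loop i z exc c l A')

/-- Exploration of the subtree of `w` (with `d` generations) after it has been entered by a frog
ending at the end of the path `p` below `w`; the result is a list of woken frogs leaving the
subtree. -/
def Ex : ℕ → List ℕ → List ℕ → Prog LL
  | 0, _, _ => .ret []
  | _ + 1, _, [] => .ret []
  | _ + 1, [], _ :: _ => .ret []
  | d + 1, i :: z, c :: p => (Ex d (c :: i :: z) p).bind (fun A =>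
      hand i z (fun j q => Ex d (j :: i :: z) q) (i :: z) none {c}
        (fun A' => loop i z (fun j q => Ex d (j :: i :: z) q) c A A'))

/-- The generating function of the number of frogs. -/
def gf (s : ℝ) : LL → ℝ := fun l => s ^ l.length

/-- The recursion for a list of frogs coming from the same branch. -/
noncomputable def Lf (u : ℝ) (θ : ℕ → ℝ) (K : ℕ) (s : ℝ) (a : ℕ → ℝ) : ℕ → Finset ℕ → ℝ
  | 0, _ => 1
  | l + 1, A => u * s * Lf u θ K s a l A +
      ∑ j ∈ range K, θ j * (if j ∈ A then Lf u θ K s a l A else a j * Lf u θ K s a l (insert j A))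

/-- Generating function of the number of frogs leaving the subtree of `w`, averaged over the
entrance. -/
noncomputable def fgf (k : List ℕ → ℕ) (n : ℕ) (d : ℕ) (w : List ℕ) (s : ℝ) : ℝ :=
  down k d w (fun p => (Ex d w p).E k n (gf s))

section E

variable (k : List ℕ → ℕ) (n : ℕ)

theorem Prog.E_mul {β : Type} (t : Prog β) (c : ℝ) (g : β → ℝ) :
    t.E k n (fun r => c * g r) = c * t.E k n g := by
  induction t with
  | ret r => rfl
  | ask x i z fr next ih =>
    simp only [Prog.E, ih, down_mul]
    rw [mul_add, Finset.mul_sum]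
    congr 1
    · ring
    · exact Finset.sum_congr rfl fun j _ => by ring

theorem Prog.E_add {β : Type} (t : Prog β) (g1 g2 : β → ℝ) :
    t.E k n (fun r => g1 r + g2 r) = t.E k n g1 + t.E k n g2 := by
  induction t with
  | ret r => rfl
  | ask x i z fr next ih =>
    simp only [Prog.E, ih, down_add, mul_add, Finset.sum_add_distrib]
    ring

theorem gf_append (s : ℝ) (l1 l2 : LL) : gf s (l1 ++ l2) = gf s l1 * gf s l2 := by
  simp [gf, pow_add]

theorem gf_cons (s : ℝ) (x : List ℕ) (l : LL) : gf s (x :: l) = s * gf s l := by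
  simp [gf, pow_succ, mul_comm]

theorem E_cons (t : Prog LL) (x : List ℕ) (s : ℝ) :
    (t.bind (fun r => .ret (x :: r))).E k n (gf s) = s * t.E k n (gf s) := by
  rw [Prog.E_bind, ← Prog.E_mul]
  congr 1
  funext r
  simp only [Prog.E, gf_cons]

theorem E_app (t1 t2 : Prog LL) (s : ℝ) :
    (t1.bind (fun r1 => t2.bind (fun r2 => .ret (r1 ++ r2)))).E k n (gf s) =
      t1.E k n (gf s) * t2.E k n (gf s) := by
  rw [Prog.E_bind, mul_comm, ← Prog.E_mul]
  congr 1
  funext r
  rw [Prog.E_bind, mul_comm, ← Prog.E_mul]
  congr 1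
  funext r2
  simp only [Prog.E, gf_append]

end E

section E2

variable {k : List ℕ → ℕ} (hk : ∀ x, k x = 2 ∨ k x = 5) (n : ℕ)

include hk

theorem U_nonneg' (w : List ℕ) : 0 ≤ U k n w := by
  induction w with
  | nil => simp [U]
  | cons i w ih =>
    have h1 := DD_ge hk n w
    have h2 := cc_le hk n w i
    simp only [U]
    apply div_nonneg <;> linarith

theorem SS_nonneg' (w : List ℕ) (fr : Option ℕ) : 0 ≤ SS k n w fr := by
  have h1 := DD_ge hk n w
  have h3 := U_nonneg' hk n w
  cases fr with
  | none => simp only [SS]; linarith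
  | some i =>
    have h2 := cc_le hk n w i
    simp only [SS]; linarith

theorem up_nonneg' (w : List ℕ) (fr : Option ℕ) : 0 ≤ up k n w fr :=
  div_nonneg (U_nonneg' hk n w) (SS_nonneg' hk n w fr)

theorem wt_nonneg' (w : List ℕ) (fr : Option ℕ) (j : ℕ) : 0 ≤ wt k n w fr j := by
  unfold wt
  split_ifs
  · exact le_rfl
  · exact div_nonneg (cc_pos hk n w j).le (SS_nonneg' hk n w fr)

theorem Prog.E_mono {β : Type} (t : Prog β) {g1 g2 : β → ℝ} (h : ∀ r, g1 r ≤ g2 r) :
    t.E k n g1 ≤ t.E k n g2 := by
  induction t with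
  | ret r => exact h r
  | ask x i z fr next ih =>
    simp only [Prog.E]
    apply add_le_add
    · exact mul_le_mul_of_nonneg_left (ih _) (up_nonneg' hk n _ _)
    · refine Finset.sum_le_sum fun j _ => ?_
      apply mul_le_mul_of_nonneg_left _ (wt_nonneg' hk n _ _ _)
      exact down_mono hk _ _ _ _ fun p => ih _

theorem Prog.E_nonneg {β : Type} (t : Prog β) {g : β → ℝ} (h : ∀ r, 0 ≤ g r) :
    0 ≤ t.E k n g := by
  have := Prog.E_mono hk n t (g1 := fun r => 0 * g r) (g2 := g) (fun r => by simpa using h r)
  rwa [Prog.E_mul, zero_mul] at this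

theorem E_filt {i : ℕ} {z : List ℕ} (hw : Val k (i :: z)) {c : ℕ} (hc : c < k (i :: z)) (s : ℝ)
    (l : LL) : (filt i z c l).E k n (gf s) =
      (1 - up k n (i :: z) (some c) * (1 - s)) ^ l.length := by
  induction l with
  | nil => simp [filt, Prog.E, gf]
  | cons x l ih =>
    simp only [filt, Prog.E, E_cons, down_const hk, List.length_cons, pow_succ]
    rw [← Finset.sum_mul, sum_wt hk n hw (leg_some hc), ih]
    ring

theorem E_hand {i : ℕ} {z : List ℕ} (hw : Val k (i :: z)) (exc : ℕ → List ℕ → Prog LL)
    (x : List ℕ) (fr : Option ℕ) (A : Finset ℕ) (cont : Finset ℕ → Prog LL) (s : ℝ) :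
    (hand i z exc x fr A cont).E k n (gf s) =
      up k n (i :: z) fr * s * (cont A).E k n (gf s) +
      ∑ j ∈ range (k (i :: z)), wt k n (i :: z) fr j *
        (if j ∈ A then (cont A).E k n (gf s) else
          down k (n - (z.length + 2)) (j :: i :: z)
            (fun q => (exc j q).E k n (gf (1 - up k n (i :: z) (some j) * (1 - s)))) *
          (cont (insert j A)).E k n (gf s)) := by
  unfold hand
  simp only [Prog.E, E_cons]
  congr 1
  · ring
  · refine Finset.sum_congr rfl fun j hj => ?_
    congr 1
    split_ifs with hA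
    · exact down_const hk _ _ _
    · have h1 : ∀ q, ((exc j q).bind (fun B => (filt i z j B).bind (fun r1 =>
          (cont (insert j A)).bind (fun r2 => .ret (r1 ++ r2))))).E k n (gf s) =
          (cont (insert j A)).E k n (gf s) *
          (exc j q).E k n (gf (1 - up k n (i :: z) (some j) * (1 - s))) := by
        intro q
        rw [Prog.E_bind, ← Prog.E_mul]
        congr 1
        funext B
        rw [E_app, E_filt hk n hw (Finset.mem_range.1 hj)]
        simp only [gf]
        ring
      simp only [h1, down_mul]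
      ring

theorem E_loop {i : ℕ} {z : List ℕ} (hw : Val k (i :: z)) (exc : ℕ → List ℕ → Prog LL)
    (c : ℕ) (s : ℝ) (l : LL) : ∀ A : Finset ℕ,
    (loop i z exc c l A).E k n (gf s) =
      Lf (up k n (i :: z) (some c)) (wt k n (i :: z) (some c)) (k (i :: z)) s
        (fun j => down k (n - (z.length + 2)) (j :: i :: z)
            (fun q => (exc j q).E k n (gf (1 - up k n (i :: z) (some j) * (1 - s)))))
        l.length A := by
  induction l with
  | nil => intro A; simp [loop, Lf, Prog.E, gf]
  | cons x l ih =>
    intro A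
    simp only [loop, E_hand hk n hw, ih, List.length_cons, Lf]

end E2

/-- The contribution of the own frog of a vertex. -/
noncomputable def Mf (uo : ℝ) (o : ℕ → ℝ) (u : ℝ) (θ : ℕ → ℝ) (K : ℕ) (s : ℝ) (a : ℕ → ℝ)
    (c : ℕ) (l : ℕ) : ℝ :=
  uo * s * Lf u θ K s a l {c} +
    ∑ j ∈ range K, o j * (if j ∈ ({c} : Finset ℕ) then Lf u θ K s a l {c}
      else a j * Lf u θ K s a l (insert j {c}))

section rec

variable {k : List ℕ → ℕ} (hk : ∀ x, k x = 2 ∨ k x = 5) (n : ℕ)

include hk

/-- The recursion for the generating functions. -/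
theorem fgf_succ {d : ℕ} {i : ℕ} {z : List ℕ} (hw : Val k (i :: z)) (hd : z.length + d + 2 = n)
    (s : ℝ) :
    fgf k n (d + 1) (i :: z) s = ∑ c ∈ range (k (i :: z)),
      cc k n (i :: z) c / DD k n (i :: z) *
        down k d (c :: i :: z) (fun p => (Ex d (c :: i :: z) p).E k n (fun A =>
          Mf (up k n (i :: z) none) (wt k n (i :: z) none) (up k n (i :: z) (some c))
            (wt k n (i :: z) (some c)) (k (i :: z)) s
            (fun j => fgf k n d (j :: i :: z) (1 - up k n (i :: z) (some j) * (1 - s)))
            c A.length)) := by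
  have hd2 : n - (z.length + 2) = d := by omega
  have h1 : ∀ j, C k d (j :: i :: z) = cc k n (i :: z) j := by
    intro j; unfold cc
    rw [show n - ((i :: z).length + 1) = d by simp only [List.length_cons]; omega]
  unfold fgf
  simp only [down, h1]
  refine Finset.sum_congr rfl fun c _ => ?_
  congr 1
  congr 1
  funext p
  simp only [Ex]
  rw [Prog.E_bind]
  congr 1
  funext A
  rw [E_hand hk n hw]
  simp only [E_loop hk n hw, hd2, Mf]

end rec

end Pool.Agent.W847.Frog
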