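import Pool.Agent.W847.Frog.Cond

/-!
# Hitting functionals and harmonicity
-/

set_option autoImplicit false

open Finset

namespace Pool.Agent.W847.Frog

/-- Average over the paths (listed from top to bottom) of length `d` below `w`. -/
noncomputable def down (k : List ℕ → ℕ) : ℕ → List ℕ → (List ℕ → ℝ) → ℝ
  | 0, _, h => h []
  | d + 1, w, h => ∑ j ∈ range (k w), C k d (j :: w) / (∑ i ∈ range (k w), C k d (i :: w)) *
      down k d (j :: w) (fun p => h (j :: p))

/-- Average over the endpoints at generation `n` below `w`. -/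
noncomputable def dl (k : List ℕ → ℕ) (n : ℕ) (w : List ℕ) (h : List ℕ → ℝ) : ℝ :=
  down k (n - w.length) w (fun p => h (p.reverse ++ w))

/-- Law of the endpoint at generation `n` of a walk at `z` known not to end below the branch `fr`. -/
noncomputable def nuF (k : List ℕ → ℕ) (n : ℕ) : List ℕ → Option ℕ → (List ℕ → ℝ) → ℝ
  | [], fr, h => ∑ j ∈ range (k []), wt k n [] fr j * dl k n [j] h
  | i :: z, fr, h => up k n (i :: z) fr * nuF k n z (some i) h +
      ∑ j ∈ range (k (i :: z)), wt k n (i :: z) fr j * dl k n (j :: i :: z) h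

section lin

variable (k : List ℕ → ℕ) (n : ℕ)

theorem down_add (d : ℕ) : ∀ (w : List ℕ) (h1 h2 : List ℕ → ℝ),
    down k d w (fun p => h1 p + h2 p) = down k d w h1 + down k d w h2 := by
  induction d with
  | zero => intro w h1 h2; simp [down]
  | succ d ih =>
    intro w h1 h2
    simp only [down]
    rw [← Finset.sum_add_distrib]
    exact Finset.sum_congr rfl fun j _ => by rw [ih]; ring

theorem down_mul (d : ℕ) : ∀ (w : List ℕ) (c : ℝ) (h : List ℕ → ℝ),
    down k d w (fun p => c * h p) = c * down k d w h := by
  induction d with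
  | zero => intro w c h; simp [down]
  | succ d ih =>
    intro w c h
    simp only [down]
    rw [Finset.mul_sum]
    exact Finset.sum_congr rfl fun j _ => by rw [ih]; ring

theorem down_sum {ι : Type} (s : Finset ι) (d : ℕ) (w : List ℕ) (h : ι → List ℕ → ℝ) :
    down k d w (fun p => ∑ i ∈ s, h i p) = ∑ i ∈ s, down k d w (h i) := by
  classical
  induction s using Finset.induction_on with
  | empty =>
    simp only [Finset.sum_empty]
    have := down_mul k d w 0 (fun _ => 0)
    simpa using this
  | insert a s ha ih =>
    rw [Finset.sum_insert ha, ← ih, ← down_add]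
    congr 1
    funext p
    rw [Finset.sum_insert ha]

end lin

section pos

variable {k : List ℕ → ℕ} (hk : ∀ x, k x = 2 ∨ k x = 5) (n : ℕ)

include hk

theorem sumC_pos (d : ℕ) (w : List ℕ) : 0 < ∑ i ∈ range (k w), C k d (i :: w) := by
  apply Finset.sum_pos
  · intro i _; linarith [(C_bounds hk d (i :: w)).1]
  · rw [Finset.nonempty_range_iff]; have := k_ge hk w; omega

theorem down_const (d : ℕ) : ∀ (w : List ℕ) (c : ℝ), down k d w (fun _ => c) = c := by
  induction d with
  | zero => intro w c; simp [down]
  | succ d ih =>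
    intro w c
    simp only [down]
    simp only [ih]
    rw [← Finset.sum_mul, ← Finset.sum_div, div_self (sumC_pos hk d w).ne', one_mul]

theorem down_mono (d : ℕ) : ∀ (w : List ℕ) (h1 h2 : List ℕ → ℝ), (∀ p, h1 p ≤ h2 p) →
    down k d w h1 ≤ down k d w h2 := by
  induction d with
  | zero => intro w h1 h2 h; simpa [down] using h []
  | succ d ih =>
    intro w h1 h2 h
    simp only [down]
    refine Finset.sum_le_sum fun j _ => ?_
    apply mul_le_mul_of_nonneg_left (ih _ _ _ fun p => h _)
    exact div_nonneg (by linarith [(C_bounds hk d (j :: w)).1]) (sumC_pos hk d w).le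

theorem down_nonneg (d : ℕ) (w : List ℕ) (h : List ℕ → ℝ) (hh : ∀ p, 0 ≤ h p) :
    0 ≤ down k d w h := by
  have := down_mono hk d w (fun _ => 0) h hh
  rwa [down_const hk] at this

omit hk in
/-- Only valid paths of the right length count. -/
theorem down_congr (d : ℕ) : ∀ (w : List ℕ) (_ : Val k w) (h1 h2 : List ℕ → ℝ),
    (∀ p : List ℕ, p.length = d → Val k (p.reverse ++ w) → h1 p = h2 p) →
    down k d w h1 = down k d w h2 := by
  induction d with
  | zero => intro w hw h1 h2 h; simpa [down] using h [] rfl (by simpa using hw)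
  | succ d ih =>
    intro w hw h1 h2 h
    simp only [down]
    refine Finset.sum_congr rfl fun j hj => ?_
    rw [ih (j :: w) ⟨Finset.mem_range.1 hj, hw⟩ _ (fun p => h2 (j :: p))]
    intro p hp hv
    apply h
    · simp [hp]
    · simpa using hv

theorem dl_const (w : List ℕ) (c : ℝ) : dl k n w (fun _ => c) = c := down_const hk _ _ _

/-- One step of `dl`. -/
theorem dl_step {w : List ℕ} (h : List ℕ → ℝ) (hw : w.length < n) :
    DD k n w * dl k n w h = ∑ j ∈ range (k w), cc k n w j * dl k n (j :: w) h := by
  obtain ⟨d, hd⟩ : ∃ d, n - w.length = d + 1 := ⟨n - w.length - 1, by omega⟩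
  unfold dl
  rw [hd]
  simp only [down]
  have h1 : ∀ j, C k d (j :: w) = cc k n w j := by
    intro j; unfold cc; rw [show n - (w.length + 1) = d by omega]
  have h2 : ∀ j, n - (j :: w).length = d := by
    intro j; simp only [List.length_cons]; omega
  simp only [h1, h2]
  rw [show (∑ i ∈ range (k w), cc k n w i) = DD k n w from rfl, Finset.mul_sum]
  have hD := DD_ge hk n w
  refine Finset.sum_congr rfl fun j _ => ?_
  have h3 : (fun p : List ℕ => h ((j :: p).reverse ++ w)) = fun p => h (p.reverse ++ j :: w) := by
    funext p; simp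
  rw [h3]
  field_simp

theorem nuF_const {z : List ℕ} (hz : Val k z) {fr : Option ℕ} (hf : Leg k z fr) (c : ℝ) :
    nuF k n z fr (fun _ => c) = c := by
  induction z generalizing fr with
  | nil =>
    simp only [nuF, dl_const hk]
    rw [← Finset.sum_mul, sum_wt hk n hz hf]
    simp [up, U]
  | cons i z ih =>
    simp only [nuF, dl_const hk]
    rw [ih hz.2 (leg_some hz.1), ← Finset.sum_mul, sum_wt hk n hz hf]
    ring

/-- The harmonic extension. -/
noncomputable def hh (k : List ℕ → ℕ) (n : ℕ) (h : List ℕ → ℝ) (x : List ℕ) : ℝ :=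
  if n ≤ x.length then h x else nuF k n x none h

/-- `nuF` times the total conductance. -/
noncomputable def NN (k : List ℕ → ℕ) (n : ℕ) (h : List ℕ → ℝ) : List ℕ → ℝ
  | [] => 0
  | i :: z => U k n (i :: z) * nuF k n z (some i) h

omit hk in
theorem NN_cons (h : List ℕ → ℝ) (i : ℕ) (z : List ℕ) :
    NN k n h (i :: z) = U k n (i :: z) * nuF k n z (some i) h := rfl

theorem nuF_none (h : List ℕ → ℝ) {x : List ℕ} (hx : Val k x) (hn : x.length < n) :
    nuF k n x none h = (NN k n h x + DD k n x * dl k n x h) / (U k n x + DD k n x) := by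
  have hS : SS k n x none = U k n x + DD k n x := rfl
  have hSp := SS_pos hk n hx (leg_none x)
  rw [← hS, eq_div_iff hSp.ne', dl_step hk n h hn]
  cases x with
  | nil =>
    simp only [nuF, NN, zero_add]
    rw [Finset.sum_mul]
    refine Finset.sum_congr rfl fun j _ => ?_
    simp only [wt, reduceCtorEq, if_false]
    field_simp
  | cons i z =>
    simp only [nuF, NN]
    rw [add_mul, Finset.sum_mul]
    congr 1
    · rw [up]; field_simp
    · refine Finset.sum_congr rfl fun j _ => ?_
      simp only [wt, reduceCtorEq, if_false]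
      field_simp

theorem nuF_some (h : List ℕ → ℝ) {x : List ℕ} (hx : Val k x) (hn : x.length < n) {i : ℕ}
    (hi : i < k x) :
    nuF k n x (some i) h =
      (NN k n h x + DD k n x * dl k n x h - cc k n x i * dl k n (i :: x) h) /
        (U k n x + DD k n x - cc k n x i) := by
  have hS : SS k n x (some i) = U k n x + DD k n x - cc k n x i := rfl
  have hSp := SS_pos hk n hx (leg_some hi)
  have hsum : (∑ j ∈ range (k x), wt k n x (some i) j * dl k n (j :: x) h) * SS k n x (some i)
      = DD k n x * dl k n x h - cc k n x i * dl k n (i :: x) h := by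
    rw [dl_step hk n h hn, ← Finset.add_sum_erase _ _ (Finset.mem_range.2 hi),
      ← Finset.add_sum_erase (range (k x)) (fun j => cc k n x j * dl k n (j :: x) h)
        (Finset.mem_range.2 hi)]
    have h0 : wt k n x (some i) i = 0 := by simp [wt]
    rw [h0, zero_mul, zero_add, add_sub_cancel_left, Finset.sum_mul]
    refine Finset.sum_congr rfl fun j hj => ?_
    have : ¬ (some i = some j) := by
      intro h; cases h; simp at hj
    simp only [wt, this, if_false]
    field_simp
  rw [← hS, eq_div_iff hSp.ne', add_sub_assoc, ← hsum]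
  cases x with
  | nil =>
    simp only [nuF, NN, zero_add]
  | cons a z =>
    simp only [nuF, NN]
    rw [add_mul]
    congr 1
    rw [up]; field_simp

/-- The value at a child in terms of the value at its parent. -/
theorem hh_child (h : List ℕ → ℝ) {x : List ℕ} (hx : Val k x) (hn : x.length < n) {j : ℕ}
    (hj : j < k x) :
    hh k n h (j :: x) = (1 - cc k n x j) * hh k n h x + cc k n x j * dl k n (j :: x) h := by
  have hx1 : ¬ (n ≤ x.length) := by omega
  by_cases hn2 : n ≤ x.length + 1
  · rw [cc_last hn2]
    have : n ≤ (j :: x).length := by simpa using hn2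
    unfold hh
    rw [if_pos this]
    simp only [sub_self, zero_mul, zero_add, one_mul]
    unfold dl
    rw [show n - (j :: x).length = 0 by simp only [List.length_cons]; omega]
    simp [down]
  · have hjx : ¬ (n ≤ (j :: x).length) := by simp only [List.length_cons]; omega
    have hv : Val k (j :: x) := ⟨hj, hx⟩
    unfold hh
    rw [if_neg hx1, if_neg hjx, nuF_none hk n h hv (by simp only [List.length_cons]; omega),
      nuF_none hk n h hx hn, NN_cons]
    rw [nuF_some hk n h hx hn hj]
    have hc : cc k n x j = DD k n (j :: x) / (1 + DD k n (j :: x)) := cc_eq (by omega)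
    have hU : U k n (j :: x) = (U k n x + DD k n x - cc k n x j) /
        (1 + (U k n x + DD k n x - cc k n x j)) := rfl
    have hS : 1 / 2 ≤ U k n x + DD k n x - cc k n x j := SS_some_ge hk n hx hj
    have hD := DD_ge hk n (j :: x)
    have hcp := cc_pos hk n x j
    rw [hU]
    obtain ⟨S, hSd⟩ : ∃ S, S = U k n x + DD k n x - cc k n x j := ⟨_, rfl⟩
    rw [show U k n x + DD k n x = S + cc k n x j by rw [hSd]; ring]
    rw [show S + cc k n x j - cc k n x j = S by ring]
    rw [hSd.symm] at hS
    generalize cc k n x j = c at *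
    subst hc
    generalize DD k n (j :: x) = D at *
    generalize NN k n h x + DD k n x * dl k n x h = Q at *
    generalize dl k n (j :: x) h = e at *
    have h1 : S / (1 + S) + D ≠ 0 := by positivity
    have h2 : S + D / (1 + D) ≠ 0 := by positivity
    have h3 : 1 + D ≠ 0 := by positivity
    have h4 : 1 + S ≠ 0 := by positivity
    have h5 : S + D * (1 + S) ≠ 0 := by positivity
    have h6 : S * (1 + D) + D ≠ 0 := by positivity
    have h7 : S ≠ 0 := by positivity
    field_simp
    ring

theorem hh_nil (h : List ℕ → ℝ) (hn : 0 < n) :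
    ∑ j ∈ range (k []), hh k n h [j] = k [] * hh k n h [] := by
  have hv : Val k [] := trivial
  rw [Finset.sum_congr rfl fun j hj => hh_child hk n h hv hn (Finset.mem_range.1 hj),
    Finset.sum_add_distrib, ← dl_step hk n h (by simpa using hn), ← Finset.sum_mul,
    Finset.sum_sub_distrib]
  have hx1 : ¬ (n ≤ ([] : List ℕ).length) := by simp only [List.length_nil]; omega
  have h1 : hh k n h [] = dl k n [] h := by
    unfold hh
    rw [if_neg hx1, nuF_none hk n h hv hn]
    simp only [NN, U, zero_add]
    have hD := DD_ge hk n ([] : List ℕ)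
    field_simp
  have h2 : ∑ j ∈ range (k []), cc k n [] j = DD k n [] := rfl
  rw [h1, h2]
  simp only [Finset.sum_const, Finset.card_range, nsmul_eq_mul]
  ring

theorem hh_cons (h : List ℕ → ℝ) {i : ℕ} {x : List ℕ} (hx : Val k (i :: x))
    (hn : (i :: x).length < n) :
    ∑ j ∈ range (k (i :: x)), hh k n h (j :: i :: x) + hh k n h x =
      (k (i :: x) + 1) * hh k n h (i :: x) := by
  rw [Finset.sum_congr rfl fun j hj => hh_child hk n h hx hn (Finset.mem_range.1 hj),
    Finset.sum_add_distrib, ← dl_step hk n h hn, ← Finset.sum_mul,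
    Finset.sum_sub_distrib]
  have h2 : ∑ j ∈ range (k (i :: x)), cc k n (i :: x) j = DD k n (i :: x) := rfl
  rw [h2]
  simp only [Finset.sum_const, Finset.card_range, nsmul_eq_mul]
  have h3 := hh_child hk n h hx.2 (by simp only [List.length_cons] at hn; omega) hx.1
  rw [cc_eq (by simpa using hn)] at h3
  have hD := DD_ge hk n (i :: x)
  generalize DD k n (i :: x) = D at *
  generalize hh k n h (i :: x) = a at *
  generalize dl k n (i :: x) h = b at *
  generalize hh k n h x = c at *
  have h4 : 1 + D ≠ 0 := by positivity
  rw [h3]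
  field_simp
  ring

end pos

end Pool.Agent.W847.Frog
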