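import Mathlib

/-!
# Independence of groups of variables
-/

set_option autoImplicit false

open MeasureTheory ProbabilityTheory

namespace Pool.Agent.W847.Frog

/-- The sigma algebra generated by the variables with index in `S`. -/
def sg {Ω ι : Type} (V : ι → Ω → ℝ) (S : Set ι) : MeasurableSpace Ω :=
  ⨆ i ∈ S, MeasurableSpace.comap (V i) inferInstance

section

variable {Ω ι : Type} [mΩ : MeasurableSpace Ω] {P : Measure Ω} [IsProbabilityMeasure P]
  {V : ι → Ω → ℝ}

theorem sg_mono {S T : Set ι} (h : S ⊆ T) : sg V S ≤ sg V T :=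
  biSup_mono fun _ hi => h hi

theorem sg_meas {S : Set ι} {i : ι} (hi : i ∈ S) {A : Set ℝ} (hA : MeasurableSet A) :
    MeasurableSet[sg V S] (V i ⁻¹' A) := by
  have h : MeasurableSpace.comap (V i) inferInstance ≤ sg V S :=
    le_biSup (f := fun i => MeasurableSpace.comap (V i) inferInstance) hi
  exact h _ ⟨A, hA, rfl⟩

theorem sg_le (hm : ∀ i, Measurable (V i)) (S : Set ι) : sg V S ≤ mΩ :=
  iSup₂_le fun i _ => (hm i).comap_le

theorem sg_indep (hI : iIndepFun V P) (hm : ∀ i, Measurable (V i)) {S T : Set ι}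
    (hST : Disjoint S T) {A B : Set Ω} (hA : MeasurableSet[sg V S] A)
    (hB : MeasurableSet[sg V T] B) : P (A ∩ B) = P A * P B := by
  have h := indep_iSup_of_disjoint (fun i => (hm i).comap_le) hI.iIndep hST
  exact (Indep_iff _ _ _).1 h A B hA hB

theorem sg_prod (hI : iIndepFun V P) (hm : ∀ i, Measurable (V i)) {α : Type} [DecidableEq α]
    (F : Finset α) (S : α → Set ι) (hS : ∀ x ∈ F, ∀ y ∈ F, x ≠ y → Disjoint (S x) (S y))
    (A : α → Set Ω) (hA : ∀ x ∈ F, MeasurableSet[sg V (S x)] (A x)) :
    P (⋂ x ∈ F, A x) = ∏ x ∈ F, P (A x) ∧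
      MeasurableSet[sg V (⋃ x ∈ F, S x)] (⋂ x ∈ F, A x) := by
  induction F using Finset.induction_on with
  | empty => simp
  | insert a F ha ih =>
    obtain ⟨h1, h2⟩ := ih (fun x hx y hy => hS x (by simp [hx]) y (by simp [hy]))
      (fun x hx => hA x (by simp [hx]))
    have h3 := hA a (by simp)
    rw [Finset.set_biInter_insert, Finset.prod_insert ha, ← h1]
    constructor
    · apply sg_indep hI hm _ h3 h2
      rw [Set.disjoint_iUnion₂_right]
      intro y hy
      exact hS a (by simp) y (by simp [hy]) (by rintro rfl; exact ha hy)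
    · refine MeasurableSet.inter (m := sg V (⋃ x ∈ insert a F, S x)) ?_ ?_
      · exact sg_mono (Set.subset_biUnion_of_mem (u := S) (by simp)) _ h3
      · apply sg_mono _ _ h2
        exact Set.biUnion_subset_biUnion_left (fun x hx => by simp [hx])

end

end Pool.Agent.W847.Frog
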