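import Pool.Agent.W847.Frog.Walk
import Pool.Agent.W847.Frog.Indep

/-!
# Law of the endpoint of the stopped walk
-/

set_option autoImplicit false

open Finset MeasureTheory ProbabilityTheory

namespace Pool.Agent.W847.Frog

/-- Number of neighbours. -/
def deg (k : List ℕ → ℕ) (z : List ℕ) : ℕ := if z = [] then k z else k z + 1

/-- Neighbour number `c`. -/
def gg (z : List ℕ) (c : ℕ) : List ℕ :=
  if z = [] then [c] else if c = 0 then z.tail else (c - 1) :: z

theorem stp_eq (k : List ℕ → ℕ) (z : List ℕ) (v : ℝ) :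
    stp k z v = gg z ⌊v * (deg k z : ℝ)⌋₊ := by
  unfold stp gg deg
  split_ifs with h1 h2 h3 h3
  · rfl
  · rfl
  · exfalso; apply h3; push_cast; exact h2
  · exfalso; apply h2; push_cast at h3; exact h3
  · push_cast; rfl

/-- One step of the stopped walk. -/
noncomputable def nxt (k : List ℕ → ℕ) (n : ℕ) (z : List ℕ) (v : ℝ) : List ℕ :=
  if n ≤ z.length then z else stp k z v

theorem W_succ (k : List ℕ → ℕ) (n : ℕ) (x : List ℕ) (v : ℕ → ℝ) (m : ℕ) :
    W k n x v (m + 1) = nxt k n (W k n x v m) (v (m + 1)) := rfl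

theorem nxt_meas (k : List ℕ → ℕ) (n : ℕ) (z z' : List ℕ) :
    MeasurableSet {v : ℝ | nxt k n z v = z'} := by
  unfold nxt
  split_ifs with h
  · exact MeasurableSet.const _
  · simp only [stp_eq]
    have h1 : Measurable (fun v : ℝ => ⌊v * (deg k z : ℝ)⌋₊) :=
      Nat.measurable_floor.comp (measurable_id.mul_const _)
    exact h1 (MeasurableSet.of_discrete (s := {c : ℕ | gg z c = z'}))

/-- The averaging operator. -/
noncomputable def PP' (k : List ℕ → ℕ) (n : ℕ) (Φ : List ℕ → ℝ) (z : List ℕ) : ℝ :=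
  if n ≤ z.length then Φ z else (1 / (deg k z : ℝ)) * ∑ c ∈ range (deg k z), Φ (gg z c)

section pure

variable {k : List ℕ → ℕ} (hk : ∀ x, k x = 2 ∨ k x = 5) {n : ℕ}

include hk

theorem deg_pos (z : List ℕ) : 0 < deg k z := by
  unfold deg; have := k_ge hk z; split_ifs <;> omega

theorem gg_mem {z : List ℕ} (hz : z ∈ vfrogs k (n + 1)) (hn : z.length < n) {c : ℕ}
    (hc : c < deg k z) : gg z c ∈ vfrogs k (n + 1) := by
  rw [mem_vfrogs hk] at hz ⊢
  unfold gg deg at *
  split_ifs with h1 h2
  · subst h1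
    simp only [if_true] at hc
    exact ⟨by simp only [List.length_singleton, List.length_nil] at *; omega, hc, trivial⟩
  · cases z with
    | nil => exact absurd rfl h1
    | cons i z => exact ⟨by simp only [List.tail_cons, List.length_cons] at *; omega, hz.2.2⟩
  · rw [if_neg h1] at hc
    exact ⟨by simp only [List.length_cons]; omega, by omega, hz.2⟩

theorem PP'_hh (h : List ℕ → ℝ) {z : List ℕ} (hz : z ∈ vfrogs k (n + 1)) :
    PP' k n (hh k n h) z = hh k n h z := by
  rw [mem_vfrogs hk] at hz
  unfold PP'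
  split_ifs with hn
  · rfl
  · have hd := deg_pos hk z
    have hd' : (0 : ℝ) < deg k z := by exact_mod_cast hd
    rw [one_div, inv_mul_eq_iff_eq_mul₀ hd'.ne']
    cases z with
    | nil =>
      simp only [deg, gg, if_true]
      exact hh_nil hk n h (by simp only [List.length_nil] at hn; omega)
    | cons i z =>
      simp only [deg, gg, reduceCtorEq, if_false]
      rw [Finset.sum_range_succ']
      simp only [if_true, Nat.add_sub_cancel, List.tail_cons, Nat.succ_ne_zero, if_false]
      rw [hh_cons hk n h hz.2 (by omega)]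
      push_cast; ring

theorem PP'_one {z : List ℕ} : PP' k n (fun _ => 1) z = 1 := by
  unfold PP'
  split_ifs
  · rfl
  · have hd' : (0 : ℝ) < deg k z := by exact_mod_cast deg_pos hk z
    simp only [Finset.sum_const, Finset.card_range, nsmul_eq_mul, mul_one]
    field_simp

theorem PP'_mono {Φ Ψ : List ℕ → ℝ} (h : ∀ z, Φ z ≤ Ψ z) (z : List ℕ) :
    PP' k n Φ z ≤ PP' k n Ψ z := by
  unfold PP'
  split_ifs
  · exact h z
  · have hd' : (0 : ℝ) < deg k z := by exact_mod_cast deg_pos hk z
    exact mul_le_mul_of_nonneg_left (Finset.sum_le_sum fun c _ => h _) (by positivity)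

theorem PP'_len {z : List ℕ} : (z.length : ℝ) + 1 / 3 * (if z.length < n then 1 else 0) ≤
    PP' k n (fun z => (z.length : ℝ)) z := by
  unfold PP'
  by_cases hn : n ≤ z.length
  · rw [if_pos hn, if_neg (by omega)]; simp
  · rw [if_neg hn, if_pos (by omega)]
    have hd' : (0 : ℝ) < deg k z := by exact_mod_cast deg_pos hk z
    rw [one_div (deg k z : ℝ), inv_mul_eq_div, le_div_iff₀ hd']
    cases z with
    | nil =>
      simp only [deg, gg, if_true]
      have := k_ge hk ([] : List ℕ)
      have h2 : (2 : ℝ) ≤ k [] := by exact_mod_cast this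
      simp only [List.length_nil, List.length_singleton, Finset.sum_const, Finset.card_range,
        nsmul_eq_mul]
      push_cast; nlinarith
    | cons i z =>
      simp only [deg, gg, reduceCtorEq, if_false]
      rw [Finset.sum_range_succ']
      simp only [if_true, List.tail_cons, Nat.succ_ne_zero, if_false,
        List.length_cons, Finset.sum_const, Finset.card_range, nsmul_eq_mul]
      have := k_ge hk (i :: z)
      have h2 : (2 : ℝ) ≤ k (i :: z) := by exact_mod_cast this
      push_cast
      nlinarith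

theorem dl_mono {w : List ℕ} {h1 h2 : List ℕ → ℝ} (h : ∀ y, h1 y ≤ h2 y) :
    dl k n w h1 ≤ dl k n w h2 := by
  unfold dl; exact down_mono hk _ _ _ _ fun p => h _

theorem nuF_mono (z : List ℕ) : ∀ (fr : Option ℕ) {h1 h2 : List ℕ → ℝ}, (∀ y, h1 y ≤ h2 y) →
    nuF k n z fr h1 ≤ nuF k n z fr h2 := by
  induction z with
  | nil =>
    intro fr h1 h2 h
    simp only [nuF]
    exact Finset.sum_le_sum fun j _ => mul_le_mul_of_nonneg_left (dl_mono hk h)
      (wt_nonneg' hk n _ _ _)
  | cons i z ih =>
    intro fr h1 h2 h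
    simp only [nuF]
    exact add_le_add (mul_le_mul_of_nonneg_left (ih _ h) (up_nonneg' hk n _ _))
      (Finset.sum_le_sum fun j _ => mul_le_mul_of_nonneg_left (dl_mono hk h)
        (wt_nonneg' hk n _ _ _))

end pure

section prob

variable {Ω : Type} [mΩ : MeasurableSpace Ω] {P : Measure Ω} [IsProbabilityMeasure P]
  {V : List ℕ × ℕ → Ω → ℝ} (hI : iIndepFun V P) (hm : ∀ i, Measurable (V i))
  (hV0 : ∀ i ω, 0 ≤ V i ω) (hV1 : ∀ i ω, V i ω < 1)
  (hU : ∀ i a b, 0 ≤ a → a ≤ b → b ≤ 1 → P.real (V i ⁻¹' Set.Ico a b) = b - a)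
  {k : List ℕ → ℕ} (hk : ∀ x, k x = 2 ∨ k x = 5) {n : ℕ} {x : List ℕ} (hx : Val k x)
  (hxn : x.length < n)

/-- The event that the stopped walk is at `z` at time `m`. -/
def WE (V : List ℕ × ℕ → Ω → ℝ) (k : List ℕ → ℕ) (n : ℕ) (x : List ℕ) (m : ℕ) (z : List ℕ) :
    Set Ω := {ω | W k n x (fun j => V (x, j) ω) m = z}

theorem WE_meas (m : ℕ) : ∀ z, MeasurableSet[sg V {i | i.1 = x ∧ 1 ≤ i.2 ∧ i.2 ≤ m}]
    (WE V k n x m z) := by
  induction m with
  | zero =>
    intro z
    unfold WE
    simp only [W]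
    exact MeasurableSet.const _
  | succ m ih =>
    intro z'
    have h : WE V k n x (m + 1) z' = ⋃ z : List ℕ, (WE V k n x m z ∩
        (V (x, m + 1) ⁻¹' {v | nxt k n z v = z'})) := by
      ext ω
      simp only [WE, Set.mem_ofPred_eq, Set.mem_iUnion, Set.mem_inter_iff, Set.mem_preimage,
        W_succ]
      constructor
      · intro h; exact ⟨_, rfl, h⟩
      · rintro ⟨z, rfl, h⟩; exact h
    rw [h]
    refine MeasurableSet.iUnion (m := sg V {i | i.1 = x ∧ 1 ≤ i.2 ∧ i.2 ≤ m + 1}) fun z => ?_
    refine MeasurableSet.inter (m := sg V {i | i.1 = x ∧ 1 ≤ i.2 ∧ i.2 ≤ m + 1}) ?_ ?_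
    · have hsub : {i : List ℕ × ℕ | i.1 = x ∧ 1 ≤ i.2 ∧ i.2 ≤ m} ⊆
          {i | i.1 = x ∧ 1 ≤ i.2 ∧ i.2 ≤ m + 1} := by
        rintro i ⟨h1, h2, h3⟩
        exact ⟨h1, h2, by omega⟩
      exact sg_mono hsub _ (ih z)
    · exact sg_meas (by simp) (nxt_meas k n z z')

include hm in
theorem WE_meas' (m : ℕ) (z : List ℕ) : MeasurableSet (WE V k n x m z) :=
  sg_le hm _ _ (WE_meas m z)

/-- The law at time `m`. -/
noncomputable def aa (P : Measure Ω) (V : List ℕ × ℕ → Ω → ℝ) (k : List ℕ → ℕ) (n : ℕ)
    (x : List ℕ) (m : ℕ) (z : List ℕ) : ℝ := P.real (WE V k n x m z)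

/-- Expectation at time `m`. -/
noncomputable def Av (P : Measure Ω) (V : List ℕ × ℕ → Ω → ℝ) (k : List ℕ → ℕ) (n : ℕ)
    (x : List ℕ) (m : ℕ) (Φ : List ℕ → ℝ) : ℝ :=
  ∑ z ∈ vfrogs k (n + 1), aa P V k n x m z * Φ z

include hk hV1 hx hxn in
theorem W_mem (m : ℕ) (ω : Ω) : W k n x (fun j => V (x, j) ω) m ∈ vfrogs k (n + 1) := by
  rw [mem_vfrogs hk]
  exact ⟨by have := W_length (k := k) (v := fun j => V (x, j) ω) hxn.le m; omega,
    W_val hk (fun j => hV1 _ _) hx m⟩

include hm hV0 hU in
theorem floor_prob (i : List ℕ × ℕ) {K c : ℕ} (hc : c < K) :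
    P.real {ω | ⌊V i ω * (K : ℝ)⌋₊ = c} = 1 / K := by
  have hK : (0 : ℝ) < K := by exact_mod_cast (by omega : 0 < K)
  have h : {ω | ⌊V i ω * (K : ℝ)⌋₊ = c} = V i ⁻¹' Set.Ico ((c : ℝ) / K) ((c + 1) / K) := by
    ext ω
    simp only [Set.mem_ofPred_eq, Set.mem_preimage, Set.mem_Ico]
    rw [Nat.floor_eq_iff (mul_nonneg (hV0 i ω) hK.le), div_le_iff₀ hK, lt_div_iff₀ hK]
  rw [h, hU]
  · field_simp; ring
  · positivity
  · apply div_le_div_of_nonneg_right _ hK.le; linarith
  · rw [div_le_one hK]; exact_mod_cast hc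

include hI hm hV0 hV1 hU hk hx hxn in
theorem Av_succ (m : ℕ) (Φ : List ℕ → ℝ) :
    Av P V k n x (m + 1) Φ = Av P V k n x m (PP' k n Φ) := by
  have h1 : ∀ z', aa P V k n x (m + 1) z' = ∑ z ∈ vfrogs k (n + 1), aa P V k n x m z *
      P.real (V (x, m + 1) ⁻¹' {v | nxt k n z v = z'}) := by
    intro z'
    have h : WE V k n x (m + 1) z' = ⋃ z ∈ vfrogs k (n + 1), (WE V k n x m z ∩
        (V (x, m + 1) ⁻¹' {v | nxt k n z v = z'})) := by
      ext ω
      simp only [WE, Set.mem_ofPred_eq, Set.mem_iUnion, Set.mem_inter_iff, Set.mem_preimage,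
        W_succ, exists_prop]
      constructor
      · intro h; exact ⟨_, W_mem hV1 hk hx hxn m ω, rfl, h⟩
      · rintro ⟨z, _, rfl, h⟩; exact h
    unfold aa
    rw [h, measureReal_biUnion_finset]
    · refine Finset.sum_congr rfl fun z _ => ?_
      have := sg_indep hI hm (S := {i | i.1 = x ∧ 1 ≤ i.2 ∧ i.2 ≤ m}) (T := {(x, m + 1)})
        (by rw [Set.disjoint_singleton_right]; simp)
        (WE_meas (k := k) (n := n) m z) (sg_meas (Set.mem_singleton _) (nxt_meas k n z z'))
      rw [measureReal_def, this, ENNReal.toReal_mul]; rfl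
    · intro z _ z2 _ hzz
      rw [Function.onFun, Set.disjoint_left]
      rintro ω ⟨h1, _⟩ ⟨h2, _⟩
      exact hzz (h1.symm.trans h2)
    · intro z _
      exact (WE_meas' hm m z).inter (hm _ (nxt_meas k n z z'))
  have h2 : ∀ z ∈ vfrogs k (n + 1), ∑ z' ∈ vfrogs k (n + 1),
      P.real (V (x, m + 1) ⁻¹' {v | nxt k n z v = z'}) * Φ z' = PP' k n Φ z := by
    intro z hz
    unfold PP'
    split_ifs with hn
    · have h3 : ∀ z', P.real (V (x, m + 1) ⁻¹' {v | nxt k n z v = z'}) * Φ z' =
          if z = z' then Φ z' else 0 := by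
        intro z'
        split_ifs with hzz
        · subst hzz
          have : V (x, m + 1) ⁻¹' {v | nxt k n z v = z} = Set.univ := by
            ext ω; simp [nxt, hn]
          rw [this]; simp
        · have : V (x, m + 1) ⁻¹' {v | nxt k n z v = z'} = ∅ := by
            ext ω; simp [nxt, hn, hzz]
          rw [this]; simp
      simp only [h3]
      rw [Finset.sum_ite_eq, if_pos hz]
    · have h3 : ∀ z', P.real (V (x, m + 1) ⁻¹' {v | nxt k n z v = z'}) =
          ∑ c ∈ range (deg k z), if gg z c = z' then 1 / (deg k z : ℝ) else 0 := by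
        intro z'
        have h4 : V (x, m + 1) ⁻¹' {v | nxt k n z v = z'} =
            ⋃ c ∈ (range (deg k z)).filter (fun c => gg z c = z'),
              {ω | ⌊V (x, m + 1) ω * (deg k z : ℝ)⌋₊ = c} := by
          ext ω
          simp only [Set.mem_preimage, Set.mem_ofPred_eq, Set.mem_iUnion, Finset.mem_filter,
            Finset.mem_range, exists_prop, nxt, if_neg hn, stp_eq]
          constructor
          · intro h; exact ⟨_, ⟨floor_lt (hV1 _ _) (deg_pos hk z), h⟩, rfl⟩
          · rintro ⟨c, ⟨_, h⟩, rfl⟩; exact h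
        rw [h4, measureReal_biUnion_finset]
        · rw [Finset.sum_filter]
          refine Finset.sum_congr rfl fun c hc => ?_
          rw [floor_prob hm hV0 hU _ (Finset.mem_range.1 hc)]
        · intro c _ c2 _ hcc
          rw [Function.onFun, Set.disjoint_left]
          intro ω h1 h2
          simp only [Set.mem_ofPred_eq] at h1 h2
          exact hcc (h1.symm.trans h2)
        · intro c _
          have h5 : Measurable (fun ω => ⌊V (x, m + 1) ω * (deg k z : ℝ)⌋₊) :=
            Nat.measurable_floor.comp ((hm _).mul_const _)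
          exact h5 (MeasurableSet.singleton c)
      simp only [h3, Finset.sum_mul, ite_mul, zero_mul]
      rw [Finset.sum_comm, Finset.mul_sum]
      refine Finset.sum_congr rfl fun c hc => ?_
      rw [Finset.sum_ite_eq, if_pos (gg_mem hk hz (by omega) (Finset.mem_range.1 hc))]
  unfold Av
  simp only [h1, Finset.sum_mul]
  rw [Finset.sum_comm]
  refine Finset.sum_congr rfl fun z hz => ?_
  rw [← h2 z hz, Finset.mul_sum]
  exact Finset.sum_congr rfl fun z' _ => by ring

include hk hx hxn in
theorem Av_zero (Φ : List ℕ → ℝ) : Av P V k n x 0 Φ = Φ x := by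
  unfold Av aa WE
  simp only [W]
  have : ∀ z, P.real {ω : Ω | x = z} * Φ z = if x = z then Φ z else 0 := by
    intro z
    split_ifs with h
    · simp [h]
    · simp [h]
  simp only [this]
  rw [Finset.sum_ite_eq, if_pos]
  rw [mem_vfrogs hk]; exact ⟨by omega, hx⟩

theorem Av_mono {m : ℕ} {Φ Ψ : List ℕ → ℝ} (h : ∀ z ∈ vfrogs k (n + 1), Φ z ≤ Ψ z) :
    Av P V k n x m Φ ≤ Av P V k n x m Ψ :=
  Finset.sum_le_sum fun z hz => mul_le_mul_of_nonneg_left (h z hz) measureReal_nonneg

theorem Av_congr {m : ℕ} {Φ Ψ : List ℕ → ℝ} (h : ∀ z ∈ vfrogs k (n + 1), Φ z = Ψ z) :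
    Av P V k n x m Φ = Av P V k n x m Ψ :=
  Finset.sum_congr rfl fun z hz => by rw [h z hz]

include hI hm hV0 hV1 hU hk hx hxn

theorem Av_hh (h : List ℕ → ℝ) (m : ℕ) : Av P V k n x m (hh k n h) = hh k n h x := by
  induction m with
  | zero => exact Av_zero hk hx hxn _
  | succ m ih =>
    rw [Av_succ hI hm hV0 hV1 hU hk hx hxn, Av_congr fun z hz => PP'_hh hk h hz, ih]

theorem Av_one (m : ℕ) : Av P V k n x m (fun _ => 1) = 1 := by
  induction m with
  | zero => exact Av_zero hk hx hxn _
  | succ m ih =>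
    rw [Av_succ hI hm hV0 hV1 hU hk hx hxn, Av_congr fun z hz => PP'_one hk, ih]

/-- Indicator of not having reached generation `n`. -/
def act (n : ℕ) : List ℕ → ℝ := fun z => if z.length < n then 1 else 0

theorem Av_act_anti (m : ℕ) : Av P V k n x (m + 1) (act n) ≤ Av P V k n x m (act n) := by
  rw [Av_succ hI hm hV0 hV1 hU hk hx hxn]
  apply Av_mono
  intro z _
  by_cases hn : n ≤ z.length
  · unfold PP'
    rw [if_pos hn]
  · have h1 : act n z = 1 := by unfold act; rw [if_pos (by omega)]
    rw [h1, ← PP'_one hk (n := n) (z := z)]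
    apply PP'_mono hk
    intro z'
    unfold act
    split_ifs <;> norm_num

theorem Av_act_sum (m : ℕ) : ∑ i ∈ range m, Av P V k n x i (act n) ≤
    3 * Av P V k n x m (fun z => (z.length : ℝ)) := by
  induction m with
  | zero =>
    simp only [Finset.range_zero, Finset.sum_empty]
    have : 0 ≤ Av P V k n x 0 (fun z => (z.length : ℝ)) :=
      Finset.sum_nonneg fun z _ => mul_nonneg measureReal_nonneg (Nat.cast_nonneg _)
    linarith
  | succ m ih =>
    rw [Finset.sum_range_succ, Av_succ hI hm hV0 hV1 hU hk hx hxn]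
    have h1 : Av P V k n x m (fun z => (z.length : ℝ) + 1 / 3 * act n z) ≤
        Av P V k n x m (PP' k n (fun z => (z.length : ℝ))) :=
      Av_mono fun z _ => PP'_len hk
    have h2 : Av P V k n x m (fun z => (z.length : ℝ) + 1 / 3 * act n z) =
        Av P V k n x m (fun z => (z.length : ℝ)) + 1 / 3 * Av P V k n x m (act n) := by
      unfold Av
      rw [Finset.mul_sum, ← Finset.sum_add_distrib]
      exact Finset.sum_congr rfl fun z _ => by ring
    linarith

theorem Av_act_le (m : ℕ) : Av P V k n x m (act n) * m ≤ 3 * n := by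
  have h1 : ∑ i ∈ range m, Av P V k n x m (act n) ≤ ∑ i ∈ range m, Av P V k n x i (act n) := by
    refine Finset.sum_le_sum fun i hi => ?_
    have hanti : Antitone (fun i => Av P V k n x i (act n)) :=
      antitone_nat_of_succ_le fun i => Av_act_anti hI hm hV0 hV1 hU hk hx hxn i
    exact hanti (Finset.mem_range.1 hi).le
  simp only [Finset.sum_const, Finset.card_range, nsmul_eq_mul] at h1
  have h2 := Av_act_sum hI hm hV0 hV1 hU hk hx hxn m
  have h3 : Av P V k n x m (fun z => (z.length : ℝ)) ≤ Av P V k n x m (fun _ => n * 1) := by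
    apply Av_mono
    intro z hz
    have := ((mem_vfrogs hk _ _).1 hz).1
    rw [mul_one]
    exact_mod_cast (by omega : z.length ≤ n)
  have h4 : Av P V k n x m (fun _ => (n : ℝ) * 1) = n * Av P V k n x m (fun _ => 1) := by
    unfold Av
    rw [Finset.mul_sum]
    exact Finset.sum_congr rfl fun z _ => by ring
  rw [h4, Av_one hI hm hV0 hV1 hU hk hx hxn, mul_one] at h3
  linarith

theorem Av_act_tendsto : Filter.Tendsto (fun m => Av P V k n x m (act n)) Filter.atTop
    (nhds 0) := by
  have h0 : ∀ m, 0 ≤ Av P V k n x m (act n) := fun m =>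
    Finset.sum_nonneg fun z _ => mul_nonneg measureReal_nonneg (by unfold act; split_ifs <;> simp)
  have h1 : ∀ m, Av P V k n x m (act n) ≤ (3 * n + 1) / (m + 1 : ℝ) := by
    intro m
    rw [le_div_iff₀ (by positivity)]
    have h2 := Av_act_le hI hm hV0 hV1 hU hk hx hxn m
    have h3 : Av P V k n x m (act n) ≤ 1 := by
      rw [← Av_one hI hm hV0 hV1 hU hk hx hxn m]
      apply Av_mono
      intro z _
      unfold act; split_ifs <;> norm_num
    linarith
  refine squeeze_zero h0 h1 ?_
  have := (tendsto_one_div_add_atTop_nhds_zero_nat (𝕜 := ℝ)).const_mul (3 * (n : ℝ) + 1)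
  rw [mul_zero] at this
  refine this.congr fun m => ?_
  ring

/-- The law of the stopped walk converges to the harmonic law. -/
theorem aa_tendsto {y : List ℕ} (hy : y ∈ words n) :
    Filter.Tendsto (fun m => aa P V k n x m y) Filter.atTop
      (nhds (law k n (.loc x none) (ind y))) := by
  have hyl := ((mem_words n y).1 hy).1
  have hind : ∀ m, Av P V k n x m (ind y) = aa P V k n x m y := by
    intro m
    unfold Av ind
    simp only [mul_ite, mul_one, mul_zero]
    by_cases hyv : y ∈ vfrogs k (n + 1)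
    · rw [Finset.sum_ite_eq', if_pos hyv]
    · rw [Finset.sum_ite_eq', if_neg hyv]
      unfold aa
      have : WE V k n x m y = ∅ := by
        ext ω
        simp only [WE, Set.mem_ofPred_eq, Set.mem_empty_iff_false, iff_false]
        intro h
        apply hyv
        rw [← h]
        exact W_mem hV1 hk hx hxn m ω
      rw [this]; simp
  have hsplit : ∀ m, law k n (.loc x none) (ind y) = aa P V k n x m y +
      Av P V k n x m (fun z => act n z * nuF k n z none (ind y)) := by
    intro m
    have h1 := Av_hh hI hm hV0 hV1 hU hk hx hxn (ind y) m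
    have h2 : hh k n (ind y) x = nuF k n x none (ind y) := by
      unfold hh; rw [if_neg (by omega)]
    rw [h2] at h1
    simp only [law]
    rw [← h1, ← hind]
    unfold Av
    rw [← Finset.sum_add_distrib]
    refine Finset.sum_congr rfl fun z _ => ?_
    by_cases hn : n ≤ z.length
    · have e1 : hh k n (ind y) z = ind y z := by unfold hh; rw [if_pos hn]
      have e2 : act n z = 0 := by unfold act; rw [if_neg (by omega)]
      simp only [e1, e2]; ring
    · have e1 : hh k n (ind y) z = nuF k n z none (ind y) := by unfold hh; rw [if_neg hn]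
      have e2 : act n z = 1 := by unfold act; rw [if_pos (by omega)]
      have e3 : ind y z = 0 := by
        unfold ind; rw [if_neg]; rintro rfl; omega
      simp only [e1, e2, e3]; ring
  have hb0 : ∀ z ∈ vfrogs k (n + 1), 0 ≤ act n z * nuF k n z none (ind y) := by
    intro z hz
    apply mul_nonneg
    · unfold act; split_ifs <;> simp
    · have h1 : nuF k n z none (fun _ => (0 : ℝ)) ≤ nuF k n z none (ind y) :=
        nuF_mono hk z none (fun y' => by unfold ind; split_ifs <;> simp)
      rwa [nuF_const hk n ((mem_vfrogs hk _ _).1 hz).2 (leg_none _)] at h1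
  have hb1 : ∀ z ∈ vfrogs k (n + 1), act n z * nuF k n z none (ind y) ≤ act n z := by
    intro z hz
    have h1 : nuF k n z none (ind y) ≤ nuF k n z none (fun _ => (1 : ℝ)) :=
      nuF_mono hk z none (fun y' => by unfold ind; split_ifs <;> simp)
    rw [nuF_const hk n ((mem_vfrogs hk _ _).1 hz).2 (leg_none _)] at h1
    have h2 : 0 ≤ act n z := by unfold act; split_ifs <;> simp
    nlinarith
  have hlim : Filter.Tendsto (fun m => Av P V k n x m
      (fun z => act n z * nuF k n z none (ind y))) Filter.atTop (nhds 0) := by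
    refine squeeze_zero (fun m => ?_) (fun m => ?_)
      (Av_act_tendsto hI hm hV0 hV1 hU hk hx hxn)
    · exact Finset.sum_nonneg fun z hz => mul_nonneg measureReal_nonneg (hb0 z hz)
    · exact Av_mono hb1
  have h3 : (fun m => aa P V k n x m y) = fun m => law k n (.loc x none) (ind y) -
      Av P V k n x m (fun z => act n z * nuF k n z none (ind y)) := by
    funext m
    rw [hsplit m]; ring
  rw [h3]
  have := hlim.const_sub (law k n (.loc x none) (ind y))
  rwa [sub_zero] at this

end prob

end Pool.Agent.W847.Frog
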