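import Pool.Agent.W847.Frog.Hit

/-!
# Good vertices are everywhere
-/

set_option autoImplicit false

open Finset MeasureTheory ProbabilityTheory

namespace Pool.Agent.W847.Frog

/-- Short binary words. -/
def w2 : ℕ → Finset (List ℕ)
  | 0 => ∅
  | L + 1 => insert [] ((w2 L).image (fun a => 0 :: a) ∪ (w2 L).image (fun a => 1 :: a))

theorem mem_w2 (L : ℕ) : ∀ a : List ℕ, a.length < L → (∀ x ∈ a, x < 2) → a ∈ w2 L := by
  induction L with
  | zero => intro a ha; omega
  | succ L ih =>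
    intro a ha hx
    cases a with
    | nil => simp [w2]
    | cons i a =>
      have h1 := ih a (by simpa using ha) (fun x h => hx x (by simp [h]))
      have h2 : i < 2 := hx i (by simp)
      simp only [w2, Finset.mem_insert, Finset.mem_union, Finset.mem_image]
      right
      interval_cases i
      · left; exact ⟨a, h1, rfl⟩
      · right; exact ⟨a, h1, rfl⟩

theorem w2_length (L : ℕ) : ∀ a ∈ w2 L, a.length < L := by
  induction L with
  | zero => intro a ha; simp [w2] at ha
  | succ L ih =>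
    intro a ha
    simp only [w2, Finset.mem_insert, Finset.mem_union, Finset.mem_image] at ha
    rcases ha with rfl | ⟨b, hb, rfl⟩ | ⟨b, hb, rfl⟩
    · simp
    · have := ih b hb; simp; omega
    · have := ih b hb; simp; omega

theorem card_w2 (L : ℕ) : (w2 L).card + 1 ≤ 2 ^ L := by
  induction L with
  | zero => simp [w2]
  | succ L ih =>
    simp only [w2]
    have h1 := Finset.card_insert_le ([] : List ℕ)
      ((w2 L).image (fun a => 0 :: a) ∪ (w2 L).image (fun a => 1 :: a))
    have h2 := Finset.card_union_le ((w2 L).image (fun a => 0 :: a))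
      ((w2 L).image (fun a => 1 :: a))
    have h3 := Finset.card_image_le (s := w2 L) (f := fun a => 0 :: a)
    have h4 := Finset.card_image_le (s := w2 L) (f := fun a => 1 :: a)
    rw [pow_succ]
    omega

/-- The ancestor of generation `l`. -/
def suf (v : List ℕ) (l : ℕ) : List ℕ := v.drop (v.length - l)

theorem suf_length {v : List ℕ} {l : ℕ} (h : l ≤ v.length) : (suf v l).length = l := by
  unfold suf; rw [List.length_drop]; omega

/-- Environment with five children exactly at the vertices in `κ`. -/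
def kk (κ : Finset (List ℕ)) (x : List ℕ) : ℕ := if x ∈ κ then 5 else 2

theorem kk_or (κ : Finset (List ℕ)) (x : List ℕ) : kk κ x = 2 ∨ kk κ x = 5 := by
  unfold kk; split_ifs <;> simp

open Classical in
/-- Vertices below generation `n` with five children. -/
noncomputable def kap {Ω : Type} (p : ℝ) (V : List ℕ × ℕ → Ω → ℝ) (n : ℕ) (ω : Ω) :
    Finset (List ℕ) := (frogs n).filter (fun x => p ≤ V (x, 0) ω)

theorem mem_kap {Ω : Type} {p : ℝ} {V : List ℕ × ℕ → Ω → ℝ} {n : ℕ} {ω : Ω} {x : List ℕ} :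
    x ∈ kap p V n ω ↔ x ∈ frogs n ∧ p ≤ V (x, 0) ω := by
  unfold kap; rw [Finset.mem_filter]

/-- If the environment is not good there is a path with many bad vertices. -/
theorem bad_path {Ω : Type} {p : ℝ} {V : List ℕ × ℕ → Ω → ℝ} {n : ℕ} {ω : Ω} {L j0 I : ℕ}
    (h : ¬ GoodEnv (kk (kap p V n ω)) L j0 (L * I)) :
    ∃ v ∈ words (j0 + L * I), ∀ i < I, ∃ a ∈ w2 L, p ≤ V (a ++ suf v (j0 + L * i), 0) ω := by
  unfold GoodEnv at h
  push Not at h
  obtain ⟨v, hv1, hv2, hv3⟩ := h
  refine ⟨v, (mem_words _ _).2 ⟨hv2, hv1.lt_five (kk_or _)⟩, ?_⟩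
  intro i hi
  have hLi : L * i ≤ L * I := Nat.mul_le_mul_left L hi.le
  have h1 := hv3 (suf v (j0 + L * i)) (List.drop_suffix _ _)
    (by rw [suf_length (by omega)]; omega)
  unfold Bin at h1
  push Not at h1
  obtain ⟨a, ha1, ha2, ha3⟩ := h1
  refine ⟨a, mem_w2 L a ha1 ha2, ?_⟩
  by_contra hcon
  apply ha3
  unfold kk
  rw [if_neg]
  intro hmem
  exact hcon (mem_kap.1 hmem).2

section prob

variable {Ω : Type} [mΩ : MeasurableSpace Ω] {P : Measure Ω} [IsProbabilityMeasure P]
  {V : List ℕ × ℕ → Ω → ℝ} (hI : iIndepFun V P) (hm : ∀ i, Measurable (V i))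
  (hV1 : ∀ i ω, V i ω < 1)
  (hU : ∀ i a b, 0 ≤ a → a ≤ b → b ≤ 1 → P.real (V i ⁻¹' Set.Ico a b) = b - a)

include hV1 hU in
theorem high_prob {p : ℝ} (hp0 : 0 ≤ p) (hp1 : p ≤ 1) (i : List ℕ × ℕ) :
    P.real (V i ⁻¹' Set.Ici p) = 1 - p := by
  rw [← hU i p 1 hp0 hp1 le_rfl]
  congr 1
  ext ω
  simp only [Set.mem_preimage, Set.mem_Ici, Set.mem_Ico]
  exact ⟨fun h => ⟨h, hV1 i ω⟩, fun h => h.1⟩

include hI hm hV1 hU

theorem path_prob {p : ℝ} (hp0 : 0 ≤ p) (hp1 : p ≤ 1) {L j0 I : ℕ} {v : List ℕ}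
    (hv : v ∈ words (j0 + L * I)) (f : ℕ → List ℕ) (hf : ∀ i < I, f i ∈ w2 L) :
    P.real (⋂ i ∈ range I, V (f i ++ suf v (j0 + L * i), 0) ⁻¹' Set.Ici p) = (1 - p) ^ I := by
  have hvl := ((mem_words _ _).1 hv).1
  have h1 := (sg_prod hI hm (range I) (fun i => {(f i ++ suf v (j0 + L * i), 0)}) (by
    intro i hi j hj hij
    have hi' := Finset.mem_range.1 hi
    have hj' := Finset.mem_range.1 hj
    rw [Set.disjoint_singleton]
    intro heq
    have h2 : (f i ++ suf v (j0 + L * i)).length = (f j ++ suf v (j0 + L * j)).length := by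
      rw [(Prod.mk.inj heq).1]
    have hLi : L * i ≤ L * I := Nat.mul_le_mul_left L hi'.le
    have hLj : L * j ≤ L * I := Nat.mul_le_mul_left L hj'.le
    rw [List.length_append, List.length_append, suf_length (by omega),
      suf_length (by omega)] at h2
    have h3 := w2_length L _ (hf i hi')
    have h4 := w2_length L _ (hf j hj')
    rcases Nat.lt_or_gt_of_ne hij with h | h
    · have : L * (i + 1) ≤ L * j := Nat.mul_le_mul_left L h
      rw [mul_add, mul_one] at this
      omega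
    · have : L * (j + 1) ≤ L * i := Nat.mul_le_mul_left L h
      rw [mul_add, mul_one] at this
      omega)
    (fun i => V (f i ++ suf v (j0 + L * i), 0) ⁻¹' Set.Ici p)
    (fun i _ => sg_meas (Set.mem_singleton _) measurableSet_Ici)).1
  rw [measureReal_def, h1, ENNReal.toReal_prod]
  have h2 : ∀ i ∈ range I, (P (V (f i ++ suf v (j0 + L * i), 0) ⁻¹' Set.Ici p)).toReal = 1 - p :=
    fun i _ => high_prob hV1 hU hp0 hp1 _
  rw [Finset.prod_congr rfl h2, Finset.prod_const, Finset.card_range]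

theorem bad_prob {p : ℝ} (hp0 : 0 ≤ p) (hp1 : p ≤ 1) {L j0 I n : ℕ}
    (hp : (10 : ℝ) ^ L * (1 - p) ≤ 1 / 2) :
    P.real {ω | ¬ GoodEnv (kk (kap p V n ω)) L j0 (L * I)} ≤ 5 ^ j0 * (1 / 2) ^ I := by
  have hsub : {ω | ¬ GoodEnv (kk (kap p V n ω)) L j0 (L * I)} ⊆
      ⋃ v ∈ words (j0 + L * I), ⋃ f ∈ Fintype.piFinset (fun _ : Fin I => w2 L),
        ⋂ i ∈ range I, V ((fun i => if h : i < I then f ⟨i, h⟩ else []) i ++
          suf v (j0 + L * i), 0) ⁻¹' Set.Ici p := by
    intro ω hω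
    obtain ⟨v, hv, hbad⟩ := bad_path hω
    choose! g hg1 hg2 using hbad
    simp only [Set.mem_iUnion, exists_prop]
    refine ⟨v, hv, fun i => g i, ?_, ?_⟩
    · rw [Fintype.mem_piFinset]
      intro i
      exact hg1 i i.2
    · simp only [Set.mem_iInter, Finset.mem_range]
      intro i hi
      simp only [hi, dif_pos, Set.mem_preimage, Set.mem_Ici]
      exact hg2 i hi
  refine (measureReal_mono hsub (measure_ne_top _ _)).trans ?_
  refine (measureReal_biUnion_finset_le _ _).trans ?_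
  have h1 : ∀ v ∈ words (j0 + L * I), P.real (⋃ f ∈ Fintype.piFinset (fun _ : Fin I => w2 L),
        ⋂ i ∈ range I, V ((fun i => if h : i < I then f ⟨i, h⟩ else []) i ++
          suf v (j0 + L * i), 0) ⁻¹' Set.Ici p) ≤ ((2 : ℝ) ^ L) ^ I * (1 - p) ^ I := by
    intro v hv
    refine (measureReal_biUnion_finset_le _ _).trans ?_
    have h2 : ∀ f ∈ Fintype.piFinset (fun _ : Fin I => w2 L),
        P.real (⋂ i ∈ range I, V ((fun i => if h : i < I then f ⟨i, h⟩ else []) i ++
          suf v (j0 + L * i), 0) ⁻¹' Set.Ici p) = (1 - p) ^ I := by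
      intro f hf
      apply path_prob hI hm hV1 hU hp0 hp1 hv
      intro i hi
      simp only [hi, dif_pos]
      exact (Fintype.mem_piFinset.1 hf) _
    rw [Finset.sum_congr rfl h2, Finset.sum_const, nsmul_eq_mul]
    apply mul_le_mul_of_nonneg_right _ (pow_nonneg (by linarith) _)
    rw [Fintype.card_piFinset, Finset.prod_const, Finset.card_univ, Fintype.card_fin]
    have h3 : (w2 L).card ≤ 2 ^ L := by have := card_w2 L; omega
    have h4 : (w2 L).card ^ I ≤ (2 ^ L) ^ I := Nat.pow_le_pow_left h3 I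
    exact_mod_cast h4
  refine (Finset.sum_le_sum h1).trans ?_
  rw [Finset.sum_const, card_words, nsmul_eq_mul]
  push_cast
  have h5 : (5 : ℝ) ^ (j0 + L * I) * (((2 : ℝ) ^ L) ^ I * (1 - p) ^ I) =
      5 ^ j0 * ((10 : ℝ) ^ L * (1 - p)) ^ I := by
    rw [pow_add, pow_mul, show (10 : ℝ) = 5 * 2 by norm_num, mul_pow, mul_pow, mul_pow]
    ring
  rw [h5]
  apply mul_le_mul_of_nonneg_left _ (by positivity)
  apply pow_le_pow_left₀ _ hp
  have : 0 ≤ 1 - p := by linarith
  positivity

end prob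

end Pool.Agent.W847.Frog
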