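import Pool.Agent.W847.Frog.Phase2

/-!
# The growth step in regions where the tree is binary
-/

set_option autoImplicit false

open Finset Real

namespace Pool.Agent.W847.Frog

theorem exp_scale {u t : ℝ} (hu : 0 ≤ u) (ht0 : 0 ≤ t) (ht1 : t ≤ 1) :
    exp (u * t) - 1 - u * t ≤ t ^ 2 * (exp u - 1 - u) := by
  have h1 : HasSum (fun i : ℕ => u ^ i / (i.factorial : ℝ)) (exp u) := by
    have := NormedSpace.expSeries_div_hasSum_exp (𝔸 := ℝ) u
    rwa [← Real.exp_eq_exp_ℝ] at this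
  have h2 : HasSum (fun i : ℕ => (u * t) ^ i / (i.factorial : ℝ)) (exp (u * t)) := by
    have := NormedSpace.expSeries_div_hasSum_exp (𝔸 := ℝ) (u * t)
    rwa [← Real.exp_eq_exp_ℝ] at this
  have h3 := (h1.mul_left (t ^ 2)).sub h2
  have h4 := sum_le_hasSum (range 2) (fun i hi => ?_) h3
  · simp only [Finset.sum_range_succ, Finset.sum_range_zero, pow_zero, pow_one, Nat.factorial,
      Nat.cast_one, Nat.cast_mul, zero_add, mul_one, div_one] at h4
    linarith
  · simp only [Finset.mem_range, not_lt] at hi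
    have h5 : t ^ i ≤ t ^ 2 := pow_le_pow_of_le_one ht0 ht1 hi
    have h6 : 0 ≤ u ^ i := pow_nonneg hu i
    have h7 : (0 : ℝ) < i.factorial := by exact_mod_cast Nat.factorial_pos i
    rw [mul_pow, ← mul_div_assoc, ← sub_div]
    apply div_nonneg _ h7.le
    nlinarith

theorem exact_ineq {u t : ℝ} (hu : 0 ≤ u) (ht0 : 0 ≤ t) (ht1 : t ≤ 1) :
    (2 - t) * (exp (u * t) - 1) ≤ t * exp u - t / 2 := by
  have h1 := exp_scale hu ht0 ht1
  have h2 := quadratic_le_exp_of_nonneg hu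
  set A := exp u - 1 - u with hA
  have hA2 : u ^ 2 / 2 ≤ A := by rw [hA]; linarith
  have h3 : exp u = A + 1 + u := by rw [hA]; ring
  rw [h3]
  have h4 : (2 - t) * (exp (u * t) - 1) ≤ (2 - t) * (u * t + t ^ 2 * A) := by
    apply mul_le_mul_of_nonneg_left _ (by linarith)
    linarith
  refine h4.trans ?_
  have h5 : 0 ≤ A * (1 - t) ^ 2 - (1 - t) * u + 1 / 2 := by
    have : (u ^ 2 / 2) * (1 - t) ^ 2 ≤ A * (1 - t) ^ 2 :=
      mul_le_mul_of_nonneg_right hA2 (sq_nonneg _)
    nlinarith [sq_nonneg ((1 - t) * u - 1)]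
  nlinarith

/-- The growth rate in binary regions. -/
noncomputable def eps1 : ℝ := exp (-(Lam0 / 2)) / 12

/-- The tolerance. -/
noncomputable def eta1 : ℝ := eps1 / (8 * Lam0 + 19)

theorem Lam0_pos : 0 < Lam0 := by unfold Lam0; positivity

theorem eps1_pos : 0 < eps1 := by unfold eps1; positivity

theorem eta1_pos : 0 < eta1 := div_pos eps1_pos (by linarith [Lam0_pos])

theorem eta1_eq : 8 * (Lam0 * eta1) + 19 * eta1 = eps1 := by
  unfold eta1
  have : (8 * Lam0 + 19 : ℝ) ≠ 0 := by linarith [Lam0_pos]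
  field_simp

theorem eps1_le : eps1 ≤ 1 / 12 := by
  unfold eps1
  have : exp (-(Lam0 / 2)) ≤ 1 := by rw [exp_le_one_iff]; linarith [Lam0_pos]
  linarith

theorem exp_le_two {x : ℝ} (h0 : 0 ≤ x) (h1 : x ≤ 1) : exp x ≤ 1 + 2 * x := by
  have h2 := Real.abs_exp_sub_one_le (x := x) (by rwa [abs_of_nonneg h0])
  rw [abs_of_nonneg h0] at h2
  have := le_abs_self (exp x - 1)
  linarith

theorem Y_bounds {u t : ℝ} (hu0 : 0 ≤ u) (ht0 : 0 ≤ t) (ht1 : t ≤ 1) :
    0 ≤ (exp (u * t) - 1) * exp (-u) ∧ (exp (u * t) - 1) * exp (-u) ≤ t ∧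
      (2 - t) * ((exp (u * t) - 1) * exp (-u)) ≤ t - t / 2 * exp (-u) := by
  have heu : 0 < exp (-u) := exp_pos _
  have hY0 : 0 ≤ (exp (u * t) - 1) * exp (-u) := by
    apply mul_nonneg _ heu.le
    have : 0 ≤ u * t := mul_nonneg hu0 ht0
    linarith [one_le_exp this]
  have hYex : (2 - t) * ((exp (u * t) - 1) * exp (-u)) ≤ t - t / 2 * exp (-u) := by
    have h5 := exact_ineq hu0 ht0 ht1
    have h6 := mul_le_mul_of_nonneg_right h5 heu.le
    have h7 : exp u * exp (-u) = 1 := by rw [← exp_add]; simp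
    calc (2 - t) * ((exp (u * t) - 1) * exp (-u)) = (2 - t) * (exp (u * t) - 1) * exp (-u) := by
          ring
      _ ≤ (t * exp u - t / 2) * exp (-u) := h6
      _ = t * (exp u * exp (-u)) - t / 2 * exp (-u) := by ring
      _ = t - t / 2 * exp (-u) := by rw [h7, mul_one]
  refine ⟨hY0, ?_, hYex⟩
  have h1 : 0 ≤ t * exp (-u) := mul_nonneg ht0 heu.le
  nlinarith

theorem X_bound {t lam th th' e κ : ℝ} (ht0 : 0 ≤ t) (ht1 : t ≤ 1) (hl0 : 0 ≤ lam)
    (hκ0 : 0 ≤ κ) (hκ1 : κ ≤ 1) (hlk : lam * e ≤ κ) (h1 : th ≤ 1 / 2 + e)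
    (h2 : th' ≤ 1 / 2 + e) :
    (exp (lam * (th' * t)) - 1) * exp (-(lam * (1 - th))) ≤
      (exp (lam / 2 * t) - 1) * exp (-(lam / 2)) + 8 * (κ * t) := by
  have hu0 : 0 ≤ lam / 2 := by positivity
  obtain ⟨hY0, hYt, -⟩ := Y_bounds hu0 ht0 ht1
  have hkt : 0 ≤ κ * t := mul_nonneg hκ0 ht0
  have h5 : exp (lam * (th' * t)) ≤ exp (lam / 2 * t) * (1 + 2 * (κ * t)) := by
    have h6 : lam * (th' * t) ≤ lam / 2 * t + κ * t := by
      have h7 : lam * (th' * t) ≤ lam * ((1 / 2 + e) * t) := by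
        apply mul_le_mul_of_nonneg_left _ hl0
        exact mul_le_mul_of_nonneg_right h2 ht0
      have h8 : lam * e * t ≤ κ * t := mul_le_mul_of_nonneg_right hlk ht0
      linarith
    refine (exp_le_exp.2 h6).trans ?_
    rw [exp_add]
    apply mul_le_mul_of_nonneg_left _ (exp_pos _).le
    exact exp_le_two hkt (mul_le_one₀ hκ1 ht0 ht1)
  have h6 : exp (-(lam * (1 - th))) ≤ exp (-(lam / 2)) * (1 + 2 * κ) := by
    have h7 : -(lam * (1 - th)) ≤ -(lam / 2) + κ := by
      have : lam * th ≤ lam * (1 / 2 + e) := mul_le_mul_of_nonneg_left h1 hl0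
      linarith
    refine (exp_le_exp.2 h7).trans ?_
    rw [exp_add]
    apply mul_le_mul_of_nonneg_left _ (exp_pos _).le
    exact exp_le_two hκ0 hκ1
  have h7 : exp (lam / 2 * t) * exp (-(lam / 2)) ≤ 1 := by
    rw [← exp_add, exp_le_one_iff]
    have : lam / 2 * t ≤ lam / 2 * 1 := mul_le_mul_of_nonneg_left ht1 hu0
    linarith
  have h8 : 0 ≤ exp (lam / 2 * t) * (1 + 2 * (κ * t)) - 1 := by
    have h9 : 1 ≤ exp (lam / 2 * t) := one_le_exp (mul_nonneg hu0 ht0)
    have h10 : 1 * 1 ≤ exp (lam / 2 * t) * (1 + 2 * (κ * t)) :=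
      mul_le_mul h9 (by linarith) zero_le_one (by linarith)
    linarith
  generalize hY : (exp (lam / 2 * t) - 1) * exp (-(lam / 2)) = Y at *
  calc (exp (lam * (th' * t)) - 1) * exp (-(lam * (1 - th)))
      ≤ (exp (lam / 2 * t) * (1 + 2 * (κ * t)) - 1) * (exp (-(lam / 2)) * (1 + 2 * κ)) :=
        mul_le_mul (by linarith) h6 (exp_pos _).le h8
    _ = (Y + 2 * (κ * t) * (exp (lam / 2 * t) * exp (-(lam / 2)))) * (1 + 2 * κ) := by
        rw [← hY]; ring
    _ ≤ (Y + 2 * (κ * t) * 1) * (1 + 2 * κ) := by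
        apply mul_le_mul_of_nonneg_right _ (by linarith)
        have : 0 ≤ 2 * (κ * t) := by linarith
        linarith [mul_le_mul_of_nonneg_left h7 this]
    _ ≤ Y + 8 * (κ * t) := by
        have h10 : κ * Y ≤ κ * t := mul_le_mul_of_nonneg_left hYt hκ0
        have h11 : κ * (κ * t) ≤ 1 * (κ * t) := mul_le_mul_of_nonneg_right hκ1 hkt
        linarith

theorem main_alg {t κ e eps uo oc X Y q : ℝ} (ht0 : 0 ≤ t) (ht1 : t ≤ 1) (he0 : 0 ≤ e)
    (hκ0 : 0 ≤ κ) (hκ1 : κ ≤ 1) (heps : 8 * κ + 19 * e = eps) (hq : 12 * eps ≤ q)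
    (huo1 : 1 / 3 - e ≤ uo) (huo2 : uo ≤ 1 / 3 + e) (hoc : oc ≤ 1 / 3 + e)
    (hX0 : 0 ≤ X) (hXY : X ≤ Y + 8 * (κ * t)) (hYt : Y ≤ t)
    (hYex : (2 - t) * Y ≤ t - t / 2 * q) :
    (uo * (1 - t) + oc) * X + (1 - uo * t) ≤ 1 - (2 * κ + eps) * t := by
  have hkt : 0 ≤ κ * t := mul_nonneg hκ0 ht0
  have het : 0 ≤ e * t := mul_nonneg he0 ht0
  have hc1 : uo * (1 - t) + oc ≤ (2 - t) / 3 + 2 * e := by
    have : uo * (1 - t) ≤ (1 / 3 + e) * (1 - t) :=
      mul_le_mul_of_nonneg_right huo2 (by linarith)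
    linarith
  have hc0 : 0 ≤ (2 - t) / 3 + 2 * e := by linarith
  have h5 : (uo * (1 - t) + oc) * X ≤ ((2 - t) / 3 + 2 * e) * (Y + 8 * (κ * t)) :=
    (mul_le_mul_of_nonneg_right hc1 hX0).trans (mul_le_mul_of_nonneg_left hXY hc0)
  have h8 : e * Y ≤ e * t := mul_le_mul_of_nonneg_left hYt he0
  have h9 : e * (κ * t) ≤ e * (1 * t) :=
    mul_le_mul_of_nonneg_left (mul_le_mul_of_nonneg_right hκ1 ht0) he0
  have h10 : (2 - t) * (κ * t) ≤ 2 * (κ * t) := mul_le_mul_of_nonneg_right (by linarith) hkt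
  have h6 : ((2 - t) / 3 + 2 * e) * (Y + 8 * (κ * t)) ≤
      (t - t / 2 * q) / 3 + 6 * (κ * t) + 18 * (e * t) := by
    have : ((2 - t) / 3 + 2 * e) * (Y + 8 * (κ * t)) =
        (2 - t) * Y / 3 + 8 / 3 * ((2 - t) * (κ * t)) + 2 * (e * Y) + 16 * (e * (κ * t)) := by
      ring
    rw [this]
    linarith
  have h7 : 1 - uo * t ≤ 1 - t / 3 + e * t := by
    have : (1 / 3 - e) * t ≤ uo * t := mul_le_mul_of_nonneg_right huo1 ht0
    linarith
  have h11 : 12 * eps * t ≤ q * t := mul_le_mul_of_nonneg_right hq ht0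
  have h12 : 8 * (κ * t) + 19 * (e * t) = eps * t := by rw [← heps]; ring
  linarith

theorem real_ineq' {Lam eta eps : ℝ} (hLp : 0 < Lam) (hetp : 0 < eta)
    (hete : 8 * (Lam * eta) + 19 * eta = eps) (hepl : eps ≤ 1 / 12)
    (hq : 12 * eps ≤ exp (-(Lam / 2)))
    {t lam th th' uo oc : ℝ} (ht0 : 0 ≤ t) (ht1 : t ≤ 1) (hl0 : 0 ≤ lam)
    (hl1 : lam ≤ Lam) (h1 : |th - 1 / 2| ≤ eta) (h2 : |th' - 1 / 2| ≤ eta)
    (h3 : |uo - 1 / 3| ≤ eta) (h4 : |oc - 1 / 3| ≤ eta) :
    (uo * (1 - t) + oc) * (1 - exp (-(lam * (th' * t)))) * exp (-(lam * (1 - th * (1 - t)))) +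
      exp (-(lam * (th' * t))) * (1 - uo * t) * exp (-(lam * (th * t))) ≤
    exp (-((lam + eps) * t)) := by
  rw [abs_le] at h1 h2 h3 h4
  have hκ0 : 0 ≤ Lam * eta := by positivity
  have hκ1 : Lam * eta ≤ 1 := by linarith
  have heta1 : eta ≤ 1 / 100 := by linarith
  have hlk : lam * eta ≤ Lam * eta := mul_le_mul_of_nonneg_right hl1 hetp.le
  have hu0 : 0 ≤ lam / 2 := by positivity
  obtain ⟨hY0, hYt, hYex⟩ := Y_bounds hu0 ht0 ht1
  have hX0 : 0 ≤ (exp (lam * (th' * t)) - 1) * exp (-(lam * (1 - th))) := by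
    apply mul_nonneg _ (exp_pos _).le
    have : 0 ≤ lam * (th' * t) := mul_nonneg hl0 (mul_nonneg (by linarith) ht0)
    linarith [one_le_exp this]
  have hXY := X_bound (th := th) (th' := th') ht0 ht1 hl0 hκ0 hκ1 hlk (by linarith) (by linarith)
  have hq' : 12 * eps ≤ exp (-(lam / 2)) := hq.trans (exp_le_exp.2 (by linarith))
  have hmain := main_alg (uo := uo) (oc := oc) ht0 ht1 hetp.le hκ0 hκ1 hete hq'
    (by linarith) (by linarith) (by linarith) hX0 hXY hYt hYex
  have hfin : 1 - (2 * (Lam * eta) + eps) * t ≤ exp (lam * (th' * t) + lam * (th * t) -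
      (lam + eps) * t) := by
    refine le_trans ?_ (add_one_le_exp _)
    have h8 := mul_le_mul_of_nonneg_right hlk ht0
    have h5 : -(Lam * eta * t) ≤ lam * (th' - 1 / 2) * t := by
      have h6 : -(lam * eta) ≤ lam * (th' - 1 / 2) := by
        have := mul_le_mul_of_nonneg_left h2.1 hl0; linarith
      have h7 := mul_le_mul_of_nonneg_right h6 ht0
      linarith
    have h5' : -(Lam * eta * t) ≤ lam * (th - 1 / 2) * t := by
      have h6 : -(lam * eta) ≤ lam * (th - 1 / 2) := by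
        have := mul_le_mul_of_nonneg_left h1.1 hl0; linarith
      have h7 := mul_le_mul_of_nonneg_right h6 ht0
      linarith
    linarith
  have hL : (uo * (1 - t) + oc) * (1 - exp (-(lam * (th' * t)))) *
      exp (-(lam * (1 - th * (1 - t)))) +
      exp (-(lam * (th' * t))) * (1 - uo * t) * exp (-(lam * (th * t))) =
      ((uo * (1 - t) + oc) * ((exp (lam * (th' * t)) - 1) * exp (-(lam * (1 - th)))) +
        (1 - uo * t)) * exp (-(lam * (th' * t)) + -(lam * (th * t))) := by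
    have e1 : exp (-(lam * (1 - th * (1 - t)))) =
        exp (-(lam * (1 - th))) * exp (-(lam * (th * t))) := by
      rw [← exp_add]; congr 1; ring
    have e2 : exp (-(lam * (th' * t)) + -(lam * (th * t))) =
        exp (-(lam * (th' * t))) * exp (-(lam * (th * t))) := exp_add _ _
    have e3 : exp (lam * (th' * t)) * exp (-(lam * (th' * t))) = 1 := by
      rw [← exp_add]; simp
    rw [e1, e2]
    calc _ = (uo * (1 - t) + oc) * (exp (lam * (th' * t)) * exp (-(lam * (th' * t))) -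
          exp (-(lam * (th' * t)))) * (exp (-(lam * (1 - th))) * exp (-(lam * (th * t)))) +
          exp (-(lam * (th' * t))) * (1 - uo * t) * exp (-(lam * (th * t))) := by rw [e3]
      _ = _ := by ring
  rw [hL]
  calc _ ≤ exp (lam * (th' * t) + lam * (th * t) - (lam + eps) * t) *
        exp (-(lam * (th' * t)) + -(lam * (th * t))) :=
        mul_le_mul_of_nonneg_right (hmain.trans hfin) (exp_pos _).le
    _ = exp (-((lam + eps) * t)) := by rw [← exp_add]; congr 1; ring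

theorem real_ineq {t lam th th' uo oc : ℝ} (ht0 : 0 ≤ t) (ht1 : t ≤ 1) (hl0 : 0 ≤ lam)
    (hl1 : lam ≤ Lam0) (h1 : |th - 1 / 2| ≤ eta1) (h2 : |th' - 1 / 2| ≤ eta1)
    (h3 : |uo - 1 / 3| ≤ eta1) (h4 : |oc - 1 / 3| ≤ eta1) :
    (uo * (1 - t) + oc) * (1 - exp (-(lam * (th' * t)))) * exp (-(lam * (1 - th * (1 - t)))) +
      exp (-(lam * (th' * t))) * (1 - uo * t) * exp (-(lam * (th * t))) ≤
    exp (-((lam + eps1) * t)) :=
  real_ineq' Lam0_pos eta1_pos eta1_eq eps1_le (by unfold eps1; linarith) ht0 ht1 hl0 hl1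
    h1 h2 h3 h4

/-- The tree is binary for `L` generations from `z` on. -/
def Bin (k : List ℕ → ℕ) (L : ℕ) (z : List ℕ) : Prop :=
  ∀ a : List ℕ, a.length < L → (∀ x ∈ a, x < 2) → k (a ++ z) = 2

theorem Bin.self {k : List ℕ → ℕ} {L : ℕ} {z : List ℕ} (h : Bin k (L + 1) z) : k z = 2 := by
  simpa using h [] (by simp) (by simp)

theorem Bin.child {k : List ℕ → ℕ} {L : ℕ} {z : List ℕ} (h : Bin k (L + 1) z) {i : ℕ}
    (hi : i < 2) : Bin k L (i :: z) := by
  intro a ha hx
  have := h (a ++ [i]) (by simpa using ha) (by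
    intro x hx'
    rcases List.mem_append.1 hx' with h1 | h1
    · exact hx x h1
    · simp at h1; omega)
  simpa using this

theorem Bin.desc {k : List ℕ → ℕ} {z : List ℕ} (a : List ℕ) (hx : ∀ x ∈ a, x < 2) :
    ∀ {L : ℕ}, Bin k (L + a.length) z → Bin k L (a ++ z) := by
  intro L h b hb hxb
  have := h (b ++ a) (by simp; omega) (by
    intro x hx'
    rcases List.mem_append.1 hx' with h1 | h1
    · exact hxb x h1
    · exact hx x h1)
  simpa using this

theorem Bin.mono {k : List ℕ → ℕ} {z : List ℕ} {L L' : ℕ} (h : Bin k L z) (hl : L' ≤ L) :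
    Bin k L' z := fun a ha hx => h a (by omega) hx

theorem Bin.val {k : List ℕ → ℕ} {z : List ℕ} {L : ℕ} (h : Bin k L z) (hz : Val k z)
    (a : List ℕ) (ha : a.length ≤ L) (hx : ∀ x ∈ a, x < 2) : Val k (a ++ z) := by
  induction a with
  | nil => simpa using hz
  | cons i a ih =>
    simp only [List.length_cons] at ha
    refine ⟨?_, ih (by omega) fun x hx' => hx x (by simp [hx'])⟩
    have h0 : k (a ++ z) = 2 := h a (by omega) fun x hx' => hx x (by simp [hx'])
    have h1 : i < 2 := hx i (by simp)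
    exact lt_of_lt_of_eq h1 h0.symm

theorem Bin.entries {k : List ℕ → ℕ} {z : List ℕ} {L : ℕ} (h : Bin k L z)
    (a : List ℕ) (ha : a.length ≤ L) (hv : Val k (a ++ z)) : ∀ x ∈ a, x < 2 := by
  induction a with
  | nil => simp
  | cons i a ih =>
    simp only [List.length_cons] at ha
    obtain ⟨h1, h2⟩ := hv
    have ih' := ih (by omega) h2
    intro x hx
    rcases List.mem_cons.1 hx with rfl | hx
    · have h0 : k (a ++ z) = 2 := h a (by omega) ih'
      exact lt_of_lt_of_eq h1 h0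
    · exact ih' x hx

section close

variable {k : List ℕ → ℕ} (hk : ∀ x, k x = 2 ∨ k x = 5) {n : ℕ}

include hk

theorem C_bin (j : ℕ) : ∀ (d : ℕ) (x : List ℕ), Bin k j x → j ≤ d →
    C k d x ≤ 1 / 2 + (1 / 2) ^ (j + 1) := by
  induction j with
  | zero =>
    intro d x _ _
    have := (C_bounds hk d x).2
    norm_num; linarith
  | succ j ih =>
    intro d x hB hd
    obtain ⟨d, rfl⟩ : ∃ e, d = e + 1 := ⟨d - 1, by omega⟩
    have h2 := hB.self
    simp only [C, h2, Finset.sum_range_succ, Finset.sum_range_zero, zero_add]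
    have h3 := ih d (0 :: x) (hB.child (by norm_num)) (by omega)
    have h4 := ih d (1 :: x) (hB.child (by norm_num)) (by omega)
    have h5 := (C_bounds hk d (0 :: x)).1
    have h6 := (C_bounds hk d (1 :: x)).1
    have h7 : (0 : ℝ) < (1 / 2) ^ (j + 1) := by positivity
    rw [pow_succ (1 / 2 : ℝ) (j + 1)]
    generalize ((1 : ℝ) / 2) ^ (j + 1) = y at *
    rw [div_le_iff₀ (by linarith)]
    nlinarith

theorem cc_bin {K L : ℕ} {z a : List ℕ} (hB : Bin k L z) (hx : ∀ x ∈ a, x < 2)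
    (hL : a.length + 1 + K ≤ L) (hn : z.length + L ≤ n) {j : ℕ} (hj : j < 2) :
    1 / 2 ≤ cc k n (a ++ z) j ∧ cc k n (a ++ z) j ≤ 1 / 2 + (1 / 2) ^ (K + 1) := by
  refine ⟨cc_ge hk n _ _, ?_⟩
  unfold cc
  apply C_bin hk
  · have : Bin k (K + 1) (a ++ z) := Bin.desc a hx (hB.mono (by omega))
    exact this.child hj
  · simp only [List.length_append]; omega

theorem U_bin {K L : ℕ} {z : List ℕ} (hz : Val k z) (hB : Bin k L z)
    (hn : z.length + L ≤ n) : ∀ a : List ℕ, (∀ x ∈ a, x < 2) → a.length + K ≤ L →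
    |U k n (a ++ z) - 1 / 2| ≤ (1 / 2) ^ (a.length + 1) + (1 / 2) ^ (K + 1) := by
  intro a
  induction a with
  | nil =>
    intro _ _
    obtain ⟨h1, h2⟩ := U_bounds hk n hz
    have : (0 : ℝ) < (1 / 2) ^ (K + 1) := by positivity
    simp only [List.nil_append, List.length_nil, zero_add, pow_one]
    rw [abs_le]; constructor <;> linarith
  | cons i a ih =>
    intro hx ha
    simp only [List.length_cons] at ha
    have hx' : ∀ x ∈ a, x < 2 := fun x h => hx x (by simp [h])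
    have hi : i < 2 := hx i (by simp)
    have ih' := ih hx' (by omega)
    have hk2 : k (a ++ z) = 2 := hB a (by omega) hx'
    have hv : Val k (a ++ z) := hB.val hz a (by omega) hx'
    obtain ⟨h1, h2⟩ := U_bounds hk n hv
    have hc0 := cc_bin hk (K := K) hB hx' (by omega) hn (j := 0) (by norm_num)
    have hc1 := cc_bin hk (K := K) hB hx' (by omega) hn (j := 1) (by norm_num)
    have hS : U k n (a ++ z) + DD k n (a ++ z) - cc k n (a ++ z) i =
        U k n (a ++ z) + cc k n (a ++ z) (1 - i) := by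
      unfold DD
      rw [hk2]
      simp only [Finset.sum_range_succ, Finset.sum_range_zero, zero_add]
      interval_cases i
      · simp only [Nat.sub_zero]; ring
      · simp only [Nat.sub_self]; ring
    simp only [List.cons_append, U, hS]
    obtain ⟨x, hxd, hx0, hx1⟩ : ∃ x, cc k n (a ++ z) (1 - i) = 1 / 2 + x ∧ 0 ≤ x ∧
        x ≤ (1 / 2) ^ (K + 1) := by
      refine ⟨cc k n (a ++ z) (1 - i) - 1 / 2, by ring, ?_, ?_⟩
      · interval_cases i
        · simpa using hc1.1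
        · simpa using hc0.1
      · interval_cases i
        · simp only [Nat.sub_zero]; linarith [hc1.2]
        · simp only [Nat.sub_self]; linarith [hc0.2]
    rw [hxd]
    simp only [List.length_cons]
    rw [pow_succ (1 / 2 : ℝ) (a.length + 1)]
    generalize U k n (a ++ z) = v at *
    have hp1 : (0 : ℝ) < (1 / 2) ^ (a.length + 1) := by positivity
    generalize ((1 : ℝ) / 2) ^ (a.length + 1) = p at *
    generalize ((1 : ℝ) / 2) ^ (K + 1) = y at *
    rw [abs_le] at ih' ⊢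
    have hden : 0 < 1 + (v + (1 / 2 + x)) := by linarith
    have hq : (v + (1 / 2 + x)) / (1 + (v + (1 / 2 + x))) - 1 / 2 =
        (v - 1 / 2 + x) / (2 * (1 + (v + (1 / 2 + x)))) := by
      field_simp; ring
    rw [hq]
    constructor
    · rw [le_div_iff₀ (by linarith)]; nlinarith
    · rw [div_le_iff₀ (by linarith)]; nlinarith

/-- Closeness of all weights. -/
theorem weights_bin {K L : ℕ} (hK : 2 ≤ K) {z a : List ℕ} (hz : Val k z) (hB : Bin k L z)
    (hn : z.length + L ≤ n) (hx : ∀ x ∈ a, x < 2) (ha1 : K ≤ a.length)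
    (ha2 : a.length + 1 + K ≤ L) :
    |up k n (a ++ z) none - 1 / 3| ≤ (1 / 2) ^ K ∧
    ∀ j < 2, |wt k n (a ++ z) none j - 1 / 3| ≤ (1 / 2) ^ K ∧
      |up k n (a ++ z) (some j) - 1 / 2| ≤ (1 / 2) ^ K := by
  have hU := U_bin hk (K := K) hz hB hn a hx (by omega)
  have hk2 : k (a ++ z) = 2 := hB a (by omega) hx
  have hv : Val k (a ++ z) := hB.val hz a (by omega) hx
  have hc0 := cc_bin hk (K := K) hB hx (by omega) hn (j := 0) (by norm_num)
  have hc1 := cc_bin hk (K := K) hB hx (by omega) hn (j := 1) (by norm_num)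
  have hD : DD k n (a ++ z) = cc k n (a ++ z) 0 + cc k n (a ++ z) 1 := by
    unfold DD
    rw [hk2]
    simp only [Finset.sum_range_succ, Finset.sum_range_zero, zero_add]
  have hpow : ((1 : ℝ) / 2) ^ (a.length + 1) ≤ (1 / 2) ^ (K + 1) :=
    pow_le_pow_of_le_one (by norm_num) (by norm_num) (by omega)
  have hK1 : ((1 : ℝ) / 2) ^ (K + 1) = (1 / 2) ^ K / 2 := by rw [pow_succ]; ring
  have hK4 : ((1 : ℝ) / 2) ^ K ≤ 1 / 4 := by
    calc ((1 : ℝ) / 2) ^ K ≤ (1 / 2) ^ 2 := pow_le_pow_of_le_one (by norm_num) (by norm_num) hK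
      _ = 1 / 4 := by norm_num
  have hK0 : 0 < ((1 : ℝ) / 2) ^ K := by positivity
  rw [hK1] at hpow hU hc0 hc1
  have hU' : |U k n (a ++ z) - 1 / 2| ≤ (1 / 2) ^ K := by linarith
  rw [abs_le] at hU'
  have e1 : up k n (a ++ z) none = U k n (a ++ z) /
      (U k n (a ++ z) + (cc k n (a ++ z) 0 + cc k n (a ++ z) 1)) := by
    simp only [up, SS, hD]
  have e2 : wt k n (a ++ z) none 0 = cc k n (a ++ z) 0 /
      (U k n (a ++ z) + (cc k n (a ++ z) 0 + cc k n (a ++ z) 1)) := by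
    simp only [wt, SS, hD, reduceCtorEq, if_false]
  have e3 : wt k n (a ++ z) none 1 = cc k n (a ++ z) 1 /
      (U k n (a ++ z) + (cc k n (a ++ z) 1 + cc k n (a ++ z) 0)) := by
    simp only [wt, SS, hD, reduceCtorEq, if_false]
    rw [add_comm (cc k n (a ++ z) 0)]
  have e4 : up k n (a ++ z) (some 0) = U k n (a ++ z) /
      (U k n (a ++ z) + cc k n (a ++ z) 1) := by
    simp only [up, SS, hD]
    congr 1; ring
  have e5 : up k n (a ++ z) (some 1) = U k n (a ++ z) /
      (U k n (a ++ z) + cc k n (a ++ z) 0) := by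
    simp only [up, SS, hD]
    congr 1; ring
  have e6 : ∀ j < 2, |wt k n (a ++ z) none j - 1 / 3| ≤ (1 / 2) ^ K ∧
      |up k n (a ++ z) (some j) - 1 / 2| ≤ (1 / 2) ^ K ↔
      ((|wt k n (a ++ z) none 0 - 1 / 3| ≤ (1 / 2) ^ K ∧
      |up k n (a ++ z) (some 0) - 1 / 2| ≤ (1 / 2) ^ K) ∧
      (|wt k n (a ++ z) none 1 - 1 / 3| ≤ (1 / 2) ^ K ∧
      |up k n (a ++ z) (some 1) - 1 / 2| ≤ (1 / 2) ^ K)) ∨
      (|wt k n (a ++ z) none j - 1 / 3| ≤ (1 / 2) ^ K ∧
      |up k n (a ++ z) (some j) - 1 / 2| ≤ (1 / 2) ^ K) := by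
    intro j hj
    interval_cases j <;> tauto
  suffices h : |up k n (a ++ z) none - 1 / 3| ≤ (1 / 2) ^ K ∧
      ((|wt k n (a ++ z) none 0 - 1 / 3| ≤ (1 / 2) ^ K ∧
      |up k n (a ++ z) (some 0) - 1 / 2| ≤ (1 / 2) ^ K) ∧
      (|wt k n (a ++ z) none 1 - 1 / 3| ≤ (1 / 2) ^ K ∧
      |up k n (a ++ z) (some 1) - 1 / 2| ≤ (1 / 2) ^ K)) from
    ⟨h.1, fun j hj => (e6 j hj).2 (Or.inl h.2)⟩
  clear e6
  rw [e1, e2, e3, e4, e5]
  clear e1 e2 e3 e4 e5
  generalize U k n (a ++ z) = v at *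
  generalize cc k n (a ++ z) 0 = c0 at *
  generalize cc k n (a ++ z) 1 = c1 at *
  have key : ∀ c c' : ℝ, (1 / 2 ≤ c ∧ c ≤ 1 / 2 + (1 / 2) ^ K / 2) →
      (1 / 2 ≤ c' ∧ c' ≤ 1 / 2 + (1 / 2) ^ K / 2) →
      |c / (v + (c + c')) - 1 / 3| ≤ (1 / 2) ^ K ∧ |v / (v + c') - 1 / 2| ≤ (1 / 2) ^ K := by
    intro c c' hc hc'
    generalize ((1 : ℝ) / 2) ^ K = e at *
    have h1 : 0 < v + (c + c') := by linarith
    have h2 : 0 < v + c' := by linarith
    constructor
    · have hq : c / (v + (c + c')) - 1 / 3 = (3 * c - (v + (c + c'))) / (3 * (v + (c + c'))) := by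
        field_simp
      rw [hq, abs_le]
      constructor
      · rw [le_div_iff₀ (by linarith)]; nlinarith
      · rw [div_le_iff₀ (by linarith)]; nlinarith
    · have hq : v / (v + c') - 1 / 2 = (v - c') / (2 * (v + c')) := by
        field_simp; ring
      rw [hq, abs_le]
      constructor
      · rw [le_div_iff₀ (by linarith)]; nlinarith
      · rw [div_le_iff₀ (by linarith)]; nlinarith
  refine ⟨?_, ?_⟩
  · generalize ((1 : ℝ) / 2) ^ K = e at *
    have h1 : 0 < v + (c0 + c1) := by linarith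
    have hq : v / (v + (c0 + c1)) - 1 / 3 = (3 * v - (v + (c0 + c1))) / (3 * (v + (c0 + c1))) := by
      field_simp
    rw [hq, abs_le]
    constructor
    · rw [le_div_iff₀ (by linarith)]; nlinarith
    · rw [div_le_iff₀ (by linarith)]; nlinarith
  · exact ⟨key c0 c1 hc0 hc1, key c1 c0 hc1 hc0⟩

/-- One step in a binary region. -/
theorem phase1_step {i : ℕ} {z : List ℕ} (hw : Val k (i :: z)) (hn : (i :: z).length < n)
    (hk2 : k (i :: z) = 2) (h3 : |up k n (i :: z) none - 1 / 3| ≤ eta1)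
    (h4 : ∀ j < 2, |wt k n (i :: z) none j - 1 / 3| ≤ eta1 ∧
      |up k n (i :: z) (some j) - 1 / 2| ≤ eta1) {lam : ℝ} (hl0 : 0 ≤ lam) (hl1 : lam ≤ Lam0)
    (hch : ∀ j < 2, ∀ s, 0 ≤ s → s ≤ 1 → ff k n (j :: i :: z) s ≤ exp (-(lam * (1 - s)))) :
    ∀ s, 0 ≤ s → s ≤ 1 → ff k n (i :: z) s ≤ exp (-((lam + eps1) * (1 - s))) := by
  intro s hs0 hs1
  have hup0 : ∀ j < 2, 0 ≤ up k n (i :: z) (some j) := fun j hj =>
    up_nonneg hk n hw (leg_some (by omega))
  have hbj : ∀ j < 2, 0 ≤ 1 - up k n (i :: z) (some j) * (1 - s) ∧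
      1 - up k n (i :: z) (some j) * (1 - s) ≤ 1 := fun j hj =>
    bj_bounds hk hw hs0 hs1 (by omega)
  apply F2 hk hw hn hs0 hs1 (fun c => exp (-(lam * (up k n (i :: z) (some (1 - c)) * (1 - s)))))
    (fun c _ => (exp_pos _).le)
  · intro c hc j hj hjc
    rw [hk2] at hc hj
    have hj' : j = 1 - c := by omega
    subst hj'
    refine (hch (1 - c) hj _ (hbj _ hj).1 (hbj _ hj).2).trans (le_of_eq ?_)
    congr 1; ring
  · intro c hc
    rw [hk2] at hc
    have hc' : 1 - c < 2 := by omega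
    have h5 := real_ineq (t := 1 - s) (lam := lam) (th := up k n (i :: z) (some c))
      (th' := up k n (i :: z) (some (1 - c))) (uo := up k n (i :: z) none)
      (oc := wt k n (i :: z) none c) (by linarith) (by linarith) hl0 hl1 (h4 c hc).2
      (h4 _ hc').2 h3 (h4 c hc).1
    rw [sub_sub_cancel] at h5
    refine le_trans (add_le_add ?_ ?_) h5
    · have h6 := hch c hc (up k n (i :: z) (some c) * s) (mul_nonneg (hup0 c hc) hs0) (by
        have := up_le hk n hw (i := c) (by omega)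
        nlinarith)
      refine (mul_le_mul_of_nonneg_left h6 ?_).trans (le_of_eq ?_)
      · have h7 := up_nonneg hk n hw (leg_none (i :: z))
        have h8 := wt_nonneg hk n hw (leg_none (i :: z)) c
        have h9 : exp (-(lam * (up k n (i :: z) (some (1 - c)) * (1 - s)))) ≤ 1 := by
          rw [exp_le_one_iff]
          have := mul_nonneg hl0 (mul_nonneg (hup0 _ hc') (by linarith : 0 ≤ 1 - s))
          linarith
        exact mul_nonneg (add_nonneg (mul_nonneg h7 hs0) h8) (by linarith)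
      · ring
    · have h6 := hch c hc _ (hbj c hc).1 (hbj c hc).2
      refine (mul_le_mul_of_nonneg_left h6 ?_).trans (le_of_eq ?_)
      · have := (b_bounds (up_nonneg hk n hw (leg_none _)) hs0 hs1
          (wt_nonneg hk n hw (leg_none _)) (up_add_sum hk n hw (leg_none _))).1
        exact mul_nonneg (exp_pos _).le this
      · rw [show (1 : ℝ) - (1 - up k n (i :: z) (some c) * (1 - s)) =
          up k n (i :: z) (some c) * (1 - s) by ring]

/-- All vertices at depth `K` below a good vertex are settled. -/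
theorem phase1_main {K N : ℕ} (hK : 2 ≤ K) (hKe : ((1 : ℝ) / 2) ^ K ≤ eta1)
    (hN1 : ∀ r < N, (r : ℝ) * eps1 ≤ Lam0) {z : List ℕ} (hz : Val k z)
    (hB : Bin k (N + 2 * K) z) (hn : z.length + (N + 2 * K) ≤ n) (r : ℕ) :
    r ≤ N → ∀ a : List ℕ, (∀ x ∈ a, x < 2) → a.length = K + (N - r) →
      ∀ s, 0 ≤ s → s ≤ 1 → ff k n (a ++ z) s ≤ exp (-(r * eps1 * (1 - s))) := by
  induction r with
  | zero =>
    intro _ a hx ha s hs0 hs1
    cases a with
    | nil => simp at ha; omega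
    | cons i a =>
      have hv : Val k (i :: (a ++ z)) := hB.val hz (i :: a) (by omega) hx
      have := ff_le_one' hk (n := n) hv (by
        simp only [List.length_cons, List.length_append] at ha ⊢; omega) hs0 hs1
      simpa using this
  | succ r ih =>
    intro hr a hx ha s hs0 hs1
    cases a with
    | nil => simp at ha; omega
    | cons i a =>
      have hv : Val k (i :: (a ++ z)) := hB.val hz (i :: a) (by omega) hx
      have hW := weights_bin hk hK hz hB hn hx (by omega) (by omega)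
      have hk2 : k (i :: (a ++ z)) = 2 := hB (i :: a) (by omega) hx
      have := phase1_step hk hv (n := n) (by
        simp only [List.length_cons, List.length_append] at ha ⊢; omega) hk2
        (hW.1.trans hKe) (fun j hj => ⟨((hW.2 j hj).1).trans hKe, ((hW.2 j hj).2).trans hKe⟩)
        (lam := r * eps1) (mul_nonneg (Nat.cast_nonneg r) eps1_pos.le) (hN1 r (by omega))
        (fun j hj s hs0 hs1 => by
          have := ih (by omega) (j :: i :: a) (by
            intro x hx'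
            rcases List.mem_cons.1 hx' with rfl | h
            · exact hj
            · exact hx x h) (by simp only [List.length_cons] at ha ⊢; omega) s hs0 hs1
          simpa using this) s hs0 hs1
      refine this.trans (le_of_eq ?_)
      congr 1
      push_cast
      ring

end close

end Pool.Agent.W847.Frog
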