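import Pool.Agent.W847.Frog.Bounds

/-!
# The growth step which holds in every environment
-/

set_option autoImplicit false

open Finset Real

namespace Pool.Agent.W847.Frog

section F

variable {k : List ℕ → ℕ} (hk : ∀ x, k x = 2 ∨ k x = 5) {n : ℕ}

include hk

theorem bj_bounds {i : ℕ} {z : List ℕ} (hw : Val k (i :: z)) {s : ℝ} (hs0 : 0 ≤ s) (hs1 : s ≤ 1)
    {j : ℕ} (hj : j < k (i :: z)) : 0 ≤ 1 - up k n (i :: z) (some j) * (1 - s) ∧
      1 - up k n (i :: z) (some j) * (1 - s) ≤ 1 :=
  b_bounds (up_nonneg hk n hw (leg_some hj)) hs0 hs1 (wt_nonneg hk n hw (leg_some hj))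
    (up_add_sum hk n hw (leg_some hj))

theorem ff_le_one' {i : ℕ} {z : List ℕ} (hw : Val k (i :: z)) (hn : (i :: z).length ≤ n)
    {s : ℝ} (hs0 : 0 ≤ s) (hs1 : s ≤ 1) : ff k n (i :: z) s ≤ 1 :=
  ff_le_one hk (n - (i :: z).length) hw (by omega) hs0 hs1

/-- First form of the bound. -/
theorem F2 {i : ℕ} {z : List ℕ} (hw : Val k (i :: z)) (hn : (i :: z).length < n) {s R : ℝ}
    (hs0 : 0 ≤ s) (hs1 : s ≤ 1) (m : ℕ → ℝ) (hm0 : ∀ c < k (i :: z), 0 ≤ m c)
    (hm : ∀ c < k (i :: z), ∀ j < k (i :: z), j ≠ c →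
      ff k n (j :: i :: z) (1 - up k n (i :: z) (some j) * (1 - s)) ≤ m c)
    (hR : ∀ c < k (i :: z), (up k n (i :: z) none * s + wt k n (i :: z) none c) * (1 - m c) *
        ff k n (c :: i :: z) (up k n (i :: z) (some c) * s) +
      m c * (1 - up k n (i :: z) none * (1 - s)) *
        ff k n (c :: i :: z) (1 - up k n (i :: z) (some c) * (1 - s)) ≤ R) :
    ff k n (i :: z) s ≤ R := by
  apply ff_le hk hw hn
    (fun c => (up k n (i :: z) none * s + wt k n (i :: z) none c) * (1 - m c))
    (fun c => m c * (1 - up k n (i :: z) none * (1 - s)))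
    (fun c => up k n (i :: z) (some c) * s)
    (fun c => 1 - up k n (i :: z) (some c) * (1 - s))
  · intro c hc l
    exact Mf_le (up_nonneg hk n hw (leg_none _)) (up_nonneg hk n hw (leg_some hc)) hs0 hs1
        (wt_nonneg hk n hw (leg_none _)) (wt_nonneg hk n hw (leg_some hc))
        (up_add_sum hk n hw (leg_none _)) (up_add_sum hk n hw (leg_some hc))
        (a := fun j => ff k n (j :: i :: z) (1 - up k n (i :: z) (some j) * (1 - s)))
        (fun j hj => ff_nonneg hk (bj_bounds hk hw hs0 hs1 hj).1) (wt_self hk) hc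
        (fun j hj => ff_le_one' hk (i := j) (z := i :: z) ⟨hj, hw⟩
          (by simp only [List.length_cons] at hn ⊢; omega)
          (bj_bounds hk hw hs0 hs1 hj).1 (bj_bounds hk hw hs0 hs1 hj).2)
        (hm c hc) (hm0 c hc) l
  · exact hR

/-- Second form of the bound. -/
theorem F3 {i : ℕ} {z : List ℕ} (hw : Val k (i :: z)) (hn : (i :: z).length < n) {s R : ℝ}
    (hs0 : 0 ≤ s) (hs1 : s ≤ 1) (m : ℕ → ℝ)
    (hm : ∀ j < k (i :: z),
      ff k n (j :: i :: z) (1 - up k n (i :: z) (some j) * (1 - s)) ≤ m j)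
    (hm1 : ∀ j < k (i :: z), m j ≤ 1)
    (hR : ∀ c < k (i :: z), (1 - up k n (i :: z) none * (1 - s)) *
        (∏ j ∈ (range (k (i :: z))).erase c, m j) *
        ff k n (c :: i :: z) (1 - up k n (i :: z) (some c) * (1 - s)) +
      (∑ j ∈ (range (k (i :: z))).erase c, (1 - m j)) * ff k n (c :: i :: z) (9 / 10) ≤ R) :
    ff k n (i :: z) s ≤ R := by
  apply ff_le hk hw hn
    (fun c => (1 - up k n (i :: z) none * (1 - s)) *
        (∏ j ∈ (range (k (i :: z))).erase c, m j))
    (fun c => ∑ j ∈ (range (k (i :: z))).erase c, (1 - m j))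
    (fun c => 1 - up k n (i :: z) (some c) * (1 - s)) (fun _ => 9 / 10)
  · intro c hc l
    exact Mf_prod_le (up_nonneg hk n hw (leg_none _)) (up_nonneg hk n hw (leg_some hc)) hs0 hs1
        (wt_nonneg hk n hw (leg_none _)) (wt_nonneg hk n hw (leg_some hc))
        (up_add_sum hk n hw (leg_none _)) (up_add_sum hk n hw (leg_some hc))
        (a := fun j => ff k n (j :: i :: z) (1 - up k n (i :: z) (some j) * (1 - s)))
        (fun j hj => ff_nonneg hk (bj_bounds hk hw hs0 hs1 hj).1) (wt_self hk) hc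
        hm hm1 (by norm_num)
        (fun j _ hjc => by linarith [wt_some_ge hk n hw hc (Ne.symm hjc)]) l
  · exact hR

end F

/-- The property of generating functions which improves in every environment. -/
structure HH (k : List ℕ → ℕ) (n : ℕ) (lam : ℝ) (w : List ℕ) : Prop where
  a : ∀ t, 0 ≤ t → t ≤ 1 / 1690 → ff k n w (1 - t) ≤ exp (-(lam * psi k n w * t))
  b : ff k n w (1 - 1 / 130) ≤ exp (-(15 / 32 * (1 / 1690) * lam))
  c : ff k n w (9 / 10) ≤ exp (-(7 / 8 * (1 / 1690) * lam))

/-- The threshold. -/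
noncomputable def Lam0 : ℝ := 10 ^ 11

section HH

variable {k : List ℕ → ℕ} (hk : ∀ x, k x = 2 ∨ k x = 5) {n : ℕ}

include hk

theorem HH.mono {i : ℕ} {z : List ℕ} (hw : Val k (i :: z)) {lam lam' : ℝ}
    (h : HH k n lam (i :: z)) (hl : lam' ≤ lam) : HH k n lam' (i :: z) := by
  have hpsi := psi_bounds hk n hw
  refine ⟨?_, ?_, ?_⟩
  · intro t h0 h1
    refine (h.a t h0 h1).trans (exp_le_exp.2 ?_)
    have : lam' * psi k n (i :: z) * t ≤ lam * psi k n (i :: z) * t :=
      mul_le_mul_of_nonneg_right (mul_le_mul_of_nonneg_right hl (by linarith)) h0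
    linarith
  · refine h.b.trans (exp_le_exp.2 ?_); linarith
  · refine h.c.trans (exp_le_exp.2 ?_); linarith

theorem HH.of_phase1 {i : ℕ} {z : List ℕ} (hw : Val k (i :: z)) {lam : ℝ} (hl : 0 ≤ lam)
    (h : ∀ s, 0 ≤ s → s ≤ 1 → ff k n (i :: z) s ≤ exp (-(lam * (1 - s)))) :
    HH k n lam (i :: z) := by
  have hpsi := psi_bounds hk n hw
  refine ⟨?_, ?_, ?_⟩
  · intro t h0 h1
    refine (h (1 - t) (by linarith) (by linarith)).trans (exp_le_exp.2 ?_)
    have : lam * t * psi k n (i :: z) ≤ lam * t * 1 :=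
      mul_le_mul_of_nonneg_left (by linarith) (mul_nonneg hl h0)
    nlinarith
  · refine (h (1 - 1 / 130) (by norm_num) (by norm_num)).trans (exp_le_exp.2 ?_)
    nlinarith
  · refine (h (9 / 10) (by norm_num) (by norm_num)).trans (exp_le_exp.2 ?_)
    nlinarith

end HH

/-- Elementary estimate: `exp (-x)` is small. -/
theorem exp_neg_le {x : ℝ} (hx : 0 ≤ x) : exp (-x) ≤ 1 / (1 + x) := by
  rw [exp_neg, inv_eq_one_div]
  apply one_div_le_one_div_of_le (by linarith)
  linarith [add_one_le_exp x]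

theorem num_c {lam : ℝ} (hl : Lam0 ≤ lam) :
    11 / 12 * exp (-(7 / 8 * (1 / 1690) * lam)) +
      exp (-(15 / 32 * (1 / 1690) * lam)) * exp (-(15 / 32 * (1 / 1690) * lam)) ≤
    exp (-(7 / 8 * (1 / 1690) * (lam + 1 / 10))) := by
  have hl' : (10 : ℝ) ^ 11 ≤ lam := hl
  have h1 : exp (-(15 / 32 * (1 / 1690) * lam)) * exp (-(15 / 32 * (1 / 1690) * lam)) =
      exp (-(7 / 8 * (1 / 1690) * lam)) * exp (-(1 / 16 * (1 / 1690) * lam)) := by
    rw [← exp_add, ← exp_add]; congr 1; ring
  have h2 : exp (-(7 / 8 * (1 / 1690) * (lam + 1 / 10))) =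
      exp (-(7 / 8 * (1 / 1690) * lam)) * exp (-(7 / 8 * (1 / 1690) * (1 / 10))) := by
    rw [← exp_add]; congr 1; ring
  rw [h1, h2]
  have h3 : exp (-(1 / 16 * (1 / 1690) * lam)) ≤ 1 / 100 := by
    refine (exp_neg_le (by linarith)).trans ?_
    rw [div_le_div_iff₀ (by linarith) (by norm_num)]
    linarith
  have h4 : 1 - 1 / 1000 ≤ exp (-(7 / 8 * (1 / 1690) * (1 / 10))) := by
    have := add_one_le_exp (-(7 / 8 * (1 / 1690) * (1 / 10) : ℝ))
    refine le_trans ?_ this
    norm_num
  have h5 := exp_pos (-(7 / 8 * (1 / 1690) * lam))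
  nlinarith

theorem num_b {lam : ℝ} (hl : Lam0 ≤ lam) :
    exp (-(7 / 8 * (1 / 1690) * lam)) + exp (-(1 / 4 * (1 / 1690) * lam)) *
      exp (-(1 / 4 * (1 / 1690) * lam)) ≤ exp (-(15 / 32 * (1 / 1690) * (lam + 1 / 10))) := by
  have hl' : (10 : ℝ) ^ 11 ≤ lam := hl
  have h1 : exp (-(1 / 4 * (1 / 1690) * lam)) * exp (-(1 / 4 * (1 / 1690) * lam)) =
      exp (-(15 / 32 * (1 / 1690) * lam)) * exp (-(1 / 32 * (1 / 1690) * lam)) := by
    rw [← exp_add, ← exp_add]; congr 1; ring
  have h1' : exp (-(7 / 8 * (1 / 1690) * lam)) =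
      exp (-(15 / 32 * (1 / 1690) * lam)) * exp (-(13 / 32 * (1 / 1690) * lam)) := by
    rw [← exp_add]; congr 1; ring
  have h2 : exp (-(15 / 32 * (1 / 1690) * (lam + 1 / 10))) =
      exp (-(15 / 32 * (1 / 1690) * lam)) * exp (-(15 / 32 * (1 / 1690) * (1 / 10))) := by
    rw [← exp_add]; congr 1; ring
  rw [h1, h2, h1']
  have h3 : exp (-(1 / 32 * (1 / 1690) * lam)) ≤ 1 / 100 := by
    refine (exp_neg_le (by linarith)).trans ?_
    rw [div_le_div_iff₀ (by linarith) (by norm_num)]
    linarith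
  have h3' : exp (-(13 / 32 * (1 / 1690) * lam)) ≤ 1 / 100 := by
    refine (exp_neg_le (by linarith)).trans ?_
    rw [div_le_div_iff₀ (by linarith) (by norm_num)]
    linarith
  have h4 : 1 - 1 / 1000 ≤ exp (-(15 / 32 * (1 / 1690) * (1 / 10))) := by
    have := add_one_le_exp (-(15 / 32 * (1 / 1690) * (1 / 10) : ℝ))
    refine le_trans ?_ this
    norm_num
  have h5 := exp_pos (-(15 / 32 * (1 / 1690) * lam))
  nlinarith

theorem num_a {lam : ℝ} (hl : Lam0 ≤ lam) :
    10 * lam * exp (-(7 / 8 * (1 / 1690) * lam)) ≤ exp (-(5 / 6 * (1 / 1690) * lam)) := by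
  have hl' : (10 : ℝ) ^ 11 ≤ lam := hl
  have h1 : exp (-(5 / 6 * (1 / 1690) * lam)) =
      exp (-(7 / 8 * (1 / 1690) * lam)) * exp (1 / 24 * (1 / 1690) * lam) := by
    rw [← exp_add]; congr 1; ring
  rw [h1]
  have h2 : 10 * lam ≤ exp (1 / 24 * (1 / 1690) * lam) := by
    refine le_trans ?_ (quadratic_le_exp_of_nonneg (by linarith))
    nlinarith
  have h5 := exp_pos (-(7 / 8 * (1 / 1690) * lam))
  nlinarith

section step

variable {k : List ℕ → ℕ} (hk : ∀ x, k x = 2 ∨ k x = 5) {n : ℕ}

include hk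

theorem own_le {i : ℕ} {z : List ℕ} (hw : Val k (i :: z)) {c : ℕ} (hc : c < k (i :: z)) {s : ℝ}
    (hs1 : s ≤ 1) : up k n (i :: z) none * s + wt k n (i :: z) none c ≤ 11 / 12 := by
  have h1 := up_add_sum hk n hw (leg_none (i :: z))
  rw [← Finset.add_sum_erase _ _ (Finset.mem_range.2 hc)] at h1
  have h2 : (1 : ℝ) / 12 ≤ ∑ j ∈ (range (k (i :: z))).erase c, wt k n (i :: z) none j := by
    have hne : ((range (k (i :: z))).erase c).Nonempty := by
      rw [← Finset.card_pos, Finset.card_erase_of_mem (Finset.mem_range.2 hc), Finset.card_range]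
      have := k_ge hk (i :: z); omega
    obtain ⟨j, hj⟩ := hne
    exact (wt_none_ge hk n hw j).trans (Finset.single_le_sum
      (f := fun j => wt k n (i :: z) none j)
      (fun j _ => wt_nonneg hk n hw (leg_none _) j) hj)
  have h3 := up_nonneg hk n hw (leg_none (i :: z))
  nlinarith

/-- The growth step. -/
theorem HH.step {i : ℕ} {z : List ℕ} (hw : Val k (i :: z)) (hn : (i :: z).length + 1 < n)
    {lam : ℝ} (hl : Lam0 ≤ lam) (hch : ∀ j < k (i :: z), HH k n lam (j :: i :: z)) :
    HH k n (lam + 1 / 10) (i :: z) := by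
  have hn' : (i :: z).length < n := by omega
  have hl' : (10 : ℝ) ^ 11 ≤ lam := hl
  have hl0 : 0 ≤ lam := by linarith
  have hup0 : ∀ j < k (i :: z), 0 ≤ up k n (i :: z) (some j) := fun j hj =>
    up_nonneg hk n hw (leg_some hj)
  have huo := up_nonneg hk n hw (leg_none (i :: z))
  have hff0 : ∀ w s, 0 ≤ s → 0 ≤ ff k n w s := fun w s hs => ff_nonneg hk hs
  have h3 : ∀ c < k (i :: z), ∀ s, 0 ≤ s → s ≤ 1 →
      ff k n (c :: i :: z) (up k n (i :: z) (some c) * s) ≤
        exp (-(7 / 8 * (1 / 1690) * lam)) := by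
    intro c hc s hs0 hs1
    refine (ff_mono hk (mul_nonneg (hup0 c hc) hs0) ?_).trans (hch c hc).c
    have := up_le hk n hw hc
    nlinarith
  have hbo : ∀ s : ℝ, 0 ≤ s → s ≤ 1 → 0 ≤ 1 - up k n (i :: z) none * (1 - s) ∧
      1 - up k n (i :: z) none * (1 - s) ≤ 1 := fun s hs0 hs1 =>
    b_bounds huo hs0 hs1 (wt_nonneg hk n hw (leg_none _)) (up_add_sum hk n hw (leg_none _))
  refine ⟨?_, ?_, ?_⟩
  · intro t ht0 ht1
    have hpsi := psi_bounds hk n hw
    have hpsiu := psi_le_up hk n hw
    have hm : ∀ j < k (i :: z), ff k n (j :: i :: z)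
        (1 - up k n (i :: z) (some j) * (1 - (1 - t))) ≤
        exp (-(lam * psi k n (j :: i :: z) * (up k n (i :: z) (some j) * t))) := by
      intro j hj
      have := (hch j hj).a (up k n (i :: z) (some j) * t) (mul_nonneg (hup0 j hj) ht0)
        (by have := up_le hk n hw hj; nlinarith)
      rwa [sub_sub_cancel]
    have hpj : ∀ j < k (i :: z), 0 ≤ lam * psi k n (j :: i :: z) *
        (up k n (i :: z) (some j) * t) := by
      intro j hj
      have := psi_bounds hk n (a := j) (w := i :: z) ⟨hj, hw⟩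
      exact mul_nonneg (mul_nonneg hl0 (by linarith)) (mul_nonneg (hup0 j hj) ht0)
    have hsum : ∑ j ∈ range (k (i :: z)), lam * psi k n (j :: i :: z) *
        (up k n (i :: z) (some j) * t) = lam * psi k n (i :: z) * t := by
      rw [← psi_sum hk n hw hn, Finset.mul_sum, Finset.sum_mul]
      exact Finset.sum_congr rfl fun j _ => by ring
    have hm1 : ∀ j < k (i :: z),
        exp (-(lam * psi k n (j :: i :: z) * (up k n (i :: z) (some j) * t))) ≤ 1 := by
      intro j hj
      rw [exp_le_one_iff]; linarith [hpj j hj]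
    apply F3 hk hw hn' (by linarith) (by linarith)
      (fun j => exp (-(lam * psi k n (j :: i :: z) * (up k n (i :: z) (some j) * t)))) hm hm1
    intro c hc
    have hprod : (∏ j ∈ (range (k (i :: z))).erase c,
        exp (-(lam * psi k n (j :: i :: z) * (up k n (i :: z) (some j) * t)))) *
        exp (-(lam * psi k n (c :: i :: z) * (up k n (i :: z) (some c) * t))) =
        exp (-(lam * psi k n (i :: z) * t)) := by
      rw [mul_comm, Finset.mul_prod_erase (range (k (i :: z))) (fun j => exp (-(lam *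
        psi k n (j :: i :: z) * (up k n (i :: z) (some j) * t)))) (Finset.mem_range.2 hc),
        ← exp_sum, Finset.sum_neg_distrib, hsum]
    have hprod0 : 0 ≤ ∏ j ∈ (range (k (i :: z))).erase c,
        exp (-(lam * psi k n (j :: i :: z) * (up k n (i :: z) (some j) * t))) :=
      Finset.prod_nonneg fun j _ => (exp_pos _).le
    have hA : (1 - up k n (i :: z) none * (1 - (1 - t))) *
        (∏ j ∈ (range (k (i :: z))).erase c,
          exp (-(lam * psi k n (j :: i :: z) * (up k n (i :: z) (some j) * t)))) *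
        ff k n (c :: i :: z) (1 - up k n (i :: z) (some c) * (1 - (1 - t))) ≤
        (1 - up k n (i :: z) none * t) * exp (-(lam * psi k n (i :: z) * t)) := by
      rw [← hprod, mul_assoc, sub_sub_cancel]
      apply mul_le_mul_of_nonneg_left
      · apply mul_le_mul_of_nonneg_left _ hprod0
        have := hm c hc
        rwa [sub_sub_cancel] at this
      · have := (hbo (1 - t) (by linarith) (by linarith)).1
        rwa [sub_sub_cancel] at this
    have hB : (∑ j ∈ (range (k (i :: z))).erase c,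
        (1 - exp (-(lam * psi k n (j :: i :: z) * (up k n (i :: z) (some j) * t))))) *
        ff k n (c :: i :: z) (9 / 10) ≤ (lam * psi k n (i :: z) * t) *
          exp (-(7 / 8 * (1 / 1690) * lam)) := by
      apply mul_le_mul _ (hch c hc).c (hff0 _ _ (by norm_num))
      · exact mul_nonneg (mul_nonneg hl0 (by linarith)) ht0
      · rw [← hsum]
        refine le_trans (Finset.sum_le_sum (g := fun j => lam * psi k n (j :: i :: z) *
          (up k n (i :: z) (some j) * t)) fun j hj => ?_)
          (Finset.sum_le_sum_of_subset_of_nonneg (Finset.erase_subset _ _) fun j hj _ =>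
            hpj j (Finset.mem_range.1 hj))
        have := add_one_le_exp (-(lam * psi k n (j :: i :: z) * (up k n (i :: z) (some j) * t)))
        linarith
    refine (add_le_add hA hB).trans ?_
    have hexp : exp (-((lam + 1 / 10) * psi k n (i :: z) * t)) =
        exp (-(lam * psi k n (i :: z) * t)) * exp (-(1 / 10 * psi k n (i :: z) * t)) := by
      rw [← exp_add]; congr 1; ring
    rw [hexp]
    have h4 : 1 - 1 / 10 * psi k n (i :: z) * t ≤ exp (-(1 / 10 * psi k n (i :: z) * t)) := by
      linarith [add_one_le_exp (-(1 / 10 * psi k n (i :: z) * t))]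
    have h5 : exp (-(5 / 6 * (1 / 1690) * lam)) ≤ exp (-(lam * psi k n (i :: z) * t)) := by
      apply exp_le_exp.2
      have : lam * (psi k n (i :: z) * t) ≤ lam * (5 / 6 * (1 / 1690)) := by
        apply mul_le_mul_of_nonneg_left _ hl0
        exact mul_le_mul hpsi.2 ht1 ht0 (by norm_num)
      linarith
    have h6 := num_a hl
    have h7 := exp_pos (-(lam * psi k n (i :: z) * t))
    set e := exp (-(lam * psi k n (i :: z) * t)) with he
    set q := exp (-(7 / 8 * (1 / 1690) * lam)) with hq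
    set P := psi k n (i :: z) with hP
    set uo := up k n (i :: z) none with huod
    have h8 : e * (1 - 1 / 10 * P * t) ≤ e * exp (-(1 / 10 * P * t)) :=
      mul_le_mul_of_nonneg_left h4 h7.le
    have h9 : lam * P * t * q ≤ 1 / 10 * P * t * e := by
      have : 10 * lam * q ≤ e := h6.trans h5
      have hPt : 0 ≤ P * t := mul_nonneg (by linarith) ht0
      nlinarith
    have h10 : 1 / 5 * P * t * e ≤ uo * t * e := by
      apply mul_le_mul_of_nonneg_right _ h7.le
      apply mul_le_mul_of_nonneg_right _ ht0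
      linarith
    nlinarith
  · have hm : ∀ j < k (i :: z), ff k n (j :: i :: z)
        (1 - up k n (i :: z) (some j) * (1 - (1 - 1 / 130))) ≤
        exp (-(1 / 4 * (1 / 1690) * lam)) := by
      intro j hj
      have h1 := up_ge hk n hw hj
      have h2 := up_le hk n hw hj
      have hpsi := psi_bounds hk n (a := j) (w := i :: z) ⟨hj, hw⟩
      refine (ff_mono hk (s' := 1 - 1 / 1690) (by linarith) (by linarith)).trans ?_
      refine ((hch j hj).a (1 / 1690) (by norm_num) le_rfl).trans (exp_le_exp.2 ?_)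
      have := mul_le_mul_of_nonneg_left hpsi.1 hl0
      linarith
    apply F2 hk hw hn' (by norm_num) (by norm_num) (fun _ => exp (-(1 / 4 * (1 / 1690) * lam)))
      (fun c _ => (exp_pos _).le) (fun c _ j hj _ => hm j hj)
    intro c hc
    refine le_trans (add_le_add ?_ ?_) (num_b hl)
    · have h1 := own_le hk (n := n) hw hc (s := 1 - 1 / 130) (by norm_num)
      have h2 := h3 c hc (1 - 1 / 130) (by norm_num) (by norm_num)
      have h4 := (exp_pos (-(1 / 4 * (1 / 1690) * lam))).le
      have h4' : exp (-(1 / 4 * (1 / 1690) * lam)) ≤ 1 := by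
        rw [exp_le_one_iff]; linarith
      have h5 := hff0 (c :: i :: z) (up k n (i :: z) (some c) * (1 - 1 / 130))
        (mul_nonneg (hup0 c hc) (by norm_num))
      have h6 := wt_nonneg hk n hw (leg_none (i :: z)) c
      have h7 : 0 ≤ up k n (i :: z) none * (1 - 1 / 130) + wt k n (i :: z) none c := by
        nlinarith
      have h8 : (up k n (i :: z) none * (1 - 1 / 130) + wt k n (i :: z) none c) *
          (1 - exp (-(1 / 4 * (1 / 1690) * lam))) ≤ 1 := by nlinarith
      calc _ ≤ 1 * ff k n (c :: i :: z) (up k n (i :: z) (some c) * (1 - 1 / 130)) :=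
            mul_le_mul_of_nonneg_right h8 h5
        _ ≤ _ := by rw [one_mul]; exact h2
    · have h1 := hbo (1 - 1 / 130) (by norm_num) (by norm_num)
      have h2 := hm c hc
      have h4 := (exp_pos (-(1 / 4 * (1 / 1690) * lam))).le
      have h5 := hff0 (c :: i :: z) (1 - up k n (i :: z) (some c) * (1 - (1 - 1 / 130)))
        (bj_bounds hk hw (by norm_num) (by norm_num) hc).1
      apply mul_le_mul _ h2 h5 h4
      nlinarith
  · have hm : ∀ j < k (i :: z), ff k n (j :: i :: z)
        (1 - up k n (i :: z) (some j) * (1 - 9 / 10)) ≤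
        exp (-(15 / 32 * (1 / 1690) * lam)) := by
      intro j hj
      have h1 := up_ge hk n hw hj
      have h2 := up_le hk n hw hj
      exact (ff_mono hk (s' := 1 - 1 / 130) (by linarith) (by linarith)).trans (hch j hj).b
    apply F2 hk hw hn' (by norm_num) (by norm_num) (fun _ => exp (-(15 / 32 * (1 / 1690) * lam)))
      (fun c _ => (exp_pos _).le) (fun c _ j hj _ => hm j hj)
    intro c hc
    refine le_trans (add_le_add ?_ ?_) (num_c hl)
    · have h1 := own_le hk (n := n) hw hc (s := 9 / 10) (by norm_num)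
      have h2 := h3 c hc (9 / 10) (by norm_num) (by norm_num)
      have h4 := (exp_pos (-(15 / 32 * (1 / 1690) * lam))).le
      have h5 := hff0 (c :: i :: z) (up k n (i :: z) (some c) * (9 / 10))
        (mul_nonneg (hup0 c hc) (by norm_num))
      have h6 := wt_nonneg hk n hw (leg_none (i :: z)) c
      have h7 : 0 ≤ up k n (i :: z) none * (9 / 10) + wt k n (i :: z) none c := by
        nlinarith
      have h8 : (up k n (i :: z) none * (9 / 10) + wt k n (i :: z) none c) *
          (1 - exp (-(15 / 32 * (1 / 1690) * lam))) ≤ 11 / 12 := by nlinarith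
      calc _ ≤ 11 / 12 * ff k n (c :: i :: z) (up k n (i :: z) (some c) * (9 / 10)) :=
            mul_le_mul_of_nonneg_right h8 h5
        _ ≤ _ := mul_le_mul_of_nonneg_left h2 (by norm_num)
    · have h1 := hbo (9 / 10) (by norm_num) (by norm_num)
      have h2 := hm c hc
      have h4 := (exp_pos (-(15 / 32 * (1 / 1690) * lam))).le
      have h5 := hff0 (c :: i :: z) (1 - up k n (i :: z) (some c) * (1 - 9 / 10))
        (bj_bounds hk hw (by norm_num) (by norm_num) hc).1
      apply mul_le_mul _ h2 h5 h4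
      nlinarith

end step

end Pool.Agent.W847.Frog
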