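import Pool.Agent.W847.Frog.Harm

/-!
# Programs asking frogs for their endpoints
-/

set_option autoImplicit false

open Finset

namespace Pool.Agent.W847.Frog

/-- Words of length `n` over the letters `0, …, 4`. -/
def words : ℕ → Finset (List ℕ)
  | 0 => {[]}
  | n + 1 => (range 5 ×ˢ words n).image (fun q => q.1 :: q.2)

theorem mem_words (n : ℕ) : ∀ y : List ℕ, y ∈ words n ↔ y.length = n ∧ ∀ a ∈ y, a < 5 := by
  induction n with
  | zero =>
    intro y
    simp only [words, Finset.mem_singleton]
    constructor
    · rintro rfl; simp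
    · rintro ⟨h, _⟩; exact List.length_eq_zero_iff.1 h
  | succ n ih =>
    intro y
    simp only [words, Finset.mem_image, Finset.mem_product, Finset.mem_range, Prod.exists]
    constructor
    · rintro ⟨a, w, ⟨ha, hw⟩, rfl⟩
      obtain ⟨h1, h2⟩ := (ih w).1 hw
      refine ⟨by simp [h1], ?_⟩
      intro b hb
      rcases List.mem_cons.1 hb with rfl | hb
      · exact ha
      · exact h2 b hb
    · rintro ⟨h1, h2⟩
      cases y with
      | nil => simp at h1
      | cons a w =>
        refine ⟨a, w, ⟨h2 a (by simp), (ih w).2 ⟨by simpa using h1, ?_⟩⟩, rfl⟩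
        intro b hb
        exact h2 b (by simp [hb])

theorem card_words (n : ℕ) : (words n).card = 5 ^ n := by
  induction n with
  | zero => simp [words]
  | succ n ih =>
    simp only [words]
    rw [Finset.card_image_of_injective, Finset.card_product, Finset.card_range, ih, pow_succ,
      mul_comm]
    rintro ⟨a, w⟩ ⟨b, v⟩ h
    simpa using h

/-- Words of length less than `n`. -/
def frogs (n : ℕ) : Finset (List ℕ) := (range n).biUnion words

theorem mem_frogs (n : ℕ) (y : List ℕ) : y ∈ frogs n ↔ y.length < n ∧ ∀ a ∈ y, a < 5 := by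
  simp only [frogs, Finset.mem_biUnion, Finset.mem_range, mem_words]
  constructor
  · rintro ⟨m, hm, h1, h2⟩; exact ⟨by omega, h2⟩
  · rintro ⟨h1, h2⟩; exact ⟨y.length, h1, rfl, h2⟩

theorem Val.lt_five {k : List ℕ → ℕ} (hk : ∀ x, k x = 2 ∨ k x = 5) {y : List ℕ} (hy : Val k y) :
    ∀ a ∈ y, a < 5 := by
  induction y with
  | nil => simp
  | cons i w ih =>
    intro a ha
    rcases List.mem_cons.1 ha with rfl | ha
    · have := hy.1; have := k_le hk w; omega
    · exact ih hy.2 a ha

theorem Val.suffix {k : List ℕ → ℕ} {y w : List ℕ} (hy : Val k y) (h : w <:+ y) : Val k w := by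
  obtain ⟨a, rfl⟩ := h
  induction a with
  | nil => simpa using hy
  | cons b a ih => exact ih hy.2

theorem suffix_cons_inj {a b : ℕ} {w y : List ℕ} (h1 : (a :: w) <:+ y) (h2 : (b :: w) <:+ y) :
    a = b := by
  have h := List.suffix_of_suffix_length_le h1 h2 (by simp)
  have := h.eq_of_length (by simp)
  simpa using this

section nuF

variable {k : List ℕ → ℕ} {n : ℕ}

theorem dl_congr {w : List ℕ} (hw : Val k w) (hn : w.length ≤ n) {h1 h2 : List ℕ → ℝ}
    (h : ∀ y, y.length = n → Val k y → w <:+ y → h1 y = h2 y) :
    dl k n w h1 = dl k n w h2 := by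
  unfold dl
  apply down_congr _ _ hw
  intro p hp hv
  apply h _ _ hv ⟨_, rfl⟩
  simp [hp]; omega

theorem nuF_congr {z : List ℕ} (hz : Val k z) (hn : z.length < n) {fr : Option ℕ}
    {h1 h2 : List ℕ → ℝ}
    (h : ∀ y, y.length = n → Val k y → (∀ i, fr = some i → ¬ ((i :: z) <:+ y)) → h1 y = h2 y) :
    nuF k n z fr h1 = nuF k n z fr h2 := by
  have key : ∀ {z : List ℕ} (_ : Val k z) (_ : z.length < n) {fr : Option ℕ}
      (_ : ∀ y, y.length = n → Val k y → (∀ i, fr = some i → ¬ ((i :: z) <:+ y)) → h1 y = h2 y),
      ∑ j ∈ range (k z), wt k n z fr j * dl k n (j :: z) h1 =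
        ∑ j ∈ range (k z), wt k n z fr j * dl k n (j :: z) h2 := by
    intro z hz hn fr h
    refine Finset.sum_congr rfl fun j hj => ?_
    by_cases hf : fr = some j
    · simp [wt, hf]
    · congr 1
      apply dl_congr (w := j :: z) ⟨Finset.mem_range.1 hj, hz⟩ (by simpa using hn)
      intro y hy hv hs
      apply h y hy hv
      intro i hi hs2
      have := suffix_cons_inj hs hs2
      subst this
      exact hf hi
  induction z generalizing fr with
  | nil => exact key hz hn h
  | cons i z ih =>
    simp only [nuF]
    rw [key hz hn h, ih hz.2 (by simp only [List.length_cons] at hn; omega)]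
    intro y hy hv hs
    apply h y hy hv
    intro j hj hs2
    exact hs i rfl ((List.suffix_cons j (i :: z)).trans hs2)

theorem dl_add (w : List ℕ) (h1 h2 : List ℕ → ℝ) :
    dl k n w (fun p => h1 p + h2 p) = dl k n w h1 + dl k n w h2 := by
  unfold dl; exact down_add _ _ _ _ _

theorem dl_mul (w : List ℕ) (c : ℝ) (h : List ℕ → ℝ) :
    dl k n w (fun p => c * h p) = c * dl k n w h := by
  unfold dl; exact down_mul _ _ _ _ _

theorem nuF_add (z : List ℕ) : ∀ (fr : Option ℕ) (h1 h2 : List ℕ → ℝ),
    nuF k n z fr (fun p => h1 p + h2 p) = nuF k n z fr h1 + nuF k n z fr h2 := by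
  induction z with
  | nil =>
    intro fr h1 h2
    simp only [nuF, dl_add]
    rw [← Finset.sum_add_distrib]
    exact Finset.sum_congr rfl fun j _ => by ring
  | cons i z ih =>
    intro fr h1 h2
    simp only [nuF, dl_add, ih, mul_add, Finset.sum_add_distrib]
    ring

theorem nuF_mul (z : List ℕ) : ∀ (fr : Option ℕ) (c : ℝ) (h : List ℕ → ℝ),
    nuF k n z fr (fun p => c * h p) = c * nuF k n z fr h := by
  induction z with
  | nil =>
    intro fr c h
    simp only [nuF, dl_mul]
    rw [Finset.mul_sum]
    exact Finset.sum_congr rfl fun j _ => by ring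
  | cons i z ih =>
    intro fr c h
    simp only [nuF, dl_mul, ih]
    rw [mul_add, Finset.mul_sum]
    congr 1
    · ring
    · exact Finset.sum_congr rfl fun j _ => by ring

theorem nuF_sum {ι : Type} (s : Finset ι) (z : List ℕ) (fr : Option ℕ) (h : ι → List ℕ → ℝ) :
    nuF k n z fr (fun p => ∑ i ∈ s, h i p) = ∑ i ∈ s, nuF k n z fr (h i) := by
  classical
  induction s using Finset.induction_on with
  | empty =>
    simp only [Finset.sum_empty]
    have := nuF_mul (k := k) (n := n) z fr 0 (fun _ => 0)
    simpa using this
  | insert a s ha ih =>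
    rw [Finset.sum_insert ha, ← ih, ← nuF_add]
    congr 1
    funext p
    rw [Finset.sum_insert ha]

end nuF

/-- What is known about the endpoint of a frog. -/
inductive Info : Type
  | loc (z : List ℕ) (fr : Option ℕ) : Info
  | fin (y : List ℕ) : Info

/-- Law of the endpoint given what is known. -/
noncomputable def law (k : List ℕ → ℕ) (n : ℕ) : Info → (List ℕ → ℝ) → ℝ
  | .loc z fr, h => nuF k n z fr h
  | .fin y, h => h y

/-- Consistent information. -/
def VI (k : List ℕ → ℕ) (n : ℕ) : Info → Prop
  | .loc z fr => Val k z ∧ z.length < n ∧ Leg k z fr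
  | .fin y => y ∈ words n

/-- Indicator of a point. -/
def ind (y : List ℕ) : List ℕ → ℝ := fun y' => if y' = y then 1 else 0

section law

variable {k : List ℕ → ℕ} (hk : ∀ x, k x = 2 ∨ k x = 5) {n : ℕ}

include hk

theorem law_eq_sum {s : Info} (hs : VI k n s) (h : List ℕ → ℝ) :
    law k n s h = ∑ y ∈ words n, law k n s (ind y) * h y := by
  cases s with
  | fin y =>
    simp only [law, ind]
    have : ∀ x, (if y = x then (1 : ℝ) else 0) * h x = if y = x then h x else 0 := by
      intro x; split_ifs <;> simp
    simp only [this]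
    rw [Finset.sum_ite_eq, if_pos]
    exact hs
  | loc z fr =>
    obtain ⟨h1, h2, h3⟩ := hs
    simp only [law]
    have : nuF k n z fr h = nuF k n z fr (fun y' => ∑ y ∈ words n, h y * ind y y') := by
      apply nuF_congr h1 h2
      intro y hy hv _
      simp only [ind, mul_ite, mul_one, mul_zero]
      rw [Finset.sum_ite_eq, if_pos]
      exact (mem_words n y).2 ⟨hy, hv.lt_five hk⟩
    rw [this, nuF_sum]
    exact Finset.sum_congr rfl fun y _ => by rw [nuF_mul]; ring

theorem law_const {s : Info} (hs : VI k n s) (c : ℝ) : law k n s (fun _ => c) = c := by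
  cases s with
  | fin y => rfl
  | loc z fr => exact nuF_const hk n hs.1 hs.2.2 c

end law

/-- Extension of an assignment by the root. -/
def ext {F : Finset (List ℕ)} (y : F → List ℕ) (x : List ℕ) : List ℕ :=
  if h : x ∈ F then y ⟨x, h⟩ else []

/-- The average over independent endpoints of the frogs in `F`, given what is known. -/
noncomputable def J (k : List ℕ → ℕ) (n : ℕ) (F : Finset (List ℕ)) (B : List ℕ → Info)
    (G : (List ℕ → List ℕ) → ℝ) : ℝ :=
  ∑ y ∈ Fintype.piFinset (fun _ : F => words n), (∏ x : F, law k n (B x) (ind (y x))) * G (ext y)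

section J

variable {k : List ℕ → ℕ} (hk : ∀ x, k x = 2 ∨ k x = 5) {n : ℕ} {F : Finset (List ℕ)}

include hk

theorem J_const {B : List ℕ → Info} (hB : ∀ x ∈ F, VI k n (B x)) (c : ℝ) :
    J k n F B (fun _ => c) = c := by
  unfold J
  rw [← Finset.sum_mul, ← Finset.prod_univ_sum (fun _ : F => words n)
    (fun x a => law k n (B x) (ind a)), Finset.prod_eq_one, one_mul]
  intro x _
  have := law_eq_sum hk (hB x.1 x.2) (fun _ => 1)
  rw [law_const hk (hB x.1 x.2)] at this
  simpa using this.symm

theorem J_cond {B : List ℕ → Info} (hB : ∀ x ∈ F, VI k n (B x)) {x0 : List ℕ} (hx : x0 ∈ F)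
    (G : (List ℕ → List ℕ) → ℝ) :
    J k n F B G = law k n (B x0) (fun y => J k n F (Function.update B x0 (.fin y)) G) := by
  rw [law_eq_sum hk (hB x0 hx)]
  unfold J
  simp only [Finset.mul_sum]
  rw [Finset.sum_comm]
  refine Finset.sum_congr rfl fun y hy => ?_
  have hyx : y ⟨x0, hx⟩ ∈ words n := Fintype.mem_piFinset.1 hy _
  have h1 : ∀ a, ∏ x : F, law k n (Function.update B x0 (.fin a) x) (ind (y x)) =
      (if a = y ⟨x0, hx⟩ then 1 else 0) *
        ∏ x ∈ Finset.univ.erase (⟨x0, hx⟩ : F), law k n (B x) (ind (y x)) := by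
    intro a
    rw [← Finset.mul_prod_erase Finset.univ _ (Finset.mem_univ (⟨x0, hx⟩ : F))]
    congr 1
    · simp [law, ind]
    · refine Finset.prod_congr rfl fun x hxe => ?_
      have : (x : List ℕ) ≠ x0 := by
        intro h
        exact Finset.ne_of_mem_erase hxe (Subtype.ext h)
      rw [Function.update_of_ne this]
  simp only [h1]
  have h2 : ∀ a, law k n (B x0) (ind a) * (((if a = y ⟨x0, hx⟩ then (1 : ℝ) else 0) *
      ∏ x ∈ Finset.univ.erase (⟨x0, hx⟩ : F), law k n (B x) (ind (y x))) * G (ext y)) =
      if a = y ⟨x0, hx⟩ then law k n (B x0) (ind a) *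
        (∏ x ∈ Finset.univ.erase (⟨x0, hx⟩ : F), law k n (B x) (ind (y x))) * G (ext y) else 0 := by
    intro a; split_ifs <;> ring
  simp only [h2]
  rw [Finset.sum_ite_eq', if_pos hyx, ← Finset.mul_prod_erase Finset.univ _
    (Finset.mem_univ (⟨x0, hx⟩ : F))]

omit hk in
theorem J_fin {B : List ℕ → Info} {x0 : List ℕ} (hx : x0 ∈ F) (y0 : List ℕ)
    (G G' : (List ℕ → List ℕ) → ℝ) (hG : ∀ η : List ℕ → List ℕ, η x0 = y0 → G η = G' η) :
    J k n F (Function.update B x0 (.fin y0)) G = J k n F (Function.update B x0 (.fin y0)) G' := by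
  unfold J
  refine Finset.sum_congr rfl fun y _ => ?_
  by_cases hy : y ⟨x0, hx⟩ = y0
  · rw [hG (ext y)]
    simp [ext, hx, hy]
  · have : ∏ x : F, law k n (Function.update B x0 (.fin y0) x) (ind (y x)) = 0 := by
      apply Finset.prod_eq_zero (Finset.mem_univ (⟨x0, hx⟩ : F))
      simp only [Function.update_self, law, ind]
      rw [if_neg]
      exact fun h => hy h.symm
    rw [this]; ring

end J

/-- The answer of a frog with endpoint `y` when asked at `v`. -/
def ans (v y : List ℕ) : Option (List ℕ) :=
  if v <:+ y then some ((y.take (y.length - v.length)).reverse) else none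

theorem ans_append (p v : List ℕ) : ans v (p.reverse ++ v) = some p := by
  unfold ans
  rw [if_pos ⟨_, rfl⟩]
  simp

theorem ans_cons (j : ℕ) (p v : List ℕ) : ans v (p.reverse ++ j :: v) = some (j :: p) := by
  have := ans_append (j :: p) v
  simpa using this

/-- A program which asks frogs for the branch in which their walk ends. -/
inductive Prog (β : Type) : Type
  | ret (r : β) : Prog β
  | ask (x : List ℕ) (i : ℕ) (z : List ℕ) (fr : Option ℕ) (next : Option (List ℕ) → Prog β) :
      Prog β

namespace Prog

variable {β γ : Type}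

/-- Composition. -/
def bind : Prog β → (β → Prog γ) → Prog γ
  | ret r, f => f r
  | ask x i z fr next, f => ask x i z fr (fun o => (next o).bind f)

/-- Expectation. -/
noncomputable def E (k : List ℕ → ℕ) (n : ℕ) : Prog β → (β → ℝ) → ℝ
  | ret r, g => g r
  | ask _ i z fr next, g => up k n (i :: z) fr * (next none).E k n g +
      ∑ j ∈ range (k (i :: z)), wt k n (i :: z) fr j *
        down k (n - (z.length + 2)) (j :: i :: z) (fun p => (next (some (j :: p))).E k n g)

/-- Result of a run. -/
def run (η : List ℕ → List ℕ) : Prog β → β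
  | ret r => r
  | ask x i z _ next => (next (ans (i :: z) (η x))).run η

/-- Validity of all questions together with a condition at the end. -/
def Post (k : List ℕ → ℕ) (n : ℕ) (F : Finset (List ℕ)) :
    Prog β → (List ℕ → Info) → (β → (List ℕ → Info) → Prop) → Prop
  | ret r, B, Q => Q r B
  | ask x i z fr next, B, Q => x ∈ F ∧ B x = .loc (i :: z) fr ∧
      (next none).Post k n F (Function.update B x (.loc z (some i))) Q ∧
      ∀ j p, j < k (i :: z) → fr ≠ some j → p.length = n - (z.length + 2) →
        Val k (p.reverse ++ j :: i :: z) →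
        (next (some (j :: p))).Post k n F
          (Function.update B x (.fin (p.reverse ++ j :: i :: z))) Q

theorem E_bind (k : List ℕ → ℕ) (n : ℕ) (t : Prog β) (f : β → Prog γ) (g : γ → ℝ) :
    (t.bind f).E k n g = t.E k n (fun r => (f r).E k n g) := by
  induction t with
  | ret r => rfl
  | ask x i z fr next ih => simp only [bind, E, ih]

theorem run_bind (η : List ℕ → List ℕ) (t : Prog β) (f : β → Prog γ) :
    (t.bind f).run η = (f (t.run η)).run η := by
  induction t with
  | ret r => rfl
  | ask x i z fr next ih => simp only [bind, run, ih]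

theorem Post_mono {k : List ℕ → ℕ} {n : ℕ} {F : Finset (List ℕ)} (t : Prog β) :
    ∀ {B : List ℕ → Info} {Q Q' : β → (List ℕ → Info) → Prop}, t.Post k n F B Q →
      (∀ r B', Q r B' → Q' r B') → t.Post k n F B Q' := by
  induction t with
  | ret r => intro B Q Q' h hQ; exact hQ _ _ h
  | ask x i z fr next ih =>
    intro B Q Q' h hQ
    obtain ⟨h1, h2, h3, h4⟩ := h
    exact ⟨h1, h2, ih _ h3 hQ, fun j p a b c d => ih _ (h4 j p a b c d) hQ⟩

theorem Post_bind {k : List ℕ → ℕ} {n : ℕ} {F : Finset (List ℕ)} (t : Prog β) (f : β → Prog γ) :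
    ∀ {B : List ℕ → Info} {Q : γ → (List ℕ → Info) → Prop},
      t.Post k n F B (fun r B' => (f r).Post k n F B' Q) → (t.bind f).Post k n F B Q := by
  induction t with
  | ret r => intro B Q h; exact h
  | ask x i z fr next ih =>
    intro B Q h
    obtain ⟨h1, h2, h3, h4⟩ := h
    exact ⟨h1, h2, ih _ h3, fun j p a b c d => ih _ (h4 j p a b c d)⟩

/-- The expectation of a program is the average over independent endpoints of its result. -/
theorem J_run {k : List ℕ → ℕ} (hk : ∀ x, k x = 2 ∨ k x = 5) {n : ℕ} {F : Finset (List ℕ)}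
    (g : β → ℝ) (t : Prog β) :
    ∀ {B : List ℕ → Info}, (∀ x ∈ F, VI k n (B x)) → t.Post k n F B (fun _ _ => True) →
      J k n F B (fun η => g (t.run η)) = t.E k n g := by
  induction t with
  | ret r =>
    intro B hB _
    exact J_const hk hB (g r)
  | ask x i z fr next ih =>
    intro B hB hP
    obtain ⟨h1, h2, h3, h4⟩ := hP
    have hVI := hB x h1
    rw [h2] at hVI
    obtain ⟨hv, hl, hleg⟩ := hVI
    rw [J_cond hk hB h1, h2]
    simp only [law, nuF, E]
    have hl2 : z.length < n := by simp only [List.length_cons] at hl; omega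
    congr 1
    · congr 1
      have e1 : nuF k n z (some i) (fun y => J k n F (Function.update B x (.fin y))
          (fun η => g ((ask x i z fr next).run η))) =
          nuF k n z (some i) (fun y => J k n F (Function.update B x (.fin y))
          (fun η => g ((next none).run η))) := by
        apply nuF_congr hv.2 hl2
        intro y _ _ hs
        apply J_fin h1
        intro η hη
        simp only [run, hη]
        rw [ans, if_neg (hs i rfl)]
      rw [e1, ← ih none (B := Function.update B x (.loc z (some i))) _ h3]
      · rw [J_cond hk (B := Function.update B x (.loc z (some i))) _ h1]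
        · simp only [Function.update_self, law, Function.update_idem]
        · intro x' hx'
          by_cases hxx : x' = x
          · subst hxx
            rw [Function.update_self]
            exact ⟨hv.2, hl2, leg_some hv.1⟩
          · rw [Function.update_of_ne hxx]; exact hB x' hx'
      · intro x' hx'
        by_cases hxx : x' = x
        · subst hxx
          rw [Function.update_self]
          exact ⟨hv.2, hl2, leg_some hv.1⟩
        · rw [Function.update_of_ne hxx]; exact hB x' hx'
    · refine Finset.sum_congr rfl fun j hj => ?_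
      by_cases hfr : fr = some j
      · simp [wt, hfr]
      · congr 1
        unfold dl
        rw [show n - (j :: i :: z).length = n - (z.length + 2) by simp]
        apply down_congr _ (j :: i :: z) ⟨Finset.mem_range.1 hj, hv⟩
        intro p hp hvp
        rw [← ih (some (j :: p)) (B := Function.update B x (.fin (p.reverse ++ j :: i :: z))) _
          (h4 j p (Finset.mem_range.1 hj) hfr hp hvp)]
        · apply J_fin h1
          intro η hη
          simp only [run, hη, ans_cons]
        · intro x' hx'
          by_cases hxx : x' = x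
          · subst hxx
            rw [Function.update_self]
            refine (mem_words n _).2 ⟨?_, hvp.lt_five hk⟩
            simp only [List.length_append, List.length_reverse, List.length_cons, hp]
            simp only [List.length_cons] at hl
            omega
          · rw [Function.update_of_ne hxx]; exact hB x' hx'

end Prog

end Pool.Agent.W847.Frog
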