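import Pool.Agent.W847.Frog.Perc

/-!
# The frog model
-/

set_option autoImplicit false

open Finset MeasureTheory ProbabilityTheory

namespace Pool.Agent.W847.Frog

/-- The environment. -/
noncomputable def kr {Ω : Type} (p : ℝ) (V : List ℕ × ℕ → Ω → ℝ) (ω : Ω) (z : List ℕ) : ℕ :=
  if V (z, 0) ω < p then 2 else 5

/-- The walks of the frog model. -/
noncomputable def XX {Ω : Type} (p : ℝ) (V : List ℕ × ℕ → Ω → ℝ) (x : List ℕ) :
    ℕ → Ω → List ℕ
  | 0, _ => x
  | m + 1, ω => stp (kr p V ω) (XX p V x m ω) (V (x, m + 1) ω)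

/-- The woken frogs. -/
def Act {Ω : Type} (p : ℝ) (V : List ℕ × ℕ → Ω → ℝ) (ω : Ω) : Set (List ℕ) :=
  {w | Relation.ReflTransGen (fun u w => ∃ m, XX p V u m ω = w) [] w}

/-- At least `m0` visits of the root. -/
def RR {Ω : Type} (p : ℝ) (V : List ℕ × ℕ → Ω → ℝ) (m0 : ℕ) : Set Ω :=
  {ω | ∃ T : Finset (List ℕ × ℕ), m0 ≤ T.card ∧ ∀ q ∈ T, q.1 ∈ Act p V ω ∧ XX p V q.1 q.2 ω = []}

theorem kr_eq {Ω : Type} {p : ℝ} {V : List ℕ × ℕ → Ω → ℝ} {n : ℕ} {ω : Ω} {z : List ℕ}
    (hz : z ∈ frogs n) : kr p V ω z = kk (kap p V n ω) z := by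
  unfold kr kk
  by_cases h : V (z, 0) ω < p
  · rw [if_pos h, if_neg]
    intro hmem
    have := (mem_kap.1 hmem).2
    linarith
  · rw [if_neg h, if_pos]
    exact mem_kap.2 ⟨hz, not_lt.1 h⟩

section det

variable {Ω : Type} {p : ℝ} {V : List ℕ × ℕ → Ω → ℝ} (hV1 : ∀ i ω, V i ω < 1) {n : ℕ} {ω : Ω}

theorem cpl (x : List ℕ) : Cpl (kk (kap p V n ω)) (kr p V ω) n x (fun j => V (x, j) ω)
    (fun m => XX p V x m ω) := by
  refine ⟨rfl, fun m => rfl, ?_⟩
  intro z hz hn
  exact kr_eq ((mem_frogs n z).2 ⟨hn, hz.lt_five (kk_or _)⟩)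

include hV1 in
/-- If the exploration finds many frogs, then the root is visited many times. -/
theorem many_visits (hn : 0 < n) {m m0 : ℕ} {k : List ℕ → ℕ} (hkd : k = kk (kap p V n ω))
    (y : ↥(vfrogs k n) → List ℕ)
    (hy : ∀ x, y x ∈ words n)
    (hW : ∀ x : ↥(vfrogs k n), W k n x (fun j => V (x, j) ω) m = y x)
    (hm0 : m0 ≤ (mainRun n (ext y)).length) : ω ∈ RR p V m0 := by
  have hk : ∀ x, k x = 2 ∨ k x = 5 := by rw [hkd]; exact kk_or _
  have hex : ∀ x (hx : x ∈ vfrogs k n), ext y x = y ⟨x, hx⟩ := by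
    intro x hx; simp [ext, hx]
  have hηF : ∀ x (hx : x ∈ vfrogs k n), ext y x = W k n x (fun j => V (x, j) ω) m := by
    intro x hx
    rw [hW ⟨x, hx⟩, hex x hx]
  have hmem : ∀ x, x ∈ vfrogs k n ↔ x.length < n ∧ Val k x := fun x => mem_vfrogs hk n x
  have hηprop : ∀ x ∈ vfrogs k n, (ext y x).length = n ∧ Val k (ext y x) := by
    intro x hx
    constructor
    · rw [hex x hx]
      exact ((mem_words n _).1 (hy _)).1
    · rw [hηF x hx]
      exact W_val hk (fun j => hV1 _ _) ((hmem x).1 hx).2 m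
  generalize hFdef : vfrogs k n = F at *
  generalize hηdef : ext y = η at *
  have hroot : ([] : List ℕ) ∈ F := (hmem []).2 ⟨by simpa using hn, trivial⟩
  obtain ⟨Y, hYd⟩ : ∃ Y : Set (List ℕ), Y = {y | y.length = n ∧ Val k y} := ⟨_, rfl⟩
  have hYm : ∀ y, y ∈ Y ↔ y.length = n ∧ Val k y := by intro y; rw [hYd]; rfl
  have hYprop : ∀ y ∈ Y, y.length = n ∧ ∀ v, v <:+ y → v.length < n → v ∈ F := by
    intro y hy
    obtain ⟨h1, h2⟩ := (hYm y).1 hy
    exact ⟨h1, fun v hv hvn => (hmem v).2 ⟨hvn, h2.suffix hv⟩⟩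
  have hcpl := fun x => cpl (p := p) (V := V) (n := n) (ω := ω) x
  rw [← hkd] at hcpl
  have hAct : ∀ x ∈ Act p V ω, x ∈ F → ∀ v, v <:+ η x → ¬ (v <:+ x) → v.length < n →
      v ∈ Act p V ω := by
    intro x hx hxF v hv1 hv2 _
    rw [hηF x hxF] at hv1
    obtain ⟨i, hi⟩ := (hcpl x).enter hk (fun j => hV1 _ _) ((hmem x).1 hxF).2 m v hv1 hv2
    exact Relation.ReflTransGen.tail hx ⟨i, hi⟩
  have hroot' := hηprop [] hroot
  -- the path of the root frog
  obtain ⟨j, q, hq⟩ : ∃ (j : ℕ) (q : List ℕ), η [] = q.reverse ++ [j] := by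
    rcases List.eq_nil_or_concat (η []) with h | ⟨l, a, h⟩
    · rw [h] at hroot'; simp at hroot'; omega
    · exact ⟨a, l.reverse, by simp [h]⟩
  have hrun : mainRun n η = (Ex (n - 1) [j] q).run η := by
    unfold mainRun
    rw [hq, ans_cons]
  have hER := run_Ex (n := n) (F := F) (Y := Y) hYprop (η := η)
    (fun x hx => (hYm _).2 (hηprop x hx)) (W := Act p V ω) hAct
    (n - 1) [j] q (by rw [← hq]; exact (hYm _).2 hroot') (by
      intro v hv1 hv2 hv3
      rw [← hq] at hv2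
      apply hAct [] Relation.ReflTransGen.refl hroot v hv2 _ hv3
      intro h
      have := (hv1.trans h).length_le
      simp at this)
  have hql : q.length = n - 1 := by
    have := hroot'.1
    rw [hq] at this
    simp at this
    omega
  have hpost := Post_Ex hk (n := n) (n - 1) j [] q hql (by rw [← hq]; exact hroot'.2)
    (by simp; omega) B0 (fun _ _ _ => rfl)
  rw [hFdef] at hpost
  obtain ⟨B', hB'⟩ := Post_run hk hηprop (Ex (n - 1) [j] q) hpost
    (fun x hx => VI_B0 hk (by rw [hFdef]; exact hx)) (by intro x _; simp [B0])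
  have hnodup := hB'.1
  -- the visits
  have hvis : ∀ x ∈ mainRun n η, ∃ i, XX p V x i ω = [] := by
    intro x hx
    rw [hrun] at hx
    obtain ⟨h1, h2, h3, h4⟩ := hER x hx
    rw [hηF x h2] at h4
    obtain ⟨i, hi⟩ := (hcpl x).leave hk (fun j => hV1 _ _) ((hmem x).1 h2).2 m [j] h3 h4
    exact ⟨i, hi⟩
  choose! g hg using hvis
  refine ⟨(mainRun n η).toFinset.image (fun x => (x, g x)), ?_, ?_⟩
  · rw [Finset.card_image_of_injective _ (fun a b h => (Prod.mk.inj h).1),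
      List.toFinset_card_of_nodup (by rw [hrun]; exact hnodup)]
    exact hm0
  · intro a ha
    obtain ⟨x, hx, rfl⟩ := Finset.mem_image.1 ha
    rw [List.mem_toFinset] at hx
    refine ⟨?_, hg x hx⟩
    rw [hrun] at hx
    exact (hER x hx).1

end det

section prob

variable {Ω : Type} [mΩ : MeasurableSpace Ω] {P : Measure Ω} [IsProbabilityMeasure P]
  {V : List ℕ × ℕ → Ω → ℝ} (hI : iIndepFun V P) (hm : ∀ i, Measurable (V i))
  (hV0 : ∀ i ω, 0 ≤ V i ω) (hV1 : ∀ i ω, V i ω < 1)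
  (hU : ∀ i a b, 0 ≤ a → a ≤ b → b ≤ 1 → P.real (V i ⁻¹' Set.Ico a b) = b - a)
  {p : ℝ} {n : ℕ}

/-- The event that the environment is `κ`. -/
def EE (p : ℝ) (V : List ℕ × ℕ → Ω → ℝ) (n : ℕ) (κ : Finset (List ℕ)) : Set Ω :=
  {ω | kap p V n ω = κ}

theorem EE_meas (κ : Finset (List ℕ)) (hκ : κ ⊆ frogs n) :
    MeasurableSet[sg V {i | i.2 = 0}] (EE p V n κ) := by
  have h : EE p V n κ = ⋂ x ∈ frogs n, (V (x, 0) ⁻¹' (if x ∈ κ then Set.Ici p else Set.Iio p)) := by
    ext ω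
    simp only [EE, Set.mem_ofPred_eq, Set.mem_iInter, Set.mem_preimage]
    constructor
    · rintro h x hx
      rw [← h]
      split_ifs with h1
      · exact (mem_kap.1 h1).2
      · rw [Set.mem_Iio]
        by_contra hcon
        exact h1 (mem_kap.2 ⟨hx, not_lt.1 hcon⟩)
    · intro h
      ext x
      rw [mem_kap]
      constructor
      · rintro ⟨hx, h1⟩
        by_contra hcon
        have := h x hx
        rw [if_neg hcon, Set.mem_Iio] at this
        linarith
      · intro hx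
        have := h x (hκ hx)
        rw [if_pos hx] at this
        exact ⟨hκ hx, this⟩
  rw [h]
  refine Finset.measurableSet_biInter (m := sg V {i | i.2 = 0}) _ fun x _ => ?_
  apply sg_meas (by simp)
  split_ifs
  · exact measurableSet_Ici
  · exact measurableSet_Iio

/-- The event that the environment is `κ` and the endpoints are `y`. -/
def DD' (p : ℝ) (V : List ℕ × ℕ → Ω → ℝ) (n : ℕ) (m : ℕ) (κ : Finset (List ℕ))
    (y : ↥(vfrogs (kk κ) n) → List ℕ) : Set Ω :=
  EE p V n κ ∩ ⋂ x ∈ vfrogs (kk κ) n, WE V (kk κ) n x m (ext y x)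

include hm in
theorem DD'_meas (m : ℕ) (κ : Finset (List ℕ)) (hκ : κ ⊆ frogs n)
    (y : ↥(vfrogs (kk κ) n) → List ℕ) : MeasurableSet (DD' p V n m κ y) :=
  (sg_le hm _ _ (EE_meas κ hκ)).inter
    (Finset.measurableSet_biInter _ fun x _ => WE_meas' hm m _)

include hI hm in
theorem DD'_prob (m : ℕ) (κ : Finset (List ℕ)) (hκ : κ ⊆ frogs n)
    (y : ↥(vfrogs (kk κ) n) → List ℕ) :
    P.real (DD' p V n m κ y) = P.real (EE p V n κ) *
      ∏ x : ↥(vfrogs (kk κ) n), aa P V (kk κ) n x m (y x) := by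
  have h1 := sg_prod hI hm (vfrogs (kk κ) n) (fun x => {i | i.1 = x ∧ 1 ≤ i.2 ∧ i.2 ≤ m})
    (by
      intro x _ x' _ hxx
      rw [Set.disjoint_left]
      rintro i ⟨h1, _⟩ ⟨h2, _⟩
      exact hxx (h1.symm.trans h2))
    (fun x => WE V (kk κ) n x m (ext y x)) (fun x _ => WE_meas m _)
  have h2 := sg_indep hI hm (S := {i | i.2 = 0})
    (T := ⋃ x ∈ vfrogs (kk κ) n, {i | i.1 = x ∧ 1 ≤ i.2 ∧ i.2 ≤ m}) (by
      rw [Set.disjoint_left]
      intro i hi hi2
      simp only [Set.mem_iUnion, exists_prop] at hi2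
      obtain ⟨x, _, h3⟩ := hi2
      have h4 : i.2 = 0 := hi
      have h5 := h3.2.1
      omega) (EE_meas (p := p) κ hκ) h1.2
  unfold DD'
  rw [measureReal_def, h2, h1.1, ENNReal.toReal_mul, ENNReal.toReal_prod]
  congr 1
  rw [← Finset.prod_coe_sort]
  refine Finset.prod_congr rfl fun x _ => ?_
  unfold aa
  rw [measureReal_def]
  congr 3
  simp [ext]

include hI hm hV0 hV1 hU in
/-- The probability of many visits is at least the probability of a good environment times the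
probability in the exploration. -/
theorem RR_prob (hn : 0 < n) (m0 : ℕ) {δ : ℝ} (Good : Finset (Finset (List ℕ)))
    (hG1 : ∀ κ ∈ Good, κ ⊆ frogs n)
    (hG : ∀ κ ∈ Good, δ ≤ J (kk κ) n (vfrogs (kk κ) n) B0 (fun η => ev m0 (mainRun n η))) :
    δ * P.real (⋃ κ ∈ Good, EE p V n κ) ≤ 1 - P.real (RR p V m0)ᶜ := by
  classical
  set A : (κ : Finset (List ℕ)) → Finset (↥(vfrogs (kk κ) n) → List ℕ) := fun κ =>
    (Fintype.piFinset (fun _ : ↥(vfrogs (kk κ) n) => words n)).filter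
      (fun y => m0 ≤ (mainRun n (ext y)).length) with hA
  have hdisjE : ∀ κ ∈ Good, ∀ κ' ∈ Good, κ ≠ κ' → Disjoint (EE p V n κ) (EE p V n κ') := by
    intro κ _ κ' _ hκ
    rw [Set.disjoint_left]
    intro ω h1 h2
    exact hκ (Eq.trans (Eq.symm h1) h2)
  have hsub : ∀ m, (⋃ κ ∈ Good, ⋃ y ∈ A κ, DD' p V n m κ y) ⊆ RR p V m0 := by
    intro m ω hω
    simp only [Set.mem_iUnion, exists_prop] at hω
    obtain ⟨κ, _, y, hy, hD1, hD2⟩ := hω
    have hκ : kap p V n ω = κ := hD1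
    subst hκ
    obtain ⟨hy1, hy2⟩ := Finset.mem_filter.1 hy
    apply many_visits hV1 hn rfl y (Fintype.mem_piFinset.1 hy1) (m := m) _ hy2
    intro x
    have h3 := Set.mem_iInter₂.1 hD2 x.1 x.2
    have h4 : W (kk (kap p V n ω)) n x (fun j => V (x, j) ω) m = ext y x := h3
    rw [h4]
    simp [ext]
  have hle : ∀ m, ∑ κ ∈ Good, P.real (EE p V n κ) * ∑ y ∈ A κ,
      ∏ x : ↥(vfrogs (kk κ) n), aa P V (kk κ) n x m (y x) ≤ 1 - P.real (RR p V m0)ᶜ := by
    intro m
    have hmeasS : MeasurableSet (⋃ κ ∈ Good, ⋃ y ∈ A κ, DD' p V n m κ y) :=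
      Finset.measurableSet_biUnion _ fun κ hκ =>
        Finset.measurableSet_biUnion _ fun y _ => DD'_meas hm m κ (hG1 κ hκ) y
    have hcompl : P.real (RR p V m0)ᶜ ≤
        1 - P.real (⋃ κ ∈ Good, ⋃ y ∈ A κ, DD' p V n m κ y) := by
      rw [← probReal_compl_eq_one_sub hmeasS]
      exact measureReal_mono (Set.compl_subset_compl.2 (hsub m)) (measure_ne_top _ _)
    refine le_trans (le_of_eq ?_) (by linarith :
      P.real (⋃ κ ∈ Good, ⋃ y ∈ A κ, DD' p V n m κ y) ≤ 1 - P.real (RR p V m0)ᶜ)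
    have hinner : ∀ κ ∈ Good, P.real (⋃ y ∈ A κ, DD' p V n m κ y) =
        P.real (EE p V n κ) * ∑ y ∈ A κ,
          ∏ x : ↥(vfrogs (kk κ) n), aa P V (kk κ) n x m (y x) := by
      intro κ hκ
      rw [measureReal_biUnion_finset]
      · rw [Finset.mul_sum]
        exact Finset.sum_congr rfl fun y _ => DD'_prob hI hm m κ (hG1 κ hκ) y
      · intro y _ y' _ hyy
        rw [Function.onFun, Set.disjoint_left]
        rintro ω ⟨_, h1⟩ ⟨_, h2⟩
        apply hyy
        funext x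
        have h3 := Set.mem_iInter₂.1 h1 x.1 x.2
        have h4 := Set.mem_iInter₂.1 h2 x.1 x.2
        have h5 : ext y x.1 = ext y' x.1 := Eq.trans (Eq.symm h3) h4
        simpa [ext] using h5
      · intro y _
        exact DD'_meas hm m κ (hG1 κ hκ) y
    rw [measureReal_biUnion_finset (h := fun _ _ => measure_ne_top _ _)]
    · exact Finset.sum_congr rfl fun κ hκ => (hinner κ hκ).symm
    · intro κ hκ κ' hκ' hne
      rw [Function.onFun]
      refine (hdisjE κ hκ κ' hκ' hne).mono ?_ ?_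
      · exact Set.iUnion₂_subset fun y _ => Set.inter_subset_left
      · exact Set.iUnion₂_subset fun y _ => Set.inter_subset_left
    · intro κ hκ
      exact Finset.measurableSet_biUnion _ fun y _ => DD'_meas hm m κ (hG1 κ hκ) y
  have hlim : Filter.Tendsto (fun m => ∑ κ ∈ Good, P.real (EE p V n κ) * ∑ y ∈ A κ,
      ∏ x : ↥(vfrogs (kk κ) n), aa P V (kk κ) n x m (y x)) Filter.atTop
      (nhds (∑ κ ∈ Good, P.real (EE p V n κ) *
        J (kk κ) n (vfrogs (kk κ) n) B0 (fun η => ev m0 (mainRun n η)))) := by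
    apply tendsto_finsetSum
    intro κ hκ
    apply Filter.Tendsto.const_mul
    have hJ : J (kk κ) n (vfrogs (kk κ) n) B0 (fun η => ev m0 (mainRun n η)) =
        ∑ y ∈ A κ, ∏ x : ↥(vfrogs (kk κ) n), law (kk κ) n (B0 x) (ind (y x)) := by
      unfold J
      rw [hA, Finset.sum_filter]
      refine Finset.sum_congr rfl fun y _ => ?_
      by_cases h : m0 ≤ (mainRun n (ext y)).length
      · simp [ev, h]
      · simp [ev, h]
    rw [hJ]
    apply tendsto_finsetSum
    intro y hy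
    apply tendsto_finsetProd
    intro x _
    obtain ⟨hx1, hx2⟩ := (mem_vfrogs (kk_or κ) n x.1).1 x.2
    exact aa_tendsto hI hm hV0 hV1 hU (kk_or κ) hx2 hx1
      (Fintype.mem_piFinset.1 (Finset.mem_filter.1 hy).1 x)
  have hfin := le_of_tendsto' hlim hle
  refine le_trans ?_ hfin
  rw [measureReal_biUnion_finset (fun κ hκ κ' hκ' hne => hdisjE κ hκ κ' hκ' hne)
    (fun κ hκ => sg_le hm _ _ (EE_meas κ (hG1 κ hκ))), Finset.mul_sum]
  refine Finset.sum_le_sum fun κ hκ => ?_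
  rw [mul_comm]
  exact mul_le_mul_of_nonneg_left (hG κ hκ) measureReal_nonneg

end prob

end Pool.Agent.W847.Frog
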