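import Pool.Agent.W847.Frog.Env

/-!
# The stopped walks and the meaning of the exploration for the frog model
-/

set_option autoImplicit false

open Finset

namespace Pool.Agent.W847.Frog

/-- One step of the walk. -/
noncomputable def stp (k : List ℕ → ℕ) (x : List ℕ) (v : ℝ) : List ℕ :=
  if x = [] then [⌊v * (k x : ℝ)⌋₊]
  else if ⌊v * ((k x : ℝ) + 1)⌋₊ = 0 then x.tail
  else (⌊v * ((k x : ℝ) + 1)⌋₊ - 1) :: x

/-- The walk started at `x` with steps `v 1, v 2, …`, stopped at generation `n`. -/
noncomputable def W (k : List ℕ → ℕ) (n : ℕ) (x : List ℕ) (v : ℕ → ℝ) : ℕ → List ℕ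
  | 0 => x
  | m + 1 => if n ≤ (W k n x v m).length then W k n x v m else stp k (W k n x v m) (v (m + 1))

theorem floor_lt {v : ℝ} (h1 : v < 1) {K : ℕ} (hK : 0 < K) : ⌊v * (K : ℝ)⌋₊ < K := by
  have hK' : (0 : ℝ) < K := by exact_mod_cast hK
  by_cases h0 : 0 ≤ v
  · rw [Nat.floor_lt (mul_nonneg h0 hK'.le)]
    nlinarith
  · rw [Nat.floor_of_nonpos (by nlinarith)]; exact hK

section det

variable {k : List ℕ → ℕ} (hk : ∀ x, k x = 2 ∨ k x = 5) {n : ℕ} {x : List ℕ} {v : ℕ → ℝ}
  (hv1 : ∀ j, v j < 1)

/-- Shape of one step. -/
theorem stp_cases (k : List ℕ → ℕ) (x : List ℕ) (t : ℝ) :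
    (∃ c, stp k x t = c :: x) ∨ (x ≠ [] ∧ stp k x t = x.tail) := by
  unfold stp
  split_ifs with h1 h2
  · left; exact ⟨_, by rw [h1]⟩
  · right; exact ⟨h1, rfl⟩
  · left; exact ⟨_, rfl⟩

include hk in
theorem stp_val {x : List ℕ} {t : ℝ} (ht : t < 1) (hx : Val k x) : Val k (stp k x t) := by
  unfold stp
  have h2 := k_ge hk x
  split_ifs with h1 h3
  · subst h1
    exact ⟨floor_lt ht (by omega), trivial⟩
  · cases x with
    | nil => exact absurd rfl h1
    | cons i z => exact hx.2
  · refine ⟨?_, hx⟩
    have := floor_lt ht (K := k x + 1) (by omega)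
    push_cast at this
    omega

theorem stp_length {x : List ℕ} {t : ℝ} : (stp k x t).length ≤ x.length + 1 := by
  rcases stp_cases k x t with ⟨c, h⟩ | ⟨_, h⟩
  · rw [h]; simp
  · rw [h, List.length_tail]; omega

include hk hv1 in
theorem W_val (hx : Val k x) (m : ℕ) : Val k (W k n x v m) := by
  induction m with
  | zero => exact hx
  | succ m ih =>
    simp only [W]
    split_ifs
    · exact ih
    · exact stp_val hk (hv1 _) ih

theorem W_length (hx : x.length ≤ n) (m : ℕ) : (W k n x v m).length ≤ n := by
  induction m with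
  | zero => exact hx
  | succ m ih =>
    simp only [W]
    split_ifs with h
    · exact ih
    · refine stp_length.trans ?_
      omega

end det

/-- A walk of the frog model and the stopped walk in a fixed environment. -/
structure Cpl (k kr : List ℕ → ℕ) (n : ℕ) (x : List ℕ) (v : ℕ → ℝ) (Y : ℕ → List ℕ) : Prop where
  zero : Y 0 = x
  step : ∀ m, Y (m + 1) = stp kr (Y m) (v (m + 1))
  env : ∀ z, Val k z → z.length < n → kr z = k z

section cpl

variable {k kr : List ℕ → ℕ} (hk : ∀ x, k x = 2 ∨ k x = 5) {n : ℕ} {x : List ℕ} {v : ℕ → ℝ}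
  (hv1 : ∀ j, v j < 1) {Y : ℕ → List ℕ} (hY : Cpl k kr n x v Y) (hx : Val k x)

include hk hv1 hY hx

theorem Cpl.eq (m : ℕ) (h : (W k n x v m).length < n) : Y m = W k n x v m := by
  induction m with
  | zero => exact hY.zero
  | succ m ih =>
    by_cases h1 : n ≤ (W k n x v m).length
    · simp only [W, if_pos h1] at h
      omega
    · have h2 := ih (by omega)
      rw [hY.step, h2]
      simp only [W, if_neg h1]
      unfold stp
      rw [hY.env _ (W_val hk hv1 hx m) (by omega)]

theorem Cpl.eq_succ (m : ℕ) (h : (W k n x v m).length < n) : Y (m + 1) = W k n x v (m + 1) := by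
  rw [hY.step, hY.eq hk hv1 hx m h]
  simp only [W, if_neg (not_le.2 h)]
  unfold stp
  rw [hY.env _ (W_val hk hv1 hx m) h]

/-- Vertices above the end but not above the start are visited. -/
theorem Cpl.enter (m : ℕ) : ∀ u, u <:+ W k n x v m → ¬ (u <:+ x) → ∃ i, Y i = u := by
  induction m with
  | zero => intro u h1 h2; exact absurd h1 h2
  | succ m ih =>
    intro u h1 h2
    by_cases h : n ≤ (W k n x v m).length
    · simp only [W, if_pos h] at h1
      exact ih u h1 h2
    · by_cases h3 : u <:+ W k n x v m
      · exact ih u h3 h2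
      · have h4 : W k n x v (m + 1) = stp k (W k n x v m) (v (m + 1)) := by
          simp only [W, if_neg h]
        rcases stp_cases k (W k n x v m) (v (m + 1)) with ⟨c, hc⟩ | ⟨_, hc⟩
        · rw [h4, hc, List.suffix_cons_iff] at h1
          rcases h1 with h1 | h1
          · exact ⟨m + 1, by rw [hY.eq_succ hk hv1 hx m (by omega), h4, hc, h1]⟩
          · exact absurd h1 h3
        · rw [h4, hc] at h1
          exact absurd (h1.trans (List.tail_suffix _)) h3

/-- The parent of a vertex above the start but not above the end is visited. -/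
theorem Cpl.leave (m : ℕ) : ∀ u, u <:+ x → ¬ (u <:+ W k n x v m) → ∃ i, Y i = u.tail := by
  induction m with
  | zero => intro u h1 h2; exact absurd h1 h2
  | succ m ih =>
    intro u h1 h2
    by_cases h : n ≤ (W k n x v m).length
    · simp only [W, if_pos h] at h2
      exact ih u h1 h2
    · by_cases h3 : u <:+ W k n x v m
      · have h4 : W k n x v (m + 1) = stp k (W k n x v m) (v (m + 1)) := by
          simp only [W, if_neg h]
        rcases stp_cases k (W k n x v m) (v (m + 1)) with ⟨c, hc⟩ | ⟨h0, hc⟩
        · rw [h4, hc] at h2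
          exact absurd (h3.trans (List.suffix_cons _ _)) h2
        · rw [h4, hc] at h2
          obtain ⟨a, t, ht⟩ := List.exists_cons_of_ne_nil h0
          rw [ht] at h3 h2
          rw [List.suffix_cons_iff] at h3
          rcases h3 with h3 | h3
          · refine ⟨m + 1, ?_⟩
            rw [hY.eq_succ hk hv1 hx m (by omega), h4, hc, ht, h3]
          · exact absurd h3 h2
      · exact ih u h1 h3

end cpl

/-- Consistency of endpoints with what is known. -/
def Cons (F : Finset (List ℕ)) (η : List ℕ → List ℕ) (B : List ℕ → Info) : Prop :=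
  ∀ x ∈ F, match B x with
    | .loc z fr => ∀ i, fr = some i → ¬ ((i :: z) <:+ η x)
    | .fin _ => True

/-- A run of a valid program satisfies the final condition. -/
theorem Post_run {β : Type} {k : List ℕ → ℕ} (hk : ∀ x, k x = 2 ∨ k x = 5) {n : ℕ} {F : Finset (List ℕ)}
    {η : List ℕ → List ℕ} (hη : ∀ x ∈ F, (η x).length = n ∧ Val k (η x)) (t : Prog β) :
    ∀ {B : List ℕ → Info} {Q : β → (List ℕ → Info) → Prop}, t.Post k n F B Q →
      (∀ x ∈ F, VI k n (B x)) → Cons F η B → ∃ B', Q (t.run η) B' := by
  induction t with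
  | ret r => intro B Q h _ _; exact ⟨B, h⟩
  | ask x i z fr next ih =>
    intro B Q hP hVI hc
    obtain ⟨h1, h2, h3, h4⟩ := hP
    have hv := hVI x h1
    rw [h2] at hv
    obtain ⟨hv1, hv2, hv3⟩ := hv
    have hcx := hc x h1
    rw [h2] at hcx
    simp only at hcx
    have hcons : ∀ s : Info, (match s with
        | .loc z fr => ∀ i, fr = some i → ¬ ((i :: z) <:+ η x)
        | .fin _ => True) → Cons F η (Function.update B x s) := by
      intro s hs y hy
      by_cases hyx : y = x
      · subst hyx
        rw [Function.update_self]; exact hs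
      · rw [Function.update_of_ne hyx]; exact hc y hy
    have hVI' : ∀ s : Info, VI k n s → ∀ y ∈ F, VI k n (Function.update B x s y) := by
      intro s hs y hy
      by_cases hyx : y = x
      · subst hyx
        rw [Function.update_self]; exact hs
      · rw [Function.update_of_ne hyx]; exact hVI y hy
    have hl2 : z.length < n := by simp only [List.length_cons] at hv2; omega
    obtain ⟨hηl, hηv⟩ := hη x h1
    by_cases hs : (i :: z) <:+ η x
    · obtain ⟨q, hq⟩ := hs
      obtain ⟨p, rfl⟩ : ∃ p, q = p.reverse := ⟨q.reverse, by simp⟩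
      cases p with
      | nil =>
        simp only [List.reverse_nil, List.nil_append] at hq
        rw [← hq] at hηl
        omega
      | cons j p =>
        have hq' : p.reverse ++ j :: i :: z = η x := by rw [← hq]; simp
        have hrun : (Prog.ask x i z fr next).run η = (next (some (j :: p))).run η := by
          simp only [Prog.run]
          rw [← hq', ans_cons]
        rw [hrun]
        have hvp : Val k (p.reverse ++ j :: i :: z) := by rw [hq']; exact hηv
        have hj : j < k (i :: z) := (hvp.suffix (List.suffix_append _ _)).1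
        have hfr : fr ≠ some j := by
          intro h
          exact hcx j h (by rw [← hq']; exact List.suffix_append _ _)
        have hpl : p.length = n - (z.length + 2) := by
          rw [← hq'] at hηl
          simp only [List.length_append, List.length_reverse, List.length_cons] at hηl
          omega
        exact ih _ (h4 j p hj hfr hpl hvp) (hVI' _
          ((mem_words n _).2 ⟨by rw [hq']; exact hηl, hvp.lt_five hk⟩)) (hcons _ trivial)
    · have hrun : (Prog.ask x i z fr next).run η = (next none).run η := by
        simp only [Prog.run]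
        rw [ans, if_neg hs]
      rw [hrun]
      exact ih none h3 (hVI' _ ⟨hv1.2, hl2, leg_some hv1.1⟩)
        (hcons _ (by intro i' hi'; cases hi'; exact hs))

end Pool.Agent.W847.Frog
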